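import Mathlib
import Pool.Agent.H381R2.HR.Defs
import Pool.Agent.Erdos456.Mertens

/-! M1, M2, M3 (helper84). -/

set_option autoImplicit false

open Finset

namespace Pool.Agent.H381R2.HR

namespace MAux

theorem prime_pos {w p : ℕ} (hp : p ∈ PP w) : p.Prime := (mem_filter.1 hp).2

theorem factor_pos {w p : ℕ} (hp : p ∈ PP w) : (0 : ℝ) < (1 - (p : ℝ)⁻¹)⁻¹ := by
  have h2 : (2 : ℝ) ≤ p := by exact_mod_cast (prime_pos hp).two_le
  have : (p : ℝ)⁻¹ < 1 := inv_lt_one_of_one_lt₀ (by linarith)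
  exact inv_pos.2 (by linarith)

theorem BB_pos (w : ℕ) : 0 < BB w := prod_pos fun p hp => factor_pos hp

theorem lower (w : ℕ) (hw : 1 ≤ w) : Real.log w ≤ BB w := by
  -- Euler product
  let f : ℕ →* ℝ :=
    { toFun := fun n => (n : ℝ)⁻¹
      map_one' := by simp
      map_mul' := by intro x y; push_cast; rw [mul_inv] }
  have hf : ∀ {p : ℕ}, p.Prime → ‖f p‖ < 1 := by
    intro p hp
    have h2 : (2 : ℝ) ≤ p := by exact_mod_cast hp.two_le
    show ‖(p : ℝ)⁻¹‖ < 1
    rw [Real.norm_eq_abs, abs_of_nonneg (by positivity)]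
    exact inv_lt_one_of_one_lt₀ (by linarith)
  obtain ⟨hs, hsum⟩ := EulerProduct.summable_and_hasSum_factoredNumbers_prod_filter_prime_geometric (f := f) (fun {p} hp => hf hp) (PP w)
  have hBB : ∏ p ∈ PP w with p.Prime, (1 - f p)⁻¹ = BB w := by
    rw [filter_true_of_mem (fun p hp => prime_pos hp)]
    rfl
  rw [hBB] at hsum
  -- sum over [1, w]
  have hmem : ∀ n ∈ Icc 1 w, n ∈ Nat.factoredNumbers (PP w) := by
    intro n hn
    rw [mem_Icc] at hn
    rw [Nat.mem_factoredNumbers]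
    refine ⟨by omega, fun p hp => ?_⟩
    rw [Nat.mem_primeFactorsList (by omega)] at hp
    exact mem_filter.2 ⟨mem_Icc.2 ⟨hp.1.one_lt.le, (Nat.le_of_dvd (by omega) hp.2).trans hn.2⟩, hp.1⟩
  have hle : ∑ n ∈ Icc 1 w, (n : ℝ)⁻¹ ≤ BB w := by
    rw [← hsum.tsum_eq]
    have h1 : ∑ n ∈ Icc 1 w, (n : ℝ)⁻¹ =
        ∑ x ∈ (Icc 1 w).attach.image (fun n => (⟨n.1, hmem n.1 n.2⟩ : Nat.factoredNumbers (PP w))),
          f x := by
      rw [sum_image]
      · rw [← sum_attach (Icc 1 w)]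
        rfl
      · intro a _ b _ hab
        have := congrArg Subtype.val hab
        exact Subtype.ext this
    rw [h1]
    refine hsum.summable.sum_le_tsum _ (fun x _ => ?_)
    show (0 : ℝ) ≤ ((x : ℕ) : ℝ)⁻¹
    positivity
  have hharm : Real.log (w + 1 : ℕ) ≤ ∑ n ∈ Icc 1 w, (n : ℝ)⁻¹ := by
    have := log_add_one_le_harmonic w
    rw [harmonic_eq_sum_Icc] at this
    push_cast at this ⊢
    exact this
  have hmono : Real.log w ≤ Real.log (w + 1 : ℕ) := by
    apply Real.log_le_log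
    · exact_mod_cast hw
    · push_cast; linarith
  linarith

theorem telesc (w : ℕ) : ∑ p ∈ PP w, (1 : ℝ) / (p * (p - 1)) ≤ 1 := by
  have h1 : ∑ p ∈ PP w, (1 : ℝ) / (p * (p - 1)) ≤ ∑ p ∈ Icc 2 (w + 1), (1 : ℝ) / (p * (p - 1)) := by
    refine sum_le_sum_of_subset_of_nonneg ?_ ?_
    · intro p hp
      have := mem_filter.1 hp
      rw [mem_Icc] at this ⊢
      exact ⟨this.2.two_le, by omega⟩
    · intro p hp _
      rw [mem_Icc] at hp
      have : (2 : ℝ) ≤ p := by exact_mod_cast hp.1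
      have : (0 : ℝ) ≤ p * (p - 1) := by nlinarith
      positivity
  have h2 : ∀ n : ℕ, ∑ p ∈ Icc 2 (n + 1), (1 : ℝ) / (p * (p - 1)) = 1 - 1 / (n + 1) := by
    intro n
    induction n with
    | zero => simp
    | succ n ih =>
      rw [Finset.sum_Icc_succ_top (by omega), ih]
      push_cast
      field_simp
      ring
  rw [h2] at h1
  have : (0 : ℝ) ≤ 1 / (w + 1) := by positivity
  linarith

end MAux

open MAux

/-- M1: Mertens bounds. -/
theorem M1 : ∃ C : ℝ, 1 ≤ C ∧ ∀ w : ℕ, 2 ≤ w → Real.log w ≤ BB w ∧ BB w ≤ C * Real.log w := by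
  obtain ⟨C, hC⟩ := Pool.Agent.Erdos456.Mert.mertens_inv
  have hl2 : 0 < Real.log 2 := Real.log_pos (by norm_num)
  refine ⟨max (max 1 (Real.exp (C + 1))) (2 / Real.log 2), (le_max_left _ _).trans (le_max_left _ _), ?_⟩
  intro w hw
  refine ⟨lower w (by omega), ?_⟩
  have hlw : 0 < Real.log w := Real.log_pos (by exact_mod_cast hw)
  rcases Nat.lt_or_ge w 3 with h3 | h3
  · have hw2 : w = 2 := by omega
    subst hw2
    have hPP : PP 2 = {2} := by decide
    have : BB 2 = 2 := by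
      rw [BB, hPP, prod_singleton]; norm_num
    rw [this]
    calc (2 : ℝ) = 2 / Real.log 2 * Real.log 2 := by field_simp
      _ ≤ _ := by
        push_cast
        exact mul_le_mul_of_nonneg_right (le_max_right _ _) hl2.le
  · have h1 := hC w h3
    have h2 : BB w ≤ Real.exp (∑ p ∈ PP w, ((1 : ℝ) / p + 1 / (p * (p - 1)))) := by
      rw [Real.exp_sum, BB]
      refine prod_le_prod (fun p hp => (factor_pos hp).le) ?_
      intro p hp
      have hp2 : (2 : ℝ) ≤ p := by exact_mod_cast (prime_pos hp).two_le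
      have e : (1 - (p : ℝ)⁻¹)⁻¹ = 1 + ((1 : ℝ) / p + 1 / (p * (p - 1))) := by
        have h0 : (p : ℝ) ≠ 0 := by linarith
        have h1 : (p : ℝ) - 1 ≠ 0 := by linarith
        field_simp
        ring
      rw [e]
      have := Real.add_one_le_exp ((1 : ℝ) / p + 1 / (p * (p - 1)))
      linarith
    have h4 : ∑ p ∈ PP w, ((1 : ℝ) / p + 1 / (p * (p - 1))) ≤ Real.log (Real.log w) + (C + 1) := by
      rw [sum_add_distrib]
      have := telesc w
      have h5 := (abs_le.1 h1).2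
      have h6 : ∑ p ∈ PP w, (1 : ℝ) / p = ∑ p ∈ (Finset.Icc 1 w).filter Nat.Prime, (1 : ℝ) / p := rfl
      rw [h6]
      linarith
    calc BB w ≤ _ := h2
      _ ≤ Real.exp (Real.log (Real.log w) + (C + 1)) := Real.exp_le_exp.2 h4
      _ = Real.exp (C + 1) * Real.log w := by
          rw [Real.exp_add, Real.exp_log hlw]; ring
      _ ≤ _ := mul_le_mul_of_nonneg_right ((le_max_right _ _).trans (le_max_left _ _)) hlw.le

/-- M2: reciprocals of primes in `(z, Q]` (from Mertens' first theorem). -/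
theorem M2 : ∃ C : ℝ, 0 < C ∧ ∀ z Q : ℕ, 2 ≤ z → z ≤ Q →
    ∑ q ∈ (Icc 1 Q).filter (fun q => q.Prime ∧ z < q), (1 : ℝ) / q ≤
      (Real.log (Q / z) + C) / Real.log z := by
  obtain ⟨C, hC⟩ := Pool.Agent.Erdos456.Mert.mertens_log
  have hC0 : 0 ≤ C := (abs_nonneg _).trans (hC 1 le_rfl)
  refine ⟨2 * C + 1, by linarith, ?_⟩
  intro z Q hz hzQ
  have hlz : 0 < Real.log z := Real.log_pos (by exact_mod_cast hz)
  have hz0 : (0 : ℝ) < z := by exact_mod_cast (by omega : 0 < z)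
  have hQ0 : (0 : ℝ) < Q := by exact_mod_cast (by omega : 0 < Q)
  rw [le_div_iff₀ hlz, Real.log_div hQ0.ne' hz0.ne', sum_mul]
  have h1 : ∑ q ∈ (Icc 1 Q).filter (fun q => q.Prime ∧ z < q), (1 : ℝ) / q * Real.log z ≤
      ∑ q ∈ (Icc 1 Q).filter (fun q => q.Prime ∧ z < q), Real.log q / q := by
    refine sum_le_sum fun q hq => ?_
    have hq' := (mem_filter.1 hq).2
    have hq0 : (0 : ℝ) < q := by exact_mod_cast hq'.1.pos
    have : Real.log z ≤ Real.log q := Real.log_le_log hz0 (by exact_mod_cast hq'.2.le)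
    rw [one_div, div_eq_inv_mul]
    exact mul_le_mul_of_nonneg_left this (by positivity)
  have h2 : ∑ q ∈ (Icc 1 Q).filter (fun q => q.Prime ∧ z < q), Real.log q / q +
      ∑ q ∈ (Icc 1 z).filter Nat.Prime, Real.log q / q =
      ∑ q ∈ (Icc 1 Q).filter Nat.Prime, Real.log q / q := by
    rw [← sum_union]
    · congr 1
      ext q
      simp only [mem_union, mem_filter, mem_Icc]
      constructor
      · rintro (⟨⟨h1, h2⟩, h3, h4⟩ | ⟨⟨h1, h2⟩, h3⟩)
        · exact ⟨⟨h1, h2⟩, h3⟩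
        · exact ⟨⟨h1, by omega⟩, h3⟩
      · rintro ⟨⟨h1, h2⟩, h3⟩
        rcases Nat.lt_or_ge z q with h | h
        · exact Or.inl ⟨⟨h1, h2⟩, h3, h⟩
        · exact Or.inr ⟨⟨h1, h⟩, h3⟩
    · rw [disjoint_left]
      intro q hq1 hq2
      simp only [mem_filter, mem_Icc] at hq1 hq2
      omega
  have h3 := (abs_le.1 (hC Q (by omega))).2
  have h4 := (abs_le.1 (hC z (by omega))).1
  linarith

/-- M3 -/
theorem M3 (w v : ℕ) (hwv : w ≤ v) : ((MM w v : ℕ) : ℝ) / (Nat.totient (MM w v) : ℝ) = BB v / BB w ∧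
    MM w v ≤ 4 ^ v ∧ (∀ p : ℕ, p.Prime → p ≤ w → ¬ p ∣ MM w v) := by
  have hpr : ∀ p ∈ (PP v).filter (fun p => w < p), p.Prime := fun p hp =>
    prime_pos (mem_filter.1 hp).1
  have hpf : (MM w v).primeFactors = (PP v).filter (fun p => w < p) := Nat.primeFactors_prod hpr
  have hMpos : 0 < MM w v := prod_pos fun p hp => (hpr p hp).pos
  refine ⟨?_, ?_, ?_⟩
  · have h1 : ((Nat.totient (MM w v) : ℕ) : ℝ) =
        (MM w v : ℝ) * ∏ p ∈ (PP v).filter (fun p => w < p), (1 - (p : ℝ)⁻¹) := by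
      have := Nat.totient_eq_mul_prod_factors (MM w v)
      rw [hpf] at this
      have h2 := congrArg (fun x : ℚ => (x : ℝ)) this
      push_cast at h2
      exact h2
    have h2 : BB v = BB w * ∏ p ∈ (PP v).filter (fun p => w < p), (1 - (p : ℝ)⁻¹)⁻¹ := by
      rw [BB, BB, ← prod_union]
      · congr 1
        ext p
        simp only [mem_union, mem_filter, PP, mem_Icc]
        constructor
        · rintro ⟨⟨h1, h2⟩, h3⟩
          rcases Nat.lt_or_ge w p with h | h
          · exact Or.inr ⟨⟨⟨h1, h2⟩, h3⟩, h⟩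
          · exact Or.inl ⟨⟨h1, h⟩, h3⟩
        · rintro (⟨⟨h1, h2⟩, h3⟩ | ⟨⟨⟨h1, h2⟩, h3⟩, h4⟩)
          · exact ⟨⟨h1, by omega⟩, h3⟩
          · exact ⟨⟨h1, h2⟩, h3⟩
      · rw [disjoint_left]
        intro q hq1 hq2
        simp only [PP, mem_filter, mem_Icc] at hq1 hq2
        omega
    have h3 : (0 : ℝ) < MM w v := by exact_mod_cast hMpos
    have h4 : (0 : ℝ) < ∏ p ∈ (PP v).filter (fun p => w < p), (1 - (p : ℝ)⁻¹) := by
      refine prod_pos fun p hp => ?_
      exact inv_pos.1 (factor_pos (mem_filter.1 hp).1)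
    rw [h1, h2, prod_inv_distrib]
    have h5 := (BB_pos w).ne'
    field_simp
  · have h1 : MM w v ≤ primorial v := by
      have h2 : primorial v = ∏ p ∈ PP v, p := by
        rw [primorial]
        congr 1
        ext p
        simp only [mem_filter, mem_range, PP, mem_Icc]
        constructor
        · rintro ⟨h1, h2⟩; exact ⟨⟨h2.one_lt.le, by omega⟩, h2⟩
        · rintro ⟨⟨h1, h2⟩, h3⟩; exact ⟨by omega, h3⟩
      rw [h2, MM]
      refine prod_le_prod_of_subset_of_one_le' (filter_subset _ _) ?_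
      intro p hp _
      exact (prime_pos hp).one_lt.le
    exact h1.trans (primorial_le_four_pow v)
  · intro p hp hpw hdvd
    have : p ∈ (MM w v).primeFactors := Nat.mem_primeFactors.2 ⟨hp, hdvd, hMpos.ne'⟩
    rw [hpf] at this
    have := (mem_filter.1 this).2
    omega

end Pool.Agent.H381R2.HR
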