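import Mathlib

set_option autoImplicit false

open Filter Topology

namespace Pool.Agent.H381R2.HR.Asm

/-- `C + x^a log (6x) ≤ x^a'` -/
lemma asy1 {a a' : ℝ} (ha : 0 < a) (haa : a < a') (C : ℝ) :
    ∀ᶠ x : ℝ in atTop, C + x ^ a * Real.log (6 * x) ≤ x ^ a' := by
  have h1 : Tendsto (fun x : ℝ => x ^ (a' - a)) atTop atTop := tendsto_rpow_atTop (by linarith)
  have h2 : (fun x : ℝ => Real.log x) =o[atTop] fun x => x ^ ((a' - a) / 2) :=
    isLittleO_log_rpow_atTop (by linarith)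
  have h3 := h2.bound (show (0 : ℝ) < 1 / 4 by norm_num)
  have h4 : Tendsto (fun x : ℝ => x ^ ((a' - a) / 2)) atTop atTop :=
    tendsto_rpow_atTop (by linarith)
  have h5 : Tendsto (fun x : ℝ => x ^ a) atTop atTop := tendsto_rpow_atTop ha
  filter_upwards [h3, h4.eventually_ge_atTop (4 * Real.log 6 + 4), eventually_ge_atTop 1,
    h5.eventually_ge_atTop (|C| + 1)] with x hx1 hx2 hx3 hx4
  have hx0 : 0 < x := by linarith
  have hlx : 0 ≤ Real.log x := Real.log_nonneg hx3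
  rw [Real.norm_of_nonneg hlx, Real.norm_of_nonneg (by positivity)] at hx1
  have h6 : Real.log (6 * x) = Real.log 6 + Real.log x := Real.log_mul (by norm_num) hx0.ne'
  set y := x ^ ((a' - a) / 2) with hy
  have hy1 : 4 ≤ y := by
    have : 0 ≤ Real.log 6 := Real.log_nonneg (by norm_num)
    linarith
  have h7 : x ^ a' = x ^ a * (y * y) := by
    rw [hy, ← Real.rpow_add hx0, ← Real.rpow_add hx0]
    congr 1
    ring
  rw [h7, h6]
  have h8 : Real.log 6 + Real.log x ≤ y / 2 := by linarith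
  have h9 : 0 < x ^ a := by positivity
  have h10 : x ^ a * (Real.log 6 + Real.log x) ≤ x ^ a * (y / 2) :=
    mul_le_mul_of_nonneg_left h8 h9.le
  have h11 : C ≤ x ^ a := by linarith [le_abs_self C]
  have h12 : x ^ a * (1 + y / 2) ≤ x ^ a * (y * y) :=
    mul_le_mul_of_nonneg_left (by nlinarith) h9.le
  linarith

/-- `C x^(-c) log x ≤ 1` -/
lemma asy2 {c : ℝ} (hc : 0 < c) (C : ℝ) :
    ∀ᶠ x : ℝ in atTop, C * (x ^ (-c) * Real.log x) ≤ 1 := by
  have h2 : (fun x : ℝ => Real.log x) =o[atTop] fun x => x ^ c := isLittleO_log_rpow_atTop hc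
  have h3 := h2.bound (show (0 : ℝ) < 1 / (|C| + 1) by positivity)
  filter_upwards [h3, eventually_ge_atTop 1] with x hx1 hx3
  have hx0 : 0 < x := by linarith
  have hlx : 0 ≤ Real.log x := Real.log_nonneg hx3
  rw [Real.norm_of_nonneg hlx, Real.norm_of_nonneg (by positivity)] at hx1
  have h4 : x ^ (-c) * Real.log x ≤ 1 / (|C| + 1) := by
    calc x ^ (-c) * Real.log x ≤ x ^ (-c) * (1 / (|C| + 1) * x ^ c) :=
          mul_le_mul_of_nonneg_left hx1 (by positivity)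
      _ = 1 / (|C| + 1) * (x ^ (-c) * x ^ c) := by ring
      _ = 1 / (|C| + 1) := by rw [← Real.rpow_add hx0]; simp
  have h5 : 0 ≤ x ^ (-c) * Real.log x := by positivity
  calc C * (x ^ (-c) * Real.log x) ≤ (|C| + 1) * (x ^ (-c) * Real.log x) := by
        apply mul_le_mul_of_nonneg_right _ h5
        linarith [le_abs_self C]
    _ ≤ (|C| + 1) * (1 / (|C| + 1)) := mul_le_mul_of_nonneg_left h4 (by positivity)
    _ = 1 := by field_simp

/-- `C exp(-x^c/2) x^n ≤ 1` -/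
lemma asy3 {c : ℝ} (hc : 0 < c) (C : ℝ) (n : ℕ) :
    ∀ᶠ x : ℝ in atTop, C * (Real.exp (-(x ^ c / 2)) * x ^ n) ≤ 1 := by
  have h1 : Tendsto (fun y : ℝ => y ^ ((n : ℝ) / c) * Real.exp (-(1 / 2) * y)) atTop (𝓝 0) :=
    tendsto_rpow_mul_exp_neg_mul_atTop_nhds_zero _ _ (by norm_num)
  have h2 := h1.comp (tendsto_rpow_atTop hc)
  have h3 : ∀ᶠ x : ℝ in atTop, (x ^ c) ^ ((n : ℝ) / c) * Real.exp (-(1 / 2) * x ^ c) < 1 / (|C| + 1) :=
    h2.eventually_lt_const (by positivity)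
  filter_upwards [h3, eventually_ge_atTop 1] with x hx1 hx3
  have hx0 : 0 < x := by linarith
  have h4 : (x ^ c) ^ ((n : ℝ) / c) = x ^ n := by
    rw [← Real.rpow_mul hx0.le, mul_div_cancel₀ _ hc.ne', Real.rpow_natCast]
  rw [h4] at hx1
  have h5 : Real.exp (-(x ^ c / 2)) * x ^ n = x ^ n * Real.exp (-(1 / 2) * x ^ c) := by
    rw [mul_comm]; congr 2; ring
  rw [h5]
  have h6 : 0 ≤ x ^ n * Real.exp (-(1 / 2) * x ^ c) := by positivity
  calc C * (x ^ n * Real.exp (-(1 / 2) * x ^ c)) ≤ (|C| + 1) * (x ^ n * Real.exp (-(1 / 2) * x ^ c)) := by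
        apply mul_le_mul_of_nonneg_right _ h6
        linarith [le_abs_self C]
    _ ≤ (|C| + 1) * (1 / (|C| + 1)) := mul_le_mul_of_nonneg_left hx1.le (by positivity)
    _ = 1 := by field_simp

/-- `C + x^c ≤ x / 4` -/
lemma asy4 {c : ℝ} (hc : c < 1) (C : ℝ) : ∀ᶠ x : ℝ in atTop, C + x ^ c ≤ x / 4 := by
  have h1 : Tendsto (fun x : ℝ => x ^ (1 - c)) atTop atTop := tendsto_rpow_atTop (by linarith)
  filter_upwards [h1.eventually_ge_atTop 8, eventually_ge_atTop 1,
    eventually_ge_atTop (8 * |C|)] with x hx1 hx3 hx4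
  have hx0 : 0 < x := by linarith
  have h2 : x ^ c * x ^ (1 - c) = x := by
    rw [← Real.rpow_add hx0]; simp
  have h3 : 0 < x ^ c := by positivity
  have h4 : x ^ c * 8 ≤ x := by
    calc x ^ c * 8 ≤ x ^ c * x ^ (1 - c) := mul_le_mul_of_nonneg_left hx1 h3.le
      _ = x := h2
  linarith [le_abs_self C]

/-- `C x ≤ exp (x/4)` -/
lemma asy5 (C : ℝ) : ∀ᶠ x : ℝ in atTop, C * x ≤ Real.exp (x / 4) := by
  have h1 : Tendsto (fun y : ℝ => Real.exp y / y ^ 1) atTop atTop := Real.tendsto_exp_div_pow_atTop 1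
  have h2 : Tendsto (fun x : ℝ => x / 4) atTop atTop := tendsto_id.atTop_div_const (by norm_num)
  have h3 := h1.comp h2
  filter_upwards [h3.eventually_ge_atTop (4 * |C|), eventually_ge_atTop 1] with x hx1 hx3
  have hx0 : 0 < x := by linarith
  simp only [Function.comp, pow_one] at hx1
  rw [le_div_iff₀ (by positivity)] at hx1
  have : C * x ≤ |C| * x := mul_le_mul_of_nonneg_right (le_abs_self C) hx0.le
  linarith

end Pool.Agent.H381R2.HR.Asm
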