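import Mathlib
import Pool.Agent.H381R2.HR.Defs

/-! Averaging over nonzero classes (task B; helper727). -/

set_option autoImplicit false

open Finset

namespace Pool.Agent.H381R2.HR

theorem cc_nonneg' (P : Finset ℕ) (hP : ∀ p ∈ P, p.Prime) (s : ℕ) : 0 ≤ cc P s := by
  unfold cc
  apply Finset.prod_nonneg
  intro p hp
  split_ifs
  · exact zero_le_one
  · have h2 : (2 : ℝ) ≤ p := by exact_mod_cast (hP p hp).two_le
    apply div_nonneg <;> linarith

/-- number of nonzero classes `c` with `p ∤ x - c` -/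
theorem count_classes (p : ℕ) (hp : p.Prime) (x : ℤ) :
    ((p : ℝ) - 1) * (if p ∣ x.natAbs then (1 : ℝ) else ((p : ℝ) - 2) / ((p : ℝ) - 1)) ≤
      (((Icc 1 (p - 1)).filter (fun c : ℕ => ¬ (p : ℤ) ∣ x - c)).card : ℝ) := by
  have h2 : 2 ≤ p := hp.two_le
  have h2' : (2 : ℝ) ≤ p := by exact_mod_cast h2
  have hc : (((p - 1 : ℕ)) : ℝ) = (p : ℝ) - 1 := by
    rw [Nat.cast_sub (by omega)]; simp
  have hsplit := Finset.card_filter_add_card_filter_not (s := Icc 1 (p - 1))
    (fun c : ℕ => (p : ℤ) ∣ x - c)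
  rw [Nat.card_Icc] at hsplit
  split_ifs with hdvd
  · have hx : (p : ℤ) ∣ x := Int.natCast_dvd.2 hdvd
    have h0 : (Icc 1 (p - 1)).filter (fun c : ℕ => (p : ℤ) ∣ x - c) = ∅ := by
      apply Finset.filter_eq_empty_iff.2
      intro c hc hd
      rw [mem_Icc] at hc
      have h3 : (p : ℤ) ∣ (c : ℤ) := by
        have := dvd_sub hx hd
        simpa using this
      have h4 := Nat.le_of_dvd (by omega) (Int.natCast_dvd_natCast.1 h3)
      omega
    rw [h0] at hsplit
    simp only [card_empty, zero_add] at hsplit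
    rw [hsplit]
    have : ((p - 1 + 1 - 1 : ℕ) : ℝ) = (p : ℝ) - 1 := by
      rw [show p - 1 + 1 - 1 = p - 1 by omega]; exact hc
    rw [this]; linarith
  · have h1 : ((Icc 1 (p - 1)).filter (fun c : ℕ => (p : ℤ) ∣ x - c)).card ≤ 1 := by
      rw [Finset.card_le_one]
      intro a ha b hb
      simp only [mem_filter, mem_Icc] at ha hb
      have h3 : (p : ℤ) ∣ (a : ℤ) - b := by
        have := dvd_sub hb.2 ha.2
        have h4 : x - b - (x - a) = (a : ℤ) - b := by ring
        rwa [h4] at this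
      have h5 : a ≡ b [MOD p] := by
        rw [Nat.modEq_iff_dvd]
        have := (dvd_neg (a := (p : ℤ))).2 h3
        rwa [neg_sub] at this
      have h6 := h5
      unfold Nat.ModEq at h6
      rw [Nat.mod_eq_of_lt (by omega), Nat.mod_eq_of_lt (by omega)] at h6
      exact h6
    have h7 : p - 2 ≤ ((Icc 1 (p - 1)).filter (fun c : ℕ => ¬ (p : ℤ) ∣ x - c)).card := by omega
    have h8 : ((p : ℝ) - 1) * (((p : ℝ) - 2) / ((p : ℝ) - 1)) = (p : ℝ) - 2 := by
      have : (p : ℝ) - 1 ≠ 0 := by linarith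
      field_simp
    rw [h8]
    have h9 : ((p - 2 : ℕ) : ℝ) = (p : ℝ) - 2 := by rw [Nat.cast_sub h2]; simp
    rw [← h9]
    exact_mod_cast h7

/-- B: averaging over the nonzero classes modulo the primes of `P`. -/
theorem B (P : Finset ℕ) (hP : ∀ p ∈ P, p.Prime) (X : Finset ℤ) : ∃ b : ℕ → ℤ,
    ∑ x ∈ X, cc P x.natAbs ≤ ((X.filter (fun x => ∀ p ∈ P, ¬ (p : ℤ) ∣ x - b p)).card : ℝ) := by
  classical
  induction P using Finset.induction_on generalizing X with
  | empty =>
    refine ⟨fun _ => 0, ?_⟩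
    simp [cc]
  | insert p P hpP ih =>
    have hpp := hP p (mem_insert_self _ _)
    have hP' : ∀ q ∈ P, q.Prime := fun q hq => hP q (mem_insert_of_mem hq)
    have h2 : 2 ≤ p := hpp.two_le
    have h2' : (2 : ℝ) ≤ p := by exact_mod_cast h2
    have hex : ∃ c ∈ Icc 1 (p - 1), ∑ x ∈ X, cc (insert p P) x.natAbs ≤
        ∑ x ∈ X.filter (fun x => ¬ (p : ℤ) ∣ x - (c : ℕ)), cc P x.natAbs := by
      apply Finset.exists_le_of_sum_le (s := Icc 1 (p - 1))
      · exact ⟨1, mem_Icc.2 ⟨le_refl _, by omega⟩⟩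
      · rw [Finset.sum_const, Nat.card_Icc, nsmul_eq_mul]
        have hc : ((p - 1 + 1 - 1 : ℕ) : ℝ) = (p : ℝ) - 1 := by
          rw [show p - 1 + 1 - 1 = p - 1 by omega, Nat.cast_sub (by omega)]; simp
        rw [hc, Finset.mul_sum]
        have h3 : ∑ c ∈ Icc 1 (p - 1), ∑ x ∈ X.filter (fun x => ¬ (p : ℤ) ∣ x - (c : ℕ)),
            cc P x.natAbs = ∑ x ∈ X,
            (((Icc 1 (p - 1)).filter (fun c : ℕ => ¬ (p : ℤ) ∣ x - c)).card : ℝ) *
              cc P x.natAbs := by
          simp_rw [Finset.sum_filter]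
          rw [Finset.sum_comm]
          apply Finset.sum_congr rfl
          intro x _
          rw [← Finset.sum_filter, Finset.sum_const, nsmul_eq_mul]
        rw [h3]
        apply Finset.sum_le_sum
        intro x _
        have h4 : cc (insert p P) x.natAbs =
            (if p ∣ x.natAbs then (1 : ℝ) else ((p : ℝ) - 2) / ((p : ℝ) - 1)) * cc P x.natAbs := by
          unfold cc; rw [Finset.prod_insert hpP]
        rw [h4, ← mul_assoc]
        exact mul_le_mul_of_nonneg_right (count_classes p hpp x) (cc_nonneg' P hP' _)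
    obtain ⟨c, _, hc⟩ := hex
    obtain ⟨b, hb⟩ := ih hP' (X.filter (fun x => ¬ (p : ℤ) ∣ x - (c : ℕ)))
    refine ⟨Function.update b p c, hc.trans (hb.trans (le_of_eq ?_))⟩
    congr 2
    ext x
    simp only [mem_filter, mem_insert, forall_eq_or_imp, Function.update_self]
    constructor
    · rintro ⟨⟨h1, h2⟩, h3⟩
      refine ⟨h1, h2, fun q hq => ?_⟩
      rw [Function.update_of_ne (by rintro rfl; exact hpP hq)]
      exact h3 q hq
    · rintro ⟨h1, h2, h3⟩
      refine ⟨⟨h1, h2⟩, fun q hq => ?_⟩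
      have := h3 q hq
      rwa [Function.update_of_ne (by rintro rfl; exact hpP hq)] at this

end Pool.Agent.H381R2.HR
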