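import Mathlib
import Pool.Agent.H381R2.HR.Defs
import Pool.Prelude.Def_F_c8bfdf43

/-! Blueprint (stubs, never imported by finished files): improved Hensley–Richards theorem. -/

set_option autoImplicit false

open Finset

namespace Pool.Agent.H381R2.HR

/-- A1: strong PNT for psi (from `Pool.Agent.H705R2.swMu`, Siegel–Walfisz for the Möbius function). -/
theorem A1 : ∃ C : ℝ, 0 < C ∧ ∀ N : ℕ, 2 ≤ N →
    |Chebyshev.psi (N : ℝ) - N| ≤ C * (N / Real.log N) := by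
  sorry

/-- A2 -/
theorem A2 (h : ∃ C : ℝ, 0 < C ∧ ∀ N : ℕ, 2 ≤ N →
    |Chebyshev.psi (N : ℝ) - N| ≤ C * (N / Real.log N)) : PNT2 := by
  sorry

/-- B: averaging over the nonzero classes modulo the primes of `P`. -/
theorem B (P : Finset ℕ) (hP : ∀ p ∈ P, p.Prime) (X : Finset ℤ) : ∃ b : ℕ → ℤ,
    ∑ x ∈ X, cc P x.natAbs ≤ ((X.filter (fun x => ∀ p ∈ P, ¬ (p : ℤ) ∣ x - b p)).card : ℝ) := by
  sorry

/-- C1: total mass one. -/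
theorem C1 (P : Finset ℕ) (hP : ∀ p ∈ P, p.Prime) :
    HasSum (fun s : Nat.factoredNumbers P => cc P s / (s : ℕ)) 1 := by
  sorry

/-- C2: mass of the multiples of `p`. -/
theorem C2 (P : Finset ℕ) (hP : ∀ p ∈ P, p.Prime) (p : ℕ) (hp : p ∈ P) :
    HasSum (fun s : Nat.factoredNumbers P => if p ∣ (s : ℕ) then cc P s / (s : ℕ) else 0)
      (1 / ((p : ℝ) - 1)) := by
  sorry

/-- C3: Rankin tail. -/
theorem C3 (w t : ℕ) (ht : 3 ≤ t) (F : Finset ℕ) (hF : ∀ s ∈ F, Sm w s ∧ t < s) :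
    ∑ s ∈ F, (1 : ℝ) / s ≤ 3 * (2 * Real.log t) ^ w / t := by
  sorry

/-- C4: number of smooth numbers up to `t`. -/
theorem C4 (w t : ℕ) (ht : 3 ≤ t) : ((SS w t).card : ℝ) ≤ 3 * (2 * Real.log t) ^ w := by
  sorry

/-- C5 -/
theorem C5 (w t : ℕ) : ∑ s ∈ SS w t, (1 : ℝ) / s ≤ BB w := by
  sorry

/-- C6 (from C1, C3) -/
theorem C6 (w t : ℕ) (ht : 3 ≤ t) :
    1 - 3 * (2 * Real.log t) ^ w / t ≤ ∑ s ∈ SS w t, cc (PP w) s / s ∧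
    ∑ s ∈ SS w t, cc (PP w) s / s ≤ 1 := by
  sorry

/-- C7 (from C2, C3 and Mertens' first theorem) -/
theorem C7 : ∃ C : ℝ, 0 < C ∧ ∀ w t : ℕ, 2 ≤ w → 3 ≤ t →
    Real.log w - C - w * Real.log w * (3 * (2 * Real.log t) ^ w / t) ≤
      ∑ s ∈ SS w t, cc (PP w) s * Real.log s / s := by
  sorry

/-- D1: the count of `XX` with weights. -/
theorem D1 (N w z t : ℕ) (hwz : w ≤ z) :
    2 * ∑ s ∈ SS w t, cc (PP w) s * ((Nat.primeCounting (N / s) : ℝ) - Nat.primeCounting z) ≤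
      ∑ n ∈ XX N w z, cc (PP w) n.natAbs := by
  sorry

/-- D2: upper bound for the size of `XX`. -/
theorem D2 : ∃ C : ℝ, 0 < C ∧ ∀ N w z t : ℕ, 2 ≤ N → N ≤ z * t → t ^ 2 ≤ N →
    ((XX N w z).card : ℝ) ≤ C * (BB w * N / Real.log N) := by
  sorry

/-- E: elements of `XX` in an interval of length `q` and a class modulo `M`
(from the Brun–Titchmarsh theorem `Pool.Agent.Helper602.MK.N_J3.J3`). -/
theorem E : ∃ C : ℝ, 0 < C ∧ ∀ N w z t M q : ℕ, ∀ y β : ℤ, 4 ≤ N → N ≤ z * t → z ≤ q →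
    1 ≤ t → 1 ≤ M → (∀ p : ℕ, p.Prime → p ≤ w → ¬ p ∣ M) → (t ^ 2 * M) ^ 2 ≤ N →
    (((XX N w z).filter (fun n => y ≤ n ∧ n < y + q ∧ (M : ℤ) ∣ n - β)).card : ℝ) ≤
      C * (((M : ℝ) / (Nat.totient M : ℝ)) * BB w * q / (M * Real.log N)) := by
  sorry

/-- F: averaging over `a ≡ α (mod M)` in `[0, q)`. -/
theorem F (X : Finset ℤ) (N q H M A : ℕ) (α : ℤ) (U : Finset ℕ) (hq : 0 < q) (hM : 0 < M)
    (hMq : M ≤ q) (hN : N < H * q) (hX : ∀ n ∈ X, -(N : ℤ) ≤ n ∧ n ≤ N)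
    (hcov : ∀ a : ℤ, (M : ℤ) ∣ a - α → ∀ i ∈ Icc 1 (2 * H), i ∉ U →
      (a + ((i : ℤ) - 1 - H) * q) ∉ X)
    (hA : ∀ y β : ℤ, (X.filter (fun n => y ≤ n ∧ n < y + q ∧ (M : ℤ) ∣ n - β)).card ≤ A) :
    ∃ r : ℤ, (X.filter (fun n => (q : ℤ) ∣ n - r)).card * (q / M) ≤ U.card * A := by
  sorry

/-- G1: greedy choice of classes. -/
theorem G1 (P : Finset ℕ) (hP : ∀ p ∈ P, 1 ≤ p) (U0 : Finset ℕ) : ∃ c : ℕ → ℕ,
    ((U0.filter (fun i => ∀ p ∈ P, ¬ i ≡ c p [MOD p])).card : ℝ) ≤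
      U0.card * ∏ p ∈ P, (1 - (p : ℝ)⁻¹) := by
  sorry

open Classical in
/-- G2: integers without prime factors in `(u, v]`. -/
theorem G2 : ∃ C : ℝ, 0 < C ∧ ∀ J u v : ℕ, 2 ≤ v → u ≤ v →
    (((Icc 1 J).filter (fun i => ∀ p : ℕ, p.Prime → u < p → p ≤ v → ¬ p ∣ i)).card : ℝ) ≤
      ((SS u J).card : ℝ) + C * (J * (1 + Real.log (1 + J / v)) / Real.log v) := by
  sorry

/-- G3: Rankin's bound for smooth numbers. -/
theorem G3 : ∃ C : ℝ, 0 < C ∧ ∀ J u : ℕ, 8 ≤ u → 1 ≤ J →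
    ((SS u J).card : ℝ) ≤
      C * J * Real.exp (-(Real.log J / Real.log u)) * (Real.log u) ^ (10 : ℕ) := by
  sorry

/-- G (from G1, G2): the covering. -/
theorem G : ∃ C : ℝ, 0 < C ∧ ∀ J w u v : ℕ, 2 ≤ u → w ≤ u → u ≤ v → ∃ c : ℕ → ℕ,
    ((UU J w v c).card : ℝ) ≤
      (((SS u J).card : ℝ) + C * (J * (1 + Real.log (1 + J / v)) / Real.log v)) *
        (BB w / BB u) := by
  sorry

/-- G4: Chinese remainder theorem. -/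
theorem G4 (w v H q : ℕ) (c : ℕ → ℕ) : ∃ α : ℤ, ∀ a : ℤ, ((MM w v : ℕ) : ℤ) ∣ a - α →
    ∀ i : ℕ, ∀ p : ℕ, p.Prime → w < p → p ≤ v → i ≡ c p [MOD p] →
      (p : ℤ) ∣ a + ((i : ℤ) - 1 - H) * q := by
  sorry

/-- M1: Mertens bounds. -/
theorem M1 : ∃ C : ℝ, 1 ≤ C ∧ ∀ w : ℕ, 2 ≤ w → Real.log w ≤ BB w ∧ BB w ≤ C * Real.log w := by
  sorry

/-- M2: reciprocals of primes in `(z, Q]` (from Mertens' first theorem). -/
theorem M2 : ∃ C : ℝ, 0 < C ∧ ∀ z Q : ℕ, 2 ≤ z → z ≤ Q →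
    ∑ q ∈ (Icc 1 Q).filter (fun q => q.Prime ∧ z < q), (1 : ℝ) / q ≤
      (Real.log (Q / z) + C) / Real.log z := by
  sorry

/-- M3 -/
theorem M3 (w v : ℕ) (hwv : w ≤ v) : ((MM w v : ℕ) : ℝ) / (Nat.totient (MM w v) : ℝ) = BB v / BB w ∧
    MM w v ≤ 4 ^ v ∧ (∀ p : ℕ, p.Prime → p ≤ w → ¬ p ∣ MM w v) := by
  sorry

/-- I1: from `Core` and PNT2 to `Final`. -/
theorem I1 (hP : PNT2) (h : ∀ α : ℝ, α < 1 / 2 → Core α) : ∀ α : ℝ, α < 1 / 2 → Final α := by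
  sorry

/-- I2: positivity of the Hardy–Littlewood constant of an admissible tuple. -/
theorem I2 {k : ℕ} (m : Fin k.succ → ℕ)
    (hadm : ∀ q : ℕ, q.Prime → 3 ≤ q → ∃ r : ℕ, ∀ i, ¬ m i ≡ r [MOD q]) (C : ℝ)
    (h : Filter.Tendsto (N9a2a6718.HardyLittlewoodPartialProduct m) Filter.atTop (nhds C)) :
    0 < C := by
  sorry

/-- I3: the consequence of the Hardy–Littlewood conjecture. -/
theorem I3 (α : ℝ) (hF : Final α)
    (hI2 : ∀ {k : ℕ} (m : Fin k.succ → ℕ),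
      (∀ q : ℕ, q.Prime → 3 ≤ q → ∃ r : ℕ, ∀ i, ¬ m i ≡ r [MOD q]) → ∀ C : ℝ,
      Filter.Tendsto (N9a2a6718.HardyLittlewoodPartialProduct m) Filter.atTop (nhds C) → 0 < C)
    (HL : ∀ {k : ℕ} (m : Fin k.succ → ℕ), N9a2a6718.FirstHardyLittlewoodConjectureFor m) :
    ∃ y0 : ℕ, ∀ y : ℕ, y0 ≤ y → ∃ δ : ℝ, 0 < δ ∧ ∃ X0 : ℕ, ∀ X : ℕ, X0 ≤ X →
      δ * (X / (Real.log X) ^ y) ≤
        (((Icc 1 X).filter (fun x => (Nat.primeCounting x : ℝ) + Nat.primeCounting y +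
          α * (y * Real.log (Real.log (Real.log y)) / (Real.log y) ^ 2) ≤
            Nat.primeCounting (x + y))).card : ℝ) := by
  sorry

end Pool.Agent.H381R2.HR
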