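import Mathlib
import Pool.Agent.H381R2.HR.Defs

/-! Task C (smooth-number sums) of helper381's improved Hensley–Richards theorem, by helper594. -/

set_option autoImplicit false

open Finset

namespace Pool.Agent.H381R2.HR

/-! ### General Euler product for finite sets of primes -/

theorem C_congr {ι : Type*} {f g : ι → ℝ} {a : ℝ} (h : ∀ x, f x = g x) (hg : HasSum g a) :
    HasSum f a := by
  have : f = g := funext h
  rw [this]; exact hg

theorem C_gen (P : Finset ℕ) (hP : ∀ p ∈ P, p.Prime) (h : ℕ → ℕ → ℝ) (a : ℕ → ℝ)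
    (h0 : ∀ p ∈ P, ∀ e, 0 ≤ h p e) (hs : ∀ p ∈ P, HasSum (h p) (a p)) :
    HasSum (fun s : Nat.factoredNumbers P => ∏ p ∈ P, h p ((s : ℕ).factorization p))
      (∏ p ∈ P, a p) := by
  classical
  induction P using Finset.induction_on with
  | empty =>
    simp only [prod_empty]
    have hu : Unique (Nat.factoredNumbers (∅ : Finset ℕ)) := by
      rw [Nat.factoredNumbers_empty]
      exact Set.uniqueSingleton 1
    exact hasSum_unique (fun _ : Nat.factoredNumbers (∅ : Finset ℕ) => (1 : ℝ))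
  | insert p P hpP ih =>
    have hp : p.Prime := hP p (mem_insert_self p P)
    have ih' := ih (fun q hq => hP q (mem_insert_of_mem hq))
      (fun q hq => h0 q (mem_insert_of_mem hq)) (fun q hq => hs q (mem_insert_of_mem hq))
    rw [← (Nat.equivProdNatFactoredNumbers hp hpP).hasSum_iff, prod_insert hpP]
    have hsp := hs p (mem_insert_self p P)
    have hsum : Summable (fun x : ℕ × Nat.factoredNumbers P =>
        h p x.1 * ∏ q ∈ P, h q ((x.2 : ℕ).factorization q)) := by
      refine hsp.summable.mul_of_nonneg ih'.summable ?_ ?_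
      · intro e; exact h0 p (mem_insert_self p P) e
      · intro s; exact prod_nonneg (fun q hq => h0 q (mem_insert_of_mem hq) _)
    have key := hsp.mul ih' hsum
    refine C_congr ?_ key
    rintro ⟨e, m⟩
    have hm0 : (m : ℕ) ≠ 0 := m.2.1
    have hpe : p ^ e ≠ 0 := pow_ne_zero e hp.ne_zero
    have hco := hp.factoredNumbers_coprime hpP m.2
    have hpm : ¬ p ∣ (m : ℕ) := by
      intro hd; exact (hp.coprime_iff_not_dvd.mp hco) hd
    simp only [Function.comp_apply, Nat.equivProdNatFactoredNumbers_apply']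
    rw [prod_insert hpP, Nat.factorization_mul hpe hm0, Finsupp.add_apply,
      Nat.factorization_pow_self hp, Nat.factorization_eq_zero_of_not_dvd hpm, add_zero]
    congr 1
    refine prod_congr rfl fun q hq => ?_
    have hqp : q ≠ p := fun h' => hpP (h' ▸ hq)
    rw [Finsupp.add_apply, Nat.factorization_pow, hp.factorization]
    simp [hqp.symm]

theorem C_prod_pow (P : Finset ℕ) (s : ℕ) (hs : s ∈ Nat.factoredNumbers P) :
    ∏ p ∈ P, p ^ (s.factorization p) = s := by
  have h1 := Nat.prod_factorization_pow_eq_self hs.1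
  have h2 : s.factorization.support ⊆ P := by
    rw [Nat.support_factorization]
    exact Nat.primeFactors_subset_of_mem_factoredNumbers hs
  rw [Finsupp.prod_of_support_subset _ h2 _ (by simp)] at h1
  exact h1

theorem C_fact_dvd (p s : ℕ) (hp : p.Prime) (hs : s ≠ 0) : p ∣ s ↔ s.factorization p ≠ 0 := by
  rw [ne_eq, Nat.factorization_eq_zero_iff]
  push Not
  exact ⟨fun h => ⟨hp, h, hs⟩, fun h => h.2.1⟩

theorem C_cc_nonneg (P : Finset ℕ) (hP : ∀ p ∈ P, p.Prime) (s : ℕ) : 0 ≤ cc P s := by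
  refine prod_nonneg fun p hp => ?_
  have h2 : (2 : ℝ) ≤ p := by exact_mod_cast (hP p hp).two_le
  split_ifs
  · norm_num
  · exact div_nonneg (by linarith) (by linarith)

theorem C_cc_le_one (P : Finset ℕ) (hP : ∀ p ∈ P, p.Prime) (s : ℕ) : cc P s ≤ 1 := by
  refine prod_le_one (fun p hp => ?_) fun p hp => ?_
  · have h2 : (2 : ℝ) ≤ p := by exact_mod_cast (hP p hp).two_le
    split_ifs
    · norm_num
    · exact div_nonneg (by linarith) (by linarith)
  · have h2 : (2 : ℝ) ≤ p := by exact_mod_cast (hP p hp).two_le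
    split_ifs
    · exact le_refl _
    · rw [div_le_one (by linarith)]; linarith

/-- the local sum over positive exponents -/
theorem C_local (p : ℕ) (hp : p.Prime) (b : ℝ) :
    HasSum (fun e : ℕ => (if e ≠ 0 then (1 : ℝ) else b) / (p : ℝ) ^ e) (b + 1 / ((p : ℝ) - 1)) := by
  have h2 : (2 : ℝ) ≤ p := by exact_mod_cast hp.two_le
  have hg := hasSum_geometric_of_lt_one (r := ((p : ℝ)⁻¹)) (by positivity)
    (inv_lt_one_of_one_lt₀ (by linarith))
  have hg2 := hg.mul_left ((p : ℝ)⁻¹)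
  have h3 : HasSum (fun e : ℕ => (if (e + 1) ≠ 0 then (1 : ℝ) else b) / (p : ℝ) ^ (e + 1))
      (1 / ((p : ℝ) - 1)) := by
    have hval : 1 / ((p : ℝ) - 1) = (p : ℝ)⁻¹ * (1 - (p : ℝ)⁻¹)⁻¹ := by
      have : (p : ℝ) ≠ 0 := by linarith
      have h3 : (p : ℝ) - 1 ≠ 0 := by linarith
      field_simp
    rw [hval]
    refine C_congr ?_ hg2
    intro e
    rw [if_pos (Nat.succ_ne_zero e), pow_succ, one_div, mul_inv, inv_pow, mul_comm]
  have h4 := (hasSum_nat_add_iff (f := fun e : ℕ => (if e ≠ 0 then (1 : ℝ) else b) / (p : ℝ) ^ e) 1).mp h3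
  simpa [add_comm] using h4

/-- C1: total mass one. -/
theorem C1 (P : Finset ℕ) (hP : ∀ p ∈ P, p.Prime) :
    HasSum (fun s : Nat.factoredNumbers P => cc P s / (s : ℕ)) 1 := by
  have key := C_gen P hP
    (fun p e => (if e ≠ 0 then (1 : ℝ) else ((p : ℝ) - 2) / ((p : ℝ) - 1)) / (p : ℝ) ^ e)
    (fun p => ((p : ℝ) - 2) / ((p : ℝ) - 1) + 1 / ((p : ℝ) - 1)) ?_ ?_
  · have h1 : ∏ p ∈ P, (((p : ℝ) - 2) / ((p : ℝ) - 1) + 1 / ((p : ℝ) - 1)) = 1 := by
      refine prod_eq_one fun p hp => ?_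
      have h2 : (2 : ℝ) ≤ p := by exact_mod_cast (hP p hp).two_le
      have h3 : (p : ℝ) - 1 ≠ 0 := by linarith
      field_simp
      ring
    rw [h1] at key
    refine C_congr ?_ key
    rintro ⟨s, hs⟩
    dsimp only
    rw [prod_div_distrib, cc]
    congr 1
    · refine prod_congr rfl fun p hp => ?_
      rw [if_congr (C_fact_dvd p s (hP p hp) hs.1) rfl rfl]
    · conv_lhs => rw [← C_prod_pow P s hs]
      push_cast
      rfl
  · intro p hp e
    have h2 : (2 : ℝ) ≤ p := by exact_mod_cast (hP p hp).two_le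
    refine div_nonneg ?_ (by positivity)
    split_ifs
    · norm_num
    · exact div_nonneg (by linarith) (by linarith)
  · intro p hp
    exact C_local p (hP p hp) _

/-- C2: mass of the multiples of `p`. -/
theorem C2 (P : Finset ℕ) (hP : ∀ p ∈ P, p.Prime) (p : ℕ) (hp : p ∈ P) :
    HasSum (fun s : Nat.factoredNumbers P => if p ∣ (s : ℕ) then cc P s / (s : ℕ) else 0)
      (1 / ((p : ℝ) - 1)) := by
  have key := C_gen P hP
    (fun q e => (if e ≠ 0 then (1 : ℝ) else (if q = p then 0 else ((q : ℝ) - 2) / ((q : ℝ) - 1)))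
      / (q : ℝ) ^ e)
    (fun q => (if q = p then 0 else ((q : ℝ) - 2) / ((q : ℝ) - 1)) + 1 / ((q : ℝ) - 1)) ?_ ?_
  · have h1 : ∏ q ∈ P, ((if q = p then 0 else ((q : ℝ) - 2) / ((q : ℝ) - 1)) + 1 / ((q : ℝ) - 1)) =
        1 / ((p : ℝ) - 1) := by
      rw [← mul_prod_erase P _ hp, if_pos rfl, zero_add, prod_eq_one, mul_one]
      intro q hq
      rw [mem_erase] at hq
      rw [if_neg hq.1]
      have h2 : (2 : ℝ) ≤ q := by exact_mod_cast (hP q hq.2).two_le
      have h3 : (q : ℝ) - 1 ≠ 0 := by linarith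
      field_simp
      ring
    rw [h1] at key
    refine C_congr ?_ key
    rintro ⟨s, hs⟩
    dsimp only
    rw [prod_div_distrib]
    have hden : ((∏ q ∈ P, (q : ℝ) ^ (s.factorization q))) = (s : ℝ) := by
      conv_rhs => rw [← C_prod_pow P s hs]
      push_cast
      rfl
    rw [hden]
    by_cases hd : p ∣ s
    · rw [if_pos hd, cc]
      congr 1
      refine prod_congr rfl fun q hq => ?_
      by_cases hqp : q = p
      · subst hqp
        rw [if_pos hd, if_pos ((C_fact_dvd q s (hP q hq) hs.1).mp hd)]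
      · rw [if_neg hqp, if_congr (C_fact_dvd q s (hP q hq) hs.1) rfl rfl]
    · rw [if_neg hd, prod_eq_zero hp, zero_div]
      rw [if_neg (by rw [← C_fact_dvd p s (hP p hp) hs.1]; exact hd), if_pos rfl]
  · intro q hq e
    have h2 : (2 : ℝ) ≤ q := by exact_mod_cast (hP q hq).two_le
    refine div_nonneg ?_ (by positivity)
    split_ifs
    · norm_num
    · norm_num
    · exact div_nonneg (by linarith) (by linarith)
  · intro q hq
    exact C_local q (hP q hq) _

/-! ### Rankin's bounds -/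

theorem C_PP_prime (w : ℕ) : ∀ p ∈ PP w, p.Prime := by
  intro p hp
  rw [PP, mem_filter] at hp
  exact hp.2

theorem C_Sm_iff (w s : ℕ) : Sm w s ↔ s ∈ Nat.factoredNumbers (PP w) := by
  rw [Nat.mem_factoredNumbers']
  constructor
  · intro h p hp hps
    rw [PP, mem_filter, mem_Icc]
    exact ⟨⟨hp.one_le, h.2 p hp hps⟩, hp⟩
  · intro h
    refine ⟨?_, fun p hp hps => ?_⟩
    · rintro rfl
      obtain ⟨q, hq1, hq2⟩ := Nat.exists_infinite_primes (w + 1)
      have := h q hq2 (dvd_zero q)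
      rw [PP, mem_filter, mem_Icc] at this
      omega
    · have := h p hp hps
      rw [PP, mem_filter, mem_Icc] at this
      exact this.1.2

theorem C_mem_SS (w t s : ℕ) : s ∈ SS w t ↔ Sm w s ∧ s ≤ t := by
  simp only [SS, mem_filter, mem_Icc]
  constructor
  · rintro ⟨⟨_, h2⟩, h3⟩; exact ⟨h3, h2⟩
  · rintro ⟨h3, h2⟩; exact ⟨⟨Nat.pos_of_ne_zero h3.1, h2⟩, h3⟩

theorem C_PP_card (w : ℕ) : (PP w).card ≤ w := by
  refine (card_filter_le _ _).trans ?_
  simp

/-- finite sums over smooth numbers are bounded by the whole sum -/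
theorem C_finite_le (w : ℕ) (g : ℕ → ℝ) (hg : ∀ s, 0 ≤ g s) (a : ℝ)
    (h : HasSum (fun s : Nat.factoredNumbers (PP w) => g s) a) (F : Finset ℕ)
    (hF : ∀ s ∈ F, Sm w s) : ∑ s ∈ F, g s ≤ a := by
  classical
  have h1 : ∑ s ∈ F, g s = ∑ s ∈ F.subtype (· ∈ Nat.factoredNumbers (PP w)), g s := by
    rw [Finset.sum_subtype_of_mem]
    intro s hs
    exact (C_Sm_iff w s).mp (hF s hs)
  rw [h1]
  exact sum_le_hasSum _ (fun s _ => hg s) h

/-- completely multiplicative `n ↦ n ^ (-δ)` -/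
noncomputable def C_pow (δ : ℝ) (_hδ : 0 < δ) : ℕ →* ℝ where
  toFun n := (n : ℝ) ^ (-δ)
  map_one' := by simp
  map_mul' m n := by
    push_cast
    exact Real.mul_rpow (Nat.cast_nonneg m) (Nat.cast_nonneg n)

theorem C_two_pow (δ : ℝ) (hδ : 0 < δ) (hδ1 : δ ≤ 1) : (2 : ℝ) ^ (-δ) ≤ 1 - δ / 2 := by
  -- convexity of `x ↦ 2^x` between `-1` and `0`
  have hc := convexOn_rpow_left (b := (2 : ℝ)) (by norm_num)
  have h := hc.2 (Set.mem_univ (-1 : ℝ)) (Set.mem_univ (0 : ℝ)) hδ.le (sub_nonneg.mpr hδ1)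
    (by ring)
  simp only [smul_eq_mul, mul_neg, mul_one, mul_zero, add_zero, Real.rpow_zero] at h
  have h2 : (2 : ℝ) ^ (-1 : ℝ) = 1 / 2 := by rw [Real.rpow_neg_one]; norm_num
  rw [h2] at h
  linarith

theorem C_rankin (w : ℕ) (δ : ℝ) (hδ : 0 < δ) (hδ1 : δ ≤ 1) (F : Finset ℕ)
    (hF : ∀ s ∈ F, Sm w s) : ∑ s ∈ F, ((s : ℝ) ^ (-δ)) ≤ (2 / δ) ^ w := by
  have hlt : ∀ {p : ℕ}, p.Prime → ‖C_pow δ hδ p‖ < 1 := by
    intro p hp
    have h2 : (1 : ℝ) < p := by exact_mod_cast hp.one_lt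
    change ‖(p : ℝ) ^ (-δ)‖ < 1
    rw [Real.norm_of_nonneg (by positivity)]
    exact Real.rpow_lt_one_of_one_lt_of_neg h2 (by linarith)
  have key := (EulerProduct.summable_and_hasSum_factoredNumbers_prod_filter_prime_geometric hlt
    (PP w)).2
  have h1 := C_finite_le w (fun s => (s : ℝ) ^ (-δ)) (fun s => by positivity) _ key F hF
  refine h1.trans ?_
  have h2 : ∏ p ∈ PP w with p.Prime, (1 - C_pow δ hδ p)⁻¹ ≤
      ∏ p ∈ PP w with p.Prime, (2 / δ) := by
    refine prod_le_prod (fun p hp => ?_) fun p hp => ?_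
    · rw [mem_filter] at hp
      have := hlt hp.2
      rw [Real.norm_eq_abs] at this
      have := (abs_lt.mp this).2
      exact inv_nonneg.mpr (by linarith)
    · rw [mem_filter] at hp
      have h3 : C_pow δ hδ p ≤ 1 - δ / 2 := by
        refine le_trans ?_ (C_two_pow δ hδ hδ1)
        change (p : ℝ) ^ (-δ) ≤ _
        exact Real.rpow_le_rpow_of_nonpos (by norm_num) (by exact_mod_cast hp.2.two_le)
          (by linarith)
      rw [inv_le_comm₀ (by linarith) (by positivity)]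
      rw [inv_div]
      linarith
  refine h2.trans ?_
  rw [prod_const]
  have h1 : (1 : ℝ) ≤ 2 / δ := by rw [le_div_iff₀ hδ]; linarith
  exact pow_le_pow_right₀ h1 ((card_filter_le _ _).trans (C_PP_card w))

theorem C_log_t {t : ℕ} (ht : 3 ≤ t) : 1 < Real.log t := by
  rw [Real.lt_log_iff_exp_lt (by positivity)]
  have h3 : (3 : ℝ) ≤ t := by exact_mod_cast ht
  linarith [Real.exp_one_lt_d9]

/-- C3: Rankin tail. -/
theorem C3 (w t : ℕ) (ht : 3 ≤ t) (F : Finset ℕ) (hF : ∀ s ∈ F, Sm w s ∧ t < s) :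
    ∑ s ∈ F, (1 : ℝ) / s ≤ 3 * (2 * Real.log t) ^ w / t := by
  have hL := C_log_t ht
  have ht0 : (0 : ℝ) < t := by positivity
  set δ : ℝ := 1 / Real.log t with hδ
  have hδ0 : 0 < δ := by positivity
  have hδ1 : δ ≤ 1 := by rw [hδ, div_le_one (by linarith)]; linarith
  have hk := C_rankin w δ hδ0 hδ1 F (fun s hs => (hF s hs).1)
  have h2 : (2 : ℝ) / δ = 2 * Real.log t := by rw [hδ]; field_simp
  rw [h2] at hk
  have htδ : (t : ℝ) ^ δ ≤ 3 := by
    rw [Real.rpow_def_of_pos ht0, hδ]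
    rw [mul_one_div_cancel (by linarith)]
    linarith [Real.exp_one_lt_d9]
  calc ∑ s ∈ F, (1 : ℝ) / s ≤ ∑ s ∈ F, ((t : ℝ) ^ δ / t) * (s : ℝ) ^ (-δ) := by
        refine sum_le_sum fun s hs => ?_
        have hts : (t : ℝ) < s := by exact_mod_cast (hF s hs).2
        have hs0 : (0 : ℝ) < s := ht0.trans hts
        -- s^(δ-1) ≤ t^(δ-1)
        have h3 : (s : ℝ) ^ (δ - 1) ≤ (t : ℝ) ^ (δ - 1) :=
          Real.rpow_le_rpow_of_nonpos ht0 hts.le (by linarith)
        rw [Real.rpow_sub hs0, Real.rpow_sub ht0, Real.rpow_one, Real.rpow_one] at h3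
        have h4 : (1 : ℝ) / s = ((s : ℝ) ^ δ / s) * (s : ℝ) ^ (-δ) := by
          rw [Real.rpow_neg hs0.le]
          have : (s : ℝ) ^ δ ≠ 0 := by positivity
          field_simp
        rw [h4]
        exact mul_le_mul_of_nonneg_right h3 (by positivity)
    _ = ((t : ℝ) ^ δ / t) * ∑ s ∈ F, (s : ℝ) ^ (-δ) := by rw [mul_sum]
    _ ≤ (3 / t) * (2 * Real.log t) ^ w := by
        refine mul_le_mul ?_ hk (sum_nonneg fun s _ => by positivity) (by positivity)
        exact div_le_div_of_nonneg_right htδ ht0.le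
    _ = 3 * (2 * Real.log t) ^ w / t := by ring

/-- C4: number of smooth numbers up to `t`. -/
theorem C4 (w t : ℕ) (ht : 3 ≤ t) : ((SS w t).card : ℝ) ≤ 3 * (2 * Real.log t) ^ w := by
  have hL := C_log_t ht
  have ht0 : (0 : ℝ) < t := by positivity
  set δ : ℝ := 1 / Real.log t with hδ
  have hδ0 : 0 < δ := by positivity
  have hδ1 : δ ≤ 1 := by rw [hδ, div_le_one (by linarith)]; linarith
  have hk := C_rankin w δ hδ0 hδ1 (SS w t) (fun s hs => ((C_mem_SS w t s).mp hs).1)
  have h2 : (2 : ℝ) / δ = 2 * Real.log t := by rw [hδ]; field_simp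
  rw [h2] at hk
  have htδ : (t : ℝ) ^ δ ≤ 3 := by
    rw [Real.rpow_def_of_pos ht0, hδ]
    rw [mul_one_div_cancel (by linarith)]
    linarith [Real.exp_one_lt_d9]
  calc ((SS w t).card : ℝ) = ∑ s ∈ SS w t, (1 : ℝ) := by simp
    _ ≤ ∑ s ∈ SS w t, (t : ℝ) ^ δ * (s : ℝ) ^ (-δ) := by
        refine sum_le_sum fun s hs => ?_
        have hs' := (C_mem_SS w t s).mp hs
        have hs0 : (0 : ℝ) < s := by
          have : s ≠ 0 := hs'.1.1
          positivity
        have hst : (s : ℝ) ≤ t := by exact_mod_cast hs'.2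
        rw [Real.rpow_neg hs0.le, ← div_eq_mul_inv, le_div_iff₀ (by positivity), one_mul]
        exact Real.rpow_le_rpow hs0.le hst hδ0.le
    _ = (t : ℝ) ^ δ * ∑ s ∈ SS w t, (s : ℝ) ^ (-δ) := by rw [mul_sum]
    _ ≤ 3 * (2 * Real.log t) ^ w := by
        exact mul_le_mul htδ hk (sum_nonneg fun s _ => by positivity) (by norm_num)

/-- C5 -/
theorem C5 (w t : ℕ) : ∑ s ∈ SS w t, (1 : ℝ) / s ≤ BB w := by
  have hlt : ∀ {p : ℕ}, p.Prime → ‖C_pow 1 one_pos p‖ < 1 := by
    intro p hp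
    have h2 : (1 : ℝ) < p := by exact_mod_cast hp.one_lt
    change ‖(p : ℝ) ^ (-1 : ℝ)‖ < 1
    rw [Real.norm_of_nonneg (by positivity)]
    exact Real.rpow_lt_one_of_one_lt_of_neg h2 (by linarith)
  have key := (EulerProduct.summable_and_hasSum_factoredNumbers_prod_filter_prime_geometric hlt
    (PP w)).2
  have h1 := C_finite_le w (fun s => (s : ℝ) ^ (-1 : ℝ)) (fun s => by positivity) _ key (SS w t)
    (fun s hs => ((C_mem_SS w t s).mp hs).1)
  have h2 : ∏ p ∈ PP w with p.Prime, (1 - C_pow 1 one_pos p)⁻¹ = BB w := by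
    rw [BB, filter_true_of_mem (C_PP_prime w)]
    refine prod_congr rfl fun p _ => ?_
    change (1 - (p : ℝ) ^ (-1 : ℝ))⁻¹ = _
    rw [Real.rpow_neg_one]
  rw [h2] at h1
  refine le_trans (le_of_eq ?_) h1
  refine sum_congr rfl fun s _ => ?_
  rw [Real.rpow_neg_one, one_div]

/-- a tail bound: a nonnegative series on the smooth numbers, bounded by `1/s`, is at most its sum over
`SS w t` plus Rankin's tail -/
theorem C_tail (w t : ℕ) (ht : 3 ≤ t) (g : ℕ → ℝ) (hg0 : ∀ s, 0 ≤ g s)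
    (hg : ∀ s, g s ≤ 1 / s) (a : ℝ)
    (h : HasSum (fun s : Nat.factoredNumbers (PP w) => g s) a) :
    a ≤ ∑ s ∈ SS w t, g s + 3 * (2 * Real.log t) ^ w / t := by
  classical
  refine le_of_tendsto' h fun F => ?_
  have h1 : ∑ s ∈ F, g (s : ℕ) = ∑ s ∈ F.map (Function.Embedding.subtype _), g s := by
    rw [sum_map]; rfl
  have hsm : ∀ s ∈ F.map (Function.Embedding.subtype (· ∈ Nat.factoredNumbers (PP w))), Sm w s := by
    intro s hs
    rw [mem_map] at hs
    obtain ⟨x, _, rfl⟩ := hs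
    exact (C_Sm_iff w _).mpr x.2
  rw [h1, ← sum_filter_add_sum_filter_not _ (fun s => s ≤ t)]
  refine add_le_add ?_ ?_
  · refine sum_le_sum_of_subset_of_nonneg ?_ (fun s _ _ => hg0 s)
    intro s hs
    rw [mem_filter] at hs
    exact (C_mem_SS w t s).mpr ⟨hsm s hs.1, hs.2⟩
  · refine (sum_le_sum fun s _ => hg s).trans ?_
    refine C3 w t ht _ fun s hs => ?_
    rw [mem_filter] at hs
    exact ⟨hsm s hs.1, not_le.mp hs.2⟩

/-- C6 (from C1, C3) -/
theorem C6 (w t : ℕ) (ht : 3 ≤ t) :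
    1 - 3 * (2 * Real.log t) ^ w / t ≤ ∑ s ∈ SS w t, cc (PP w) s / s ∧
    ∑ s ∈ SS w t, cc (PP w) s / s ≤ 1 := by
  have hn : ∀ s : ℕ, 0 ≤ cc (PP w) s / s := fun s =>
    div_nonneg (C_cc_nonneg _ (C_PP_prime w) s) (Nat.cast_nonneg s)
  have h1 : ∀ s : ℕ, cc (PP w) s / s ≤ 1 / s := fun s =>
    div_le_div_of_nonneg_right (C_cc_le_one _ (C_PP_prime w) s) (Nat.cast_nonneg s)
  constructor
  · have := C_tail w t ht (fun s => cc (PP w) s / s) hn h1 1 (C1 (PP w) (C_PP_prime w))
    linarith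
  · exact C_finite_le w (fun s => cc (PP w) s / s) hn 1 (C1 (PP w) (C_PP_prime w)) (SS w t)
      (fun s hs => ((C_mem_SS w t s).mp hs).1)

/-- `log w! ≤ w * ∑_{p ≤ w} log p / (p - 1)` -/
theorem C_mertens (w : ℕ) (hw : 1 ≤ w) :
    Real.log w - 1 ≤ ∑ p ∈ PP w, Real.log p / ((p : ℝ) - 1) := by
  have hw0 : (0 : ℝ) < w := by positivity
  -- Stirling lower bound
  have h1 : (w : ℝ) * Real.log w - w ≤ Real.log (w.factorial) := by
    have h := Stirling.le_log_factorial_stirling (n := w) (by omega)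
    have h2 : 0 ≤ Real.log w := Real.log_nonneg (by exact_mod_cast hw)
    have h3 : 0 ≤ Real.log (2 * Real.pi) := Real.log_nonneg (by linarith [Real.pi_gt_three])
    linarith
  have h2 : Real.log (w.factorial) ≤ ∑ p ∈ PP w, (w : ℝ) / ((p : ℝ) - 1) * Real.log p := by
    have hf : (w.factorial : ℕ) ∈ Nat.factoredNumbers (PP w) := by
      rw [← C_Sm_iff]
      refine ⟨Nat.factorial_ne_zero w, fun p hp hd => (hp.dvd_factorial).mp hd⟩
    conv_lhs => rw [← C_prod_pow (PP w) _ hf]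
    push_cast
    rw [Real.log_prod]
    · refine sum_le_sum fun p hp => ?_
      have hp' := C_PP_prime w p hp
      have h2 : (2 : ℝ) ≤ p := by exact_mod_cast hp'.two_le
      rw [Real.log_pow]
      refine mul_le_mul_of_nonneg_right ?_ (Real.log_nonneg (by linarith))
      have h3 := Nat.factorization_factorial_le_div_pred hp' w
      have h4 : ((w / (p - 1) : ℕ) : ℝ) ≤ (w : ℝ) / ((p - 1 : ℕ) : ℝ) := Nat.cast_div_le
      have h5 : ((p - 1 : ℕ) : ℝ) = (p : ℝ) - 1 := by
        rw [Nat.cast_sub hp'.one_le]; simp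
      rw [h5] at h4
      exact le_trans (by exact_mod_cast h3) h4
    · intro p hp
      have hp' := C_PP_prime w p hp
      have := hp'.pos
      positivity
  have h3 : ∑ p ∈ PP w, (w : ℝ) / ((p : ℝ) - 1) * Real.log p =
      w * ∑ p ∈ PP w, Real.log p / ((p : ℝ) - 1) := by
    rw [mul_sum]
    refine sum_congr rfl fun p _ => ?_
    ring
  rw [h3] at h2
  have h4 := h1.trans h2
  have h5 : (w : ℝ) * (Real.log w - 1) ≤ w * ∑ p ∈ PP w, Real.log p / ((p : ℝ) - 1) := by
    linarith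
  exact le_of_mul_le_mul_left h5 hw0

/-- C7 (from C2, C3 and Mertens' first theorem) -/
theorem C7 : ∃ C : ℝ, 0 < C ∧ ∀ w t : ℕ, 2 ≤ w → 3 ≤ t →
    Real.log w - C - w * Real.log w * (3 * (2 * Real.log t) ^ w / t) ≤
      ∑ s ∈ SS w t, cc (PP w) s * Real.log s / s := by
  classical
  refine ⟨1, one_pos, fun w t hw ht => ?_⟩
  have hL := C_log_t ht
  have ht0 : (0 : ℝ) < t := by positivity
  set R : ℝ := 3 * (2 * Real.log t) ^ w / t with hR
  have hR0 : 0 ≤ R := by positivity
  have hcc := C_cc_nonneg _ (C_PP_prime w)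
  -- the mass of the multiples of `p` in `SS w t`
  have hmass : ∀ p ∈ PP w, 1 / ((p : ℝ) - 1) - R ≤
      ∑ s ∈ SS w t, (if p ∣ s then cc (PP w) s / s else 0) := by
    intro p hp
    have := C_tail w t ht (fun s => if p ∣ s then cc (PP w) s / s else 0) ?_ ?_ _
      (C2 (PP w) (C_PP_prime w) p hp)
    · linarith
    · intro s
      split_ifs
      · exact div_nonneg (hcc s) (Nat.cast_nonneg s)
      · exact le_refl _
    · intro s
      split_ifs
      · exact div_le_div_of_nonneg_right (C_cc_le_one _ (C_PP_prime w) s) (Nat.cast_nonneg s)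
      · positivity
  -- `log s ≥ ∑_{p ∣ s} log p`
  have hlog : ∀ s ∈ SS w t, ∑ p ∈ PP w, (if p ∣ s then Real.log p else 0) ≤ Real.log s := by
    intro s hs
    have hs' := ((C_mem_SS w t s).mp hs).1
    have hf := (C_Sm_iff w s).mp hs'
    have h1 : Real.log s = ∑ p ∈ PP w, (s.factorization p : ℝ) * Real.log p := by
      conv_lhs => rw [← C_prod_pow (PP w) s hf]
      push_cast
      rw [Real.log_prod]
      · exact sum_congr rfl fun p _ => by rw [Real.log_pow]
      · intro p hp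
        have := (C_PP_prime w p hp).pos
        positivity
    rw [h1]
    refine sum_le_sum fun p hp => ?_
    have hp' := C_PP_prime w p hp
    have h2 : (2 : ℝ) ≤ p := by exact_mod_cast hp'.two_le
    have h3 : 0 ≤ Real.log p := Real.log_nonneg (by linarith)
    split_ifs with hd
    · have h4 : 1 ≤ s.factorization p :=
        Nat.one_le_iff_ne_zero.mpr ((C_fact_dvd p s hp' hs'.1).mp hd)
      have h5 : (1 : ℝ) ≤ s.factorization p := by exact_mod_cast h4
      nlinarith
    · positivity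
  have hstep1 : ∑ s ∈ SS w t, cc (PP w) s * (∑ p ∈ PP w, (if p ∣ s then Real.log p else 0)) / s ≤
      ∑ s ∈ SS w t, cc (PP w) s * Real.log s / s := by
    refine sum_le_sum fun s hs => ?_
    exact div_le_div_of_nonneg_right (mul_le_mul_of_nonneg_left (hlog s hs) (hcc s))
      (Nat.cast_nonneg s)
  refine le_trans ?_ hstep1
  have hstep2 : ∑ s ∈ SS w t, cc (PP w) s * (∑ p ∈ PP w, (if p ∣ s then Real.log p else 0)) / s =
      ∑ p ∈ PP w, Real.log p * ∑ s ∈ SS w t, (if p ∣ s then cc (PP w) s / s else 0) := by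
    simp only [mul_sum, sum_div]
    rw [sum_comm]
    refine sum_congr rfl fun p _ => sum_congr rfl fun s _ => ?_
    split_ifs
    · ring
    · ring
  rw [hstep2]
  have hstep3 : ∑ p ∈ PP w, Real.log p * (1 / ((p : ℝ) - 1) - R) ≤
      ∑ p ∈ PP w, Real.log p * ∑ s ∈ SS w t, (if p ∣ s then cc (PP w) s / s else 0) := by
    refine sum_le_sum fun p hp => mul_le_mul_of_nonneg_left (hmass p hp) ?_
    exact Real.log_nonneg (by exact_mod_cast (C_PP_prime w p hp).one_le)
  refine le_trans ?_ hstep3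
  have hstep4 : ∑ p ∈ PP w, Real.log p * (1 / ((p : ℝ) - 1) - R) =
      ∑ p ∈ PP w, Real.log p / ((p : ℝ) - 1) - (∑ p ∈ PP w, Real.log p) * R := by
    rw [sum_mul, ← sum_sub_distrib]
    refine sum_congr rfl fun p _ => ?_
    ring
  rw [hstep4]
  have h5 : ∑ p ∈ PP w, Real.log p ≤ w * Real.log w := by
    have hlw : 0 ≤ Real.log w := Real.log_nonneg (by exact_mod_cast (by omega : 1 ≤ w))
    calc ∑ p ∈ PP w, Real.log p ≤ ∑ p ∈ PP w, Real.log w := by
          refine sum_le_sum fun p hp => ?_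
          have hp' := C_PP_prime w p hp
          have hpw : p ≤ w := by
            rw [PP, mem_filter, mem_Icc] at hp
            exact hp.1.2
          exact Real.log_le_log (by exact_mod_cast hp'.pos) (by exact_mod_cast hpw)
      _ = (PP w).card * Real.log w := by rw [sum_const, nsmul_eq_mul]
      _ ≤ w * Real.log w := by
          exact mul_le_mul_of_nonneg_right (by exact_mod_cast C_PP_card w) hlw
  have h6 := C_mertens w (by omega)
  have h7 := mul_le_mul_of_nonneg_right h5 hR0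
  linarith

end Pool.Agent.H381R2.HR
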