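import Mathlib
import Pool.Agent.H381R2.HR.Defs

/-! Task D of the improved Hensley–Richards theorem (helper381; written by helper459). -/

set_option autoImplicit false

open Finset

namespace Pool.Agent.H381R2.HR

theorem D_cc_nonneg (P : Finset ℕ) (hP : ∀ p ∈ P, p.Prime) (s : ℕ) : 0 ≤ cc P s := by
  unfold cc
  refine prod_nonneg fun p hp => ?_
  split_ifs
  · exact zero_le_one
  · have h2 : (2 : ℝ) ≤ p := by exact_mod_cast (hP p hp).two_le
    exact div_nonneg (by linarith) (by linarith)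

theorem D_PP_prime (w : ℕ) : ∀ p ∈ PP w, p.Prime := fun _ hp => (mem_filter.1 hp).2

theorem D_PP_le (w : ℕ) : ∀ p ∈ PP w, p ≤ w := fun _ hp => (mem_Icc.1 (mem_filter.1 hp).1).2

theorem D_cc_mul (w s l : ℕ) (hl : l.Prime) (hwl : w < l) :
    cc (PP w) (s * l) = cc (PP w) s := by
  unfold cc
  refine prod_congr rfl fun p hp => ?_
  have hpp := D_PP_prime w p hp
  have hpw := D_PP_le w p hp
  have hnd : ¬ p ∣ l := by
    intro h
    have := (Nat.prime_dvd_prime_iff_eq hpp hl).1 h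
    omega
  have : p ∣ s * l ↔ p ∣ s := by
    rw [hpp.dvd_mul]
    constructor
    · rintro (h | h)
      · exact h
      · exact absurd h hnd
    · exact Or.inl
  simp only [this]

theorem D_unique (w s s' l l' : ℕ) (hs : Sm w s) (hs' : Sm w s') (hl : l.Prime) (hl' : l'.Prime)
    (hwl : w < l) (h : s * l = s' * l') : l = l' ∧ s = s' := by
  have h1 : l ∣ s' * l' := ⟨s, by rw [← h]; ring⟩
  have h2 : l = l' := by
    rcases hl.dvd_mul.1 h1 with h3 | h3
    · have := hs'.2 l hl h3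
      omega
    · exact (Nat.prime_dvd_prime_iff_eq hl hl').1 h3
  refine ⟨h2, ?_⟩
  rw [← h2] at h
  exact Nat.eq_of_mul_eq_mul_right hl.pos h

/-- primes in `(z, m]` -/
def D_L (z m : ℕ) : Finset ℕ := (Icc 1 m).filter (fun l => l.Prime ∧ z < l)

theorem D_primeCounting_eq (m : ℕ) : Nat.primeCounting m = ((Icc 1 m).filter Nat.Prime).card := by
  rw [Nat.primeCounting, Nat.primeCounting', Nat.count_eq_card_filter_range]
  congr 1
  ext p
  simp only [mem_filter, mem_range, mem_Icc]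
  constructor
  · rintro ⟨h1, h2⟩
    exact ⟨⟨h2.one_lt.le, by omega⟩, h2⟩
  · rintro ⟨⟨h1, h2⟩, h3⟩
    exact ⟨by omega, h3⟩

theorem D_L_card (z m : ℕ) :
    (Nat.primeCounting m : ℝ) - Nat.primeCounting z ≤ ((D_L z m).card : ℝ) := by
  have h1 : Nat.primeCounting m ≤ (D_L z m).card + Nat.primeCounting z := by
    rw [D_primeCounting_eq, D_primeCounting_eq]
    calc ((Icc 1 m).filter Nat.Prime).card
        ≤ (D_L z m ∪ (Icc 1 z).filter Nat.Prime).card := by
          refine card_le_card fun p hp => ?_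
          obtain ⟨hp1, hp2⟩ := mem_filter.1 hp
          rw [mem_union]
          by_cases h : z < p
          · exact Or.inl (mem_filter.2 ⟨hp1, hp2, h⟩)
          · right
            rw [mem_filter, mem_Icc]
            exact ⟨⟨(mem_Icc.1 hp1).1, by omega⟩, hp2⟩
      _ ≤ _ := card_union_le _ _
  have h2 : (Nat.primeCounting m : ℝ) ≤ (D_L z m).card + Nat.primeCounting z := by
    exact_mod_cast h1
  linarith

/-- D1: the count of `XX` with weights. -/
theorem D1 (N w z t : ℕ) (hwz : w ≤ z) :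
    2 * ∑ s ∈ SS w t, cc (PP w) s * ((Nat.primeCounting (N / s) : ℝ) - Nat.primeCounting z) ≤
      ∑ n ∈ XX N w z, cc (PP w) n.natAbs := by
  classical
  -- index set
  let T : Finset ((_ : ℕ) × ℕ) := (SS w t).sigma (fun s => D_L z (N / s))
  have hT : ∀ x ∈ T, Sm w x.1 ∧ x.2.Prime ∧ z < x.2 ∧ x.1 * x.2 ≤ N := by
    intro x hx
    obtain ⟨h1, h2⟩ := mem_sigma.1 hx
    obtain ⟨h3, h4⟩ := mem_filter.1 h1
    obtain ⟨h5, h6, h7⟩ := mem_filter.1 h2
    refine ⟨h4, h6, h7, ?_⟩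
    have h8 := (mem_Icc.1 h5).2
    have h9 : 0 < x.1 := Nat.pos_of_ne_zero h4.1
    calc x.1 * x.2 ≤ x.1 * (N / x.1) := Nat.mul_le_mul_left _ h8
      _ ≤ N := Nat.mul_div_le _ _
  let gp : ((_ : ℕ) × ℕ) → ℤ := fun x => ((x.1 * x.2 : ℕ) : ℤ)
  let gm : ((_ : ℕ) × ℕ) → ℤ := fun x => -((x.1 * x.2 : ℕ) : ℤ)
  have hinj : ∀ x ∈ T, ∀ y ∈ T, x.1 * x.2 = y.1 * y.2 → x = y := by
    intro x hx y hy hxy
    obtain ⟨a1, a2, a3, a4⟩ := hT x hx
    obtain ⟨b1, b2, b3, b4⟩ := hT y hy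
    have h := D_unique w x.1 y.1 x.2 y.2 a1 b1 a2 b2 (by omega) hxy
    obtain ⟨s, l⟩ := x
    obtain ⟨s', l'⟩ := y
    simp only at h
    obtain ⟨h1, h2⟩ := h
    subst h1; subst h2; rfl
  have hpinj : Set.InjOn gp T := by
    intro x hx y hy hxy
    refine hinj x hx y hy ?_
    have : ((x.1 * x.2 : ℕ) : ℤ) = ((y.1 * y.2 : ℕ) : ℤ) := hxy
    exact_mod_cast this
  have hminj : Set.InjOn gm T := by
    intro x hx y hy hxy
    refine hinj x hx y hy ?_
    have : -((x.1 * x.2 : ℕ) : ℤ) = -((y.1 * y.2 : ℕ) : ℤ) := hxy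
    have h2 := neg_injective this
    exact_mod_cast h2
  have hpos : ∀ x ∈ T, 0 < x.1 * x.2 := by
    intro x hx
    obtain ⟨a1, a2, a3, a4⟩ := hT x hx
    exact Nat.mul_pos (Nat.pos_of_ne_zero a1.1) a2.pos
  have hdisj : Disjoint (T.image gp) (T.image gm) := by
    rw [disjoint_left]
    intro n hn hn'
    obtain ⟨x, hx, rfl⟩ := mem_image.1 hn
    obtain ⟨y, hy, hxy⟩ := mem_image.1 hn'
    have h1 := hpos x hx
    have h2 := hpos y hy
    have h3 : -((y.1 * y.2 : ℕ) : ℤ) = ((x.1 * x.2 : ℕ) : ℤ) := hxy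
    have h4 : (0 : ℤ) < ((x.1 * x.2 : ℕ) : ℤ) := by exact_mod_cast h1
    have h5 : (0 : ℤ) < ((y.1 * y.2 : ℕ) : ℤ) := by exact_mod_cast h2
    omega
  have hsub : T.image gp ∪ T.image gm ⊆ XX N w z := by
    intro n hn
    rw [mem_union] at hn
    rcases hn with hn | hn
    · obtain ⟨x, hx, rfl⟩ := mem_image.1 hn
      obtain ⟨a1, a2, a3, a4⟩ := hT x hx
      refine mem_filter.2 ⟨?_, x.1, x.2, a1, a2, a3, ?_⟩
      · rw [mem_Icc]
        have : ((x.1 * x.2 : ℕ) : ℤ) ≤ N := by exact_mod_cast a4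
        have h0 : (0 : ℤ) ≤ ((x.1 * x.2 : ℕ) : ℤ) := Int.natCast_nonneg _
        constructor
        · show -(N : ℤ) ≤ ((x.1 * x.2 : ℕ) : ℤ)
          omega
        · exact this
      · show (((x.1 * x.2 : ℕ) : ℤ)).natAbs = x.1 * x.2
        exact Int.natAbs_natCast _
    · obtain ⟨x, hx, rfl⟩ := mem_image.1 hn
      obtain ⟨a1, a2, a3, a4⟩ := hT x hx
      refine mem_filter.2 ⟨?_, x.1, x.2, a1, a2, a3, ?_⟩
      · rw [mem_Icc]
        have : ((x.1 * x.2 : ℕ) : ℤ) ≤ N := by exact_mod_cast a4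
        have h0 : (0 : ℤ) ≤ ((x.1 * x.2 : ℕ) : ℤ) := Int.natCast_nonneg _
        constructor
        · show -(N : ℤ) ≤ -((x.1 * x.2 : ℕ) : ℤ)
          omega
        · show -((x.1 * x.2 : ℕ) : ℤ) ≤ N
          omega
      · show (-((x.1 * x.2 : ℕ) : ℤ)).natAbs = x.1 * x.2
        rw [Int.natAbs_neg]
        exact Int.natAbs_natCast _
  have hcc : ∀ x ∈ T, cc (PP w) (x.1 * x.2) = cc (PP w) x.1 := by
    intro x hx
    obtain ⟨a1, a2, a3, a4⟩ := hT x hx
    exact D_cc_mul w x.1 x.2 a2 (by omega)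
  have hsumT : ∑ s ∈ SS w t, cc (PP w) s * ((Nat.primeCounting (N / s) : ℝ) -
      Nat.primeCounting z) ≤ ∑ x ∈ T, cc (PP w) x.1 := by
    rw [sum_sigma]
    refine sum_le_sum fun s hs => ?_
    simp only [sum_const, nsmul_eq_mul]
    rw [mul_comm]
    exact mul_le_mul_of_nonneg_right (D_L_card z (N / s)) (D_cc_nonneg _ (D_PP_prime w) s)
  calc 2 * ∑ s ∈ SS w t, cc (PP w) s * ((Nat.primeCounting (N / s) : ℝ) - Nat.primeCounting z)
      ≤ 2 * ∑ x ∈ T, cc (PP w) x.1 := by linarith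
    _ = ∑ x ∈ T, cc (PP w) (gp x).natAbs + ∑ x ∈ T, cc (PP w) (gm x).natAbs := by
        rw [two_mul]
        congr 1
        · refine sum_congr rfl fun x hx => ?_
          rw [show (gp x).natAbs = x.1 * x.2 from Int.natAbs_natCast _, hcc x hx]
        · refine sum_congr rfl fun x hx => ?_
          rw [show (gm x).natAbs = x.1 * x.2 from by
            show (-((x.1 * x.2 : ℕ) : ℤ)).natAbs = x.1 * x.2
            rw [Int.natAbs_neg]
            exact Int.natAbs_natCast _, hcc x hx]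
    _ = ∑ n ∈ T.image gp ∪ T.image gm, cc (PP w) n.natAbs := by
        rw [sum_union hdisj, sum_image hpinj, sum_image hminj]
    _ ≤ ∑ n ∈ XX N w z, cc (PP w) n.natAbs :=
        sum_le_sum_of_subset_of_nonneg hsub fun n _ _ => D_cc_nonneg _ (D_PP_prime w) _

/-- D2: upper bound for the size of `XX` (C5 is the hypothesis `h5`). -/
theorem D2 (h5 : ∀ w t : ℕ, ∑ s ∈ SS w t, (1 : ℝ) / s ≤ BB w) :
    ∃ C : ℝ, 0 < C ∧ ∀ N w z t : ℕ, 2 ≤ N → N ≤ z * t → t ^ 2 ≤ N →
    ((XX N w z).card : ℝ) ≤ C * (BB w * N / Real.log N) := by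
  classical
  have hl4 : 0 < Real.log 4 := Real.log_pos (by norm_num)
  refine ⟨8 * (Real.log 4 + 1), by positivity, ?_⟩
  intro N w z t hN hNzt htN
  have hN0 : (0 : ℝ) < N := by exact_mod_cast (by omega : 0 < N)
  have hlogN : 0 < Real.log N := Real.log_pos (by exact_mod_cast (by omega : 1 < N))
  -- the cover
  let T : Finset ((_ : ℕ) × ℕ) := (SS w t).sigma (fun s => (Icc 1 (N / s)).filter Nat.Prime)
  let gp : ((_ : ℕ) × ℕ) → ℤ := fun x => ((x.1 * x.2 : ℕ) : ℤ)
  let gm : ((_ : ℕ) × ℕ) → ℤ := fun x => -((x.1 * x.2 : ℕ) : ℤ)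
  have hsub : XX N w z ⊆ T.image gp ∪ T.image gm := by
    intro n hn
    obtain ⟨h1, s, l, h2, h3, h4, h6⟩ := mem_filter.1 hn
    have h7 : n.natAbs ≤ N := by
      rw [mem_Icc] at h1
      omega
    have hs0 : 0 < s := Nat.pos_of_ne_zero h2.1
    have hst : s < t := by
      by_contra hge
      push Not at hge
      have : z * t < s * l := by
        calc z * t ≤ z * s := Nat.mul_le_mul_left _ hge
          _ < l * s := Nat.mul_lt_mul_of_pos_right h4 hs0
          _ = s * l := Nat.mul_comm _ _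
      omega
    have hx : (⟨s, l⟩ : (_ : ℕ) × ℕ) ∈ T := by
      refine mem_sigma.2 ⟨mem_filter.2 ⟨mem_Icc.2 ⟨hs0, hst.le⟩, h2⟩, mem_filter.2 ⟨mem_Icc.2
        ⟨h3.one_lt.le, ?_⟩, h3⟩⟩
      rw [Nat.le_div_iff_mul_le hs0]
      calc l * s = s * l := Nat.mul_comm _ _
        _ = n.natAbs := h6.symm
        _ ≤ N := h7
    rw [mem_union]
    rcases Int.natAbs_eq n with hn1 | hn1
    · left
      refine mem_image.2 ⟨⟨s, l⟩, hx, ?_⟩
      show ((s * l : ℕ) : ℤ) = n
      rw [← h6]; exact hn1.symm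
    · right
      refine mem_image.2 ⟨⟨s, l⟩, hx, ?_⟩
      show -((s * l : ℕ) : ℤ) = n
      rw [← h6]; exact hn1.symm
  have hcard : (XX N w z).card ≤ 2 * T.card := by
    calc (XX N w z).card ≤ (T.image gp ∪ T.image gm).card := card_le_card hsub
      _ ≤ (T.image gp).card + (T.image gm).card := card_union_le _ _
      _ ≤ T.card + T.card := Nat.add_le_add card_image_le card_image_le
      _ = 2 * T.card := by ring
  have hTcard : (T.card : ℝ) = ∑ s ∈ SS w t, (Nat.primeCounting (N / s) : ℝ) := by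
    rw [card_sigma]
    push_cast
    refine sum_congr rfl fun s _ => ?_
    rw [D_primeCounting_eq]
  have hpi : ∀ s ∈ SS w t, (Nat.primeCounting (N / s) : ℝ) ≤
      4 * (Real.log 4 + 1) * (N / Real.log N) * (1 / s) := by
    intro s hs
    obtain ⟨h1, h2⟩ := mem_filter.1 hs
    obtain ⟨h3, h4⟩ := mem_Icc.1 h1
    have hs0 : (0 : ℝ) < s := by exact_mod_cast h3
    have hst : (s : ℝ) ≤ t := by exact_mod_cast h4
    have ht0 : (0 : ℝ) < t := lt_of_lt_of_le hs0 hst
    have htN' : (t : ℝ) ^ 2 ≤ N := by exact_mod_cast htN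
    have htsq : (t : ℝ) ≤ Real.sqrt N := Real.le_sqrt_of_sq_le htN'
    set x : ℝ := (N : ℝ) / s with hx
    have hxsq : Real.sqrt N ≤ x := by
      rw [hx, le_div_iff₀ hs0]
      calc Real.sqrt N * s ≤ Real.sqrt N * Real.sqrt N :=
            mul_le_mul_of_nonneg_left (hst.trans htsq) (Real.sqrt_nonneg _)
        _ = N := Real.mul_self_sqrt hN0.le
    have hsqN1 : 1 < Real.sqrt N := by
      rw [Real.lt_sqrt (by norm_num)]
      have : (2 : ℝ) ≤ N := by exact_mod_cast hN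
      linarith
    have hx1 : 1 < x := lt_of_lt_of_le hsqN1 hxsq
    have hx0 : 0 < x := by linarith
    have h6 := Chebyshev.pi_le_log4_mul_div hx1
    have hfl : ⌊x⌋₊ = N / s := by
      rw [hx]; exact Nat.floor_div_eq_div N s
    rw [hfl] at h6
    -- log sqrt x ≥ log N / 4
    have hlogx : Real.log N / 4 ≤ Real.log (Real.sqrt x) := by
      rw [Real.log_sqrt hx0.le]
      have h7 : Real.log (Real.sqrt N) ≤ Real.log x := Real.log_le_log (by linarith) hxsq
      rw [Real.log_sqrt hN0.le] at h7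
      linarith
    have hsx0 : 0 < Real.sqrt x := Real.sqrt_pos.2 hx0
    have hlsx : 0 < Real.log (Real.sqrt x) := by linarith
    have h8 : Real.sqrt x ≤ x / Real.log (Real.sqrt x) := by
      rw [le_div_iff₀ hlsx]
      calc Real.sqrt x * Real.log (Real.sqrt x) ≤ Real.sqrt x * Real.sqrt x :=
            mul_le_mul_of_nonneg_left ((Real.log_le_sub_one_of_pos hsx0).trans (by linarith))
              hsx0.le
        _ = x := Real.mul_self_sqrt hx0.le
    calc (Nat.primeCounting (N / s) : ℝ) ≤ Real.log 4 * x / Real.log (Real.sqrt x) + Real.sqrt x :=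
          h6
      _ ≤ Real.log 4 * x / Real.log (Real.sqrt x) + x / Real.log (Real.sqrt x) := by linarith
      _ = (Real.log 4 + 1) * x / Real.log (Real.sqrt x) := by ring
      _ ≤ (Real.log 4 + 1) * x / (Real.log N / 4) := by
          apply div_le_div_of_nonneg_left _ (by positivity) hlogx
          positivity
      _ = 4 * (Real.log 4 + 1) * (N / Real.log N) * (1 / s) := by
          rw [hx]; field_simp
  have hcardR : ((XX N w z).card : ℝ) ≤ 2 * (T.card : ℝ) := by exact_mod_cast hcard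
  calc ((XX N w z).card : ℝ) ≤ 2 * (T.card : ℝ) := hcardR
    _ = 2 * ∑ s ∈ SS w t, (Nat.primeCounting (N / s) : ℝ) := by rw [hTcard]
    _ ≤ 2 * ∑ s ∈ SS w t, 4 * (Real.log 4 + 1) * (N / Real.log N) * (1 / s) := by
        have := sum_le_sum hpi
        linarith
    _ = 8 * (Real.log 4 + 1) * (N / Real.log N) * ∑ s ∈ SS w t, (1 : ℝ) / s := by
        rw [← mul_sum]; ring
    _ ≤ 8 * (Real.log 4 + 1) * (N / Real.log N) * BB w := by
        apply mul_le_mul_of_nonneg_left (h5 w t)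
        positivity
    _ = 8 * (Real.log 4 + 1) * (BB w * N / Real.log N) := by ring

end Pool.Agent.H381R2.HR
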