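import Mathlib
import Pool.Agent.H381R2.HR.Defs
import Pool.Agent.Helper602.MK.J3

/-! Task E: elements of `XX` in an interval of length `q` and a class modulo `M`. -/

set_option autoImplicit false

open Finset

namespace Pool.Agent.H381R2.HR

namespace TaskE

theorem coprime_of_Sm {w s M : ℕ} (hs : Sm w s) (hM : ∀ p : ℕ, p.Prime → p ≤ w → ¬ p ∣ M) :
    Nat.Coprime s M := by
  by_contra h
  obtain ⟨p, hp, h1, h2⟩ := Nat.Prime.not_coprime_iff_dvd.1 h
  exact hM p hp (hs.2 p hp h1) h2

/-- primes `l` with `ε s l` in an interval and a residue class -/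
theorem cnt (C1 : ℝ) (hC1 : 1 ≤ C1) (h3 : ∀ a q N : ℕ, 1 ≤ q → 2 ≤ N →
    (((range N).filter (fun t => (a + t * q).Prime)).card : ℝ) ≤
      C1 * ((q : ℝ) / (Nat.totient q : ℝ)) * N / Real.log N)
    (M s q : ℕ) (ε : ℤ) (hε : ε = 1 ∨ ε = -1) (y β : ℤ) (hsM : Nat.Coprime s M)
    (hs : 0 < s) (hM : 1 ≤ M) (hK : s * M ≤ q) (L : Finset ℕ)
    (hL : ∀ l ∈ L, l.Prime ∧ y ≤ ε * (s * l) ∧ ε * (s * l) < y + q ∧
      (M : ℤ) ∣ ε * (s * l) - β) :
    (L.card : ℝ) ≤ C1 * ((M : ℝ) / (Nat.totient M : ℝ)) * ((q / (s * M) + 1 : ℕ) : ℝ) /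
      Real.log ((q / (s * M) + 1 : ℕ) : ℝ) := by
  set K := q / (s * M) + 1 with hKdef
  have hsM0 : 0 < s * M := Nat.mul_pos hs hM
  have hK2 : 2 ≤ K := by
    have : 1 ≤ q / (s * M) := (Nat.one_le_div_iff hsM0).2 hK
    omega
  rcases L.eq_empty_or_nonempty with h0 | hne
  · rw [h0]
    simp only [card_empty, Nat.cast_zero]
    have : 0 ≤ Real.log (K : ℝ) := Real.log_natCast_nonneg K
    positivity
  · set a0 := L.min' hne with ha0
    have ha0L : a0 ∈ L := L.min'_mem hne
    have hle : ∀ l ∈ L, a0 ≤ l := fun l hl => L.min'_le l hl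
    have hA := hL a0 ha0L
    have key : ∀ l ∈ L, ∃ k < K, l = a0 + k * M := by
      intro l hl
      have hB := hL l hl
      obtain ⟨d, hd⟩ := Nat.exists_eq_add_of_le (hle l hl)
      have hdvd : (M : ℤ) ∣ (s : ℤ) * d := by
        have h1 := dvd_sub hB.2.2.2 hA.2.2.2
        have h2 : ε * (s * l) - β - (ε * (s * a0) - β) = ε * (s * d) := by
          rw [hd]; push_cast; ring
        rw [h2] at h1
        rcases hε with rfl | rfl
        · simpa using h1
        · rw [neg_one_mul, dvd_neg] at h1; exact h1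
      have hdvd' : M ∣ d := by
        have : M ∣ s * d := by exact_mod_cast hdvd
        exact (Nat.Coprime.dvd_of_dvd_mul_left hsM.symm this)
      obtain ⟨k, hk⟩ := hdvd'
      have hlt : s * d < q := by
        have h1 : (s : ℤ) * d < q := by
          have e : ε * ((s : ℤ) * l) = ε * (s * a0) + ε * (s * d) := by rw [hd]; push_cast; ring
          rcases hε with rfl | rfl
          · have h2 := hB.2.2.1
            have h3 := hA.2.1
            rw [e] at h2
            linarith
          · have h2 := hB.2.1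
            have h3 := hA.2.2.1
            rw [e] at h2
            linarith
        exact_mod_cast h1
      refine ⟨k, ?_, ?_⟩
      · have : k * (s * M) < q := by
          calc k * (s * M) = s * d := by rw [hk]; ring
            _ < q := hlt
        have := (Nat.le_div_iff_mul_le hsM0).2 this.le
        omega
      · rw [hd, hk]; ring
    choose! kf hkf using key
    have hcard : L.card ≤ ((range K).filter (fun t => (a0 + t * M).Prime)).card := by
      apply card_le_card_of_injOn kf
      · intro l hl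
        have h1 := hkf l hl
        simp only [coe_filter, mem_range, Set.mem_ofPred_eq]
        refine ⟨h1.1, ?_⟩
        rw [← h1.2]
        exact (hL l hl).1
      · intro l hl l' hl' he
        rw [(hkf l hl).2, (hkf l' hl').2, he]
    calc (L.card : ℝ) ≤ (((range K).filter (fun t => (a0 + t * M).Prime)).card : ℝ) := by
          exact_mod_cast hcard
      _ ≤ _ := h3 a0 M K hM hK2

end TaskE

open TaskE in
/-- E: elements of `XX` in an interval of length `q` and a class modulo `M`. -/
theorem E (h5 : ∀ w t : ℕ, ∑ s ∈ SS w t, (1 : ℝ) / s ≤ BB w) :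
    ∃ C : ℝ, 0 < C ∧ ∀ N w z t M q : ℕ, ∀ y β : ℤ, 4 ≤ N → N ≤ z * t → z ≤ q →
    1 ≤ t → 1 ≤ M → (∀ p : ℕ, p.Prime → p ≤ w → ¬ p ∣ M) → (t ^ 2 * M) ^ 2 ≤ N →
    (((XX N w z).filter (fun n => y ≤ n ∧ n < y + q ∧ (M : ℤ) ∣ n - β)).card : ℝ) ≤
      C * (((M : ℝ) / (Nat.totient M : ℝ)) * BB w * q / (M * Real.log N)) := by
  classical
  obtain ⟨C1, hC1, h3⟩ := Pool.Agent.Helper602.MK.N_J3.J3
  refine ⟨8 * C1, by linarith, ?_⟩
  intro N w z t M q y β hN hNz hzq ht hM hMw hsq
  set Ls : ℤ → ℕ → Finset ℕ := fun ε s => (range (N + 1)).filter (fun l => l.Prime ∧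
    y ≤ ε * (s * l) ∧ ε * (s * l) < y + q ∧ (M : ℤ) ∣ ε * (s * l) - β) with hLs
  have hN0 : (0 : ℝ) < N := by positivity
  have hlogN : 0 < Real.log N := Real.log_pos (by exact_mod_cast (by omega : 1 < N))
  have hM0 : (0 : ℝ) < M := by exact_mod_cast hM
  have hphi : (0 : ℝ) < (Nat.totient M : ℝ) := by
    exact_mod_cast Nat.totient_pos.2 hM
  have hcover : (XX N w z).filter (fun n => y ≤ n ∧ n < y + q ∧ (M : ℤ) ∣ n - β) ⊆
      (SS w t).biUnion (fun s => (Ls 1 s).image (fun l : ℕ => (1 : ℤ) * ((s : ℤ) * l)) ∪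
        (Ls (-1) s).image (fun l : ℕ => (-1 : ℤ) * ((s : ℤ) * l))) := by
    intro n hn
    simp only [XX, mem_filter, mem_Icc] at hn
    obtain ⟨⟨⟨hn1, hn2⟩, s, l, hs, hl, hzl, hab⟩, hy1, hy2, hb⟩ := hn
    have habN : s * l ≤ N := by rw [← hab]; omega
    have hs1 : 1 ≤ s := Nat.one_le_iff_ne_zero.2 hs.1
    have hst : s < t := by
      by_contra h
      push Not at h
      have h1 : z * t < l * s := by
        calc z * t < l * t := Nat.mul_lt_mul_of_pos_right hzl ht
          _ ≤ l * s := Nat.mul_le_mul_left _ h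
      have h2 : l * s ≤ N := by rw [Nat.mul_comm]; exact habN
      omega
    have hlN : l ≤ N := le_trans (Nat.le_mul_of_pos_left l hs1) habN
    rw [mem_biUnion]
    refine ⟨s, ?_, ?_⟩
    · simp only [SS, mem_filter, mem_Icc]
      exact ⟨⟨hs1, hst.le⟩, hs⟩
    · rw [mem_union, mem_image, mem_image]
      have hnn : ((n.natAbs : ℕ) : ℤ) = (s : ℤ) * l := by rw [hab]; push_cast; ring
      rcases Int.natAbs_eq n with h | h
      · left
        have h' : n = 1 * ((s : ℤ) * l) := by rw [one_mul, ← hnn]; exact h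
        refine ⟨l, ?_, h'.symm⟩
        simp only [hLs, mem_filter, mem_range]
        refine ⟨by omega, hl, ?_, ?_, ?_⟩
        · rw [← h']; exact hy1
        · rw [← h']; exact hy2
        · rw [← h']; exact hb
      · right
        have h' : n = -1 * ((s : ℤ) * l) := by rw [neg_one_mul, ← hnn]; exact h
        refine ⟨l, ?_, h'.symm⟩
        simp only [hLs, mem_filter, mem_range]
        refine ⟨by omega, hl, ?_, ?_, ?_⟩
        · rw [← h']; exact hy1
        · rw [← h']; exact hy2
        · rw [← h']; exact hb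
  have hcard : ((XX N w z).filter (fun n => y ≤ n ∧ n < y + q ∧ (M : ℤ) ∣ n - β)).card ≤
      ∑ s ∈ SS w t, ((Ls 1 s).card + (Ls (-1) s).card) := by
    refine (card_le_card hcover).trans (card_biUnion_le.trans ?_)
    apply sum_le_sum
    intro s _
    exact (card_union_le _ _).trans (add_le_add card_image_le card_image_le)
  -- the bound for one `s`
  have hone : ∀ s ∈ SS w t, ((Ls 1 s).card : ℝ) + (Ls (-1) s).card ≤
      8 * C1 * (((M : ℝ) / (Nat.totient M : ℝ)) * q / (M * Real.log N)) * (1 / s) := by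
    intro s hs
    simp only [SS, mem_filter, mem_Icc] at hs
    obtain ⟨⟨hs1, hst⟩, hsm⟩ := hs
    have hcop := coprime_of_Sm hsm hMw
    have hs0 : (0 : ℝ) < s := by exact_mod_cast hs1
    have ht0 : (0 : ℝ) < t := by exact_mod_cast ht
    -- real lower bound for q / (s M)
    have hR : Real.sqrt N ≤ (q : ℝ) / (s * M) := by
      rw [le_div_iff₀ (by positivity)]
      have h1 : (t : ℝ) ^ 2 * M ≤ Real.sqrt N := by
        apply Real.le_sqrt_of_sq_le
        exact_mod_cast hsq
      have h2 : (N : ℝ) ≤ q * t := by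
        have : N ≤ q * t := hNz.trans (Nat.mul_le_mul_right _ hzq)
        exact_mod_cast this
      have h3 : Real.sqrt N * (s * M) * t ≤ q * t := by
        calc Real.sqrt N * (s * M) * t ≤ Real.sqrt N * (t * M) * t := by
              have : (s : ℝ) ≤ t := by exact_mod_cast hst
              gcongr
          _ = Real.sqrt N * ((t : ℝ) ^ 2 * M) := by ring
          _ ≤ Real.sqrt N * Real.sqrt N := by gcongr
          _ = N := Real.mul_self_sqrt hN0.le
          _ ≤ q * t := h2
      exact le_of_mul_le_mul_right h3 ht0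
    have hsq2 : (2 : ℝ) ≤ Real.sqrt N := by
      apply Real.le_sqrt_of_sq_le
      have : (4 : ℝ) ≤ N := by exact_mod_cast hN
      linarith
    have hsMq : s * M ≤ q := by
      have h1 : (1 : ℝ) ≤ (q : ℝ) / (s * M) := by linarith
      rw [le_div_iff₀ (by positivity), one_mul] at h1
      exact_mod_cast h1
    set K := q / (s * M) + 1 with hK
    have hKlow : (q : ℝ) / (s * M) ≤ K := by
      have h1 : q < (s * M) * (q / (s * M) + 1) := by
        exact Nat.lt_mul_div_succ q (Nat.mul_pos hs1 hM)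
      rw [div_le_iff₀ (by positivity)]
      have h2 : (q : ℝ) < (s * M) * K := by
        have : ((q : ℕ) : ℝ) < (((s * M) * K : ℕ) : ℝ) := by exact_mod_cast h1
        simpa using this
      linarith [mul_comm (K : ℝ) (s * M)]
    have hKup : (K : ℝ) ≤ 2 * ((q : ℝ) / (s * M)) := by
      have h1 : ((q / (s * M) : ℕ) : ℝ) ≤ (q : ℝ) / (s * M) := by
        have := @Nat.cast_div_le ℝ _ _ _ q (s * M)
        simpa using this
      have h2 : (1 : ℝ) ≤ (q : ℝ) / (s * M) := by linarith
      rw [hK]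
      push_cast
      push_cast at h1
      linarith
    have hlogK : Real.log N / 2 ≤ Real.log K := by
      rw [← Real.log_sqrt hN0.le]
      apply Real.log_le_log (by linarith)
      linarith
    have hlogK0 : 0 < Real.log K := by linarith
    have hbound : C1 * ((M : ℝ) / (Nat.totient M : ℝ)) * (K : ℝ) / Real.log (K : ℝ) ≤
        4 * C1 * (((M : ℝ) / (Nat.totient M : ℝ)) * q / (M * Real.log N)) * (1 / s) := by
      calc C1 * ((M : ℝ) / (Nat.totient M : ℝ)) * (K : ℝ) / Real.log (K : ℝ)
          ≤ C1 * ((M : ℝ) / (Nat.totient M : ℝ)) * (2 * ((q : ℝ) / (s * M))) /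
            (Real.log N / 2) := by
            gcongr
        _ = _ := by
            field_simp
            ring
    have e1 := cnt C1 hC1 h3 M s q 1 (Or.inl rfl) y β hcop hs1 hM hsMq (Ls 1 s) (by
      intro l hl
      simp only [hLs, mem_filter, mem_range] at hl
      exact hl.2)
    have e2 := cnt C1 hC1 h3 M s q (-1) (Or.inr rfl) y β hcop hs1 hM hsMq (Ls (-1) s) (by
      intro l hl
      simp only [hLs, mem_filter, mem_range] at hl
      exact hl.2)
    have e1' := e1.trans hbound
    have e2' := e2.trans hbound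
    linarith
  calc (((XX N w z).filter (fun n => y ≤ n ∧ n < y + q ∧ (M : ℤ) ∣ n - β)).card : ℝ)
      ≤ ((∑ s ∈ SS w t, ((Ls 1 s).card + (Ls (-1) s).card) : ℕ) : ℝ) := by exact_mod_cast hcard
    _ = ∑ s ∈ SS w t, (((Ls 1 s).card : ℝ) + (Ls (-1) s).card) := by push_cast; rfl
    _ ≤ ∑ s ∈ SS w t,
        8 * C1 * (((M : ℝ) / (Nat.totient M : ℝ)) * q / (M * Real.log N)) * (1 / s) :=
        sum_le_sum hone
    _ = 8 * C1 * (((M : ℝ) / (Nat.totient M : ℝ)) * q / (M * Real.log N)) *
        ∑ s ∈ SS w t, (1 : ℝ) / s := by rw [mul_sum]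
    _ ≤ 8 * C1 * (((M : ℝ) / (Nat.totient M : ℝ)) * q / (M * Real.log N)) * BB w := by
        apply mul_le_mul_of_nonneg_left (h5 w t)
        positivity
    _ = 8 * C1 * (((M : ℝ) / (Nat.totient M : ℝ)) * BB w * q / (M * Real.log N)) := by
        field_simp

end Pool.Agent.H381R2.HR
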