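import Mathlib
import Pool.Agent.H381R2.HR.Defs

/-! Task F of the improved Hensley–Richards theorem (helper381; written by helper459). -/

set_option autoImplicit false

open Finset

namespace Pool.Agent.H381R2.HR

/-- F: averaging over `a ≡ α (mod M)` in `[0, q)`. -/
theorem F (X : Finset ℤ) (N q H M A : ℕ) (α : ℤ) (U : Finset ℕ) (hq : 0 < q) (hM : 0 < M)
    (hMq : M ≤ q) (hN : N < H * q) (hX : ∀ n ∈ X, -(N : ℤ) ≤ n ∧ n ≤ N)
    (hcov : ∀ a : ℤ, (M : ℤ) ∣ a - α → ∀ i ∈ Icc 1 (2 * H), i ∉ U →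
      (a + ((i : ℤ) - 1 - H) * q) ∉ X)
    (hA : ∀ y β : ℤ, (X.filter (fun n => y ≤ n ∧ n < y + q ∧ (M : ℤ) ∣ n - β)).card ≤ A) :
    ∃ r : ℤ, (X.filter (fun n => (q : ℤ) ∣ n - r)).card * (q / M) ≤ U.card * A := by
  classical
  have hq' : (0 : ℤ) < q := by exact_mod_cast hq
  have hM' : (0 : ℤ) < M := by exact_mod_cast hM
  -- the residues
  let g : ℕ → ℤ := fun j => α % M + j * M
  have hginj : Function.Injective g := by
    intro i j hij
    have h1 : (i : ℤ) * M = j * M := by
      have : α % M + (i : ℤ) * M = α % M + (j : ℤ) * M := hij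
      linarith
    have h2 := mul_right_cancel₀ (ne_of_gt hM') h1
    exact_mod_cast h2
  let AA : Finset ℤ := (range (q / M)).image g
  have hAAcard : AA.card = q / M := by
    rw [card_image_of_injective _ hginj, card_range]
  have hAAmod : ∀ a ∈ AA, (M : ℤ) ∣ a - α := by
    intro a ha
    obtain ⟨j, -, rfl⟩ := mem_image.1 ha
    have h1 : α % M + (j : ℤ) * M - α = (j - α / M) * M := by
      have := Int.emod_add_mul_ediv α M
      linear_combination this
    exact ⟨(j - α / M), by rw [show g j - α = α % M + (j : ℤ) * M - α from rfl, h1]; ring⟩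
  have hAArange : ∀ a ∈ AA, 0 ≤ a ∧ a < q := by
    intro a ha
    obtain ⟨j, hj, rfl⟩ := mem_image.1 ha
    have hj' : j < q / M := mem_range.1 hj
    have h0 := Int.emod_nonneg α (ne_of_gt hM')
    have h1 := Int.emod_lt_of_pos α hM'
    constructor
    · have : (0 : ℤ) ≤ (j : ℤ) * M := by positivity
      exact add_nonneg h0 this
    · have h2 : (j + 1) * M ≤ q := by
        calc (j + 1) * M ≤ (q / M) * M := Nat.mul_le_mul_right _ hj'
          _ ≤ q := Nat.div_mul_le_self _ _
      have h3 : ((j : ℤ) + 1) * M ≤ q := by exact_mod_cast h2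
      show α % M + (j : ℤ) * M < q
      linarith
  -- the pieces
  let Y : ℤ → Finset ℤ := fun a => X.filter (fun n => (q : ℤ) ∣ n - a)
  let W : ℕ → Finset ℤ := fun i => X.filter (fun n => ((i : ℤ) - 1 - H) * q ≤ n ∧
    n < ((i : ℤ) - 1 - H) * q + q ∧ (M : ℤ) ∣ n - (α + ((i : ℤ) - 1 - H) * q))
  have hW : ∀ i, (W i).card ≤ A := fun i => hA _ _
  have hdisj : ∀ a ∈ AA, ∀ b ∈ AA, a ≠ b → Disjoint (Y a) (Y b) := by
    intro a ha b hb hab
    rw [disjoint_left]
    intro n hna hnb
    apply hab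
    have h1 : (q : ℤ) ∣ n - a := (mem_filter.1 hna).2
    have h2 : (q : ℤ) ∣ n - b := (mem_filter.1 hnb).2
    have h3 : (q : ℤ) ∣ a - b := by
      have := dvd_sub h2 h1
      rwa [show n - b - (n - a) = a - b by ring] at this
    have ha' := hAArange a ha
    have hb' := hAArange b hb
    by_contra hne
    have h4 : a - b = 0 := Int.eq_zero_of_abs_lt_dvd h3 (by rw [abs_lt]; constructor <;> linarith)
    exact hne (by linarith)
  have hsub : AA.biUnion Y ⊆ U.biUnion W := by
    intro n hn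
    obtain ⟨a, ha, hna⟩ := mem_biUnion.1 hn
    obtain ⟨hnX, hqa⟩ := mem_filter.1 hna
    obtain ⟨k, hk⟩ := hqa
    have ha' := hAArange a ha
    have hXn := hX n hnX
    have hNq : (N : ℤ) < H * q := by exact_mod_cast hN
    have hnk : n = a + k * q := by linarith
    -- bounds for k
    have hk1 : -(H : ℤ) ≤ k := by
      by_contra hlt
      push Not at hlt
      have h1 : k + 1 ≤ -(H : ℤ) := by omega
      have h2 : (k + 1) * q ≤ -(H : ℤ) * q := mul_le_mul_of_nonneg_right h1 hq'.le
      nlinarith [hXn.1]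
    have hk2 : k < (H : ℤ) := by
      by_contra hge
      push Not at hge
      have h2 : (H : ℤ) * q ≤ k * q := mul_le_mul_of_nonneg_right hge hq'.le
      linarith [hXn.2, ha'.1]
    obtain ⟨i, hi⟩ : ∃ i : ℕ, (i : ℤ) = k + 1 + H := ⟨(k + 1 + H).toNat, by
      rw [Int.toNat_of_nonneg]; omega⟩
    have hiIcc : i ∈ Icc 1 (2 * H) := by
      rw [mem_Icc]; omega
    have hkey : (i : ℤ) - 1 - H = k := by omega
    have hiU : i ∈ U := by
      by_contra hiU
      have := hcov a (hAAmod a ha) i hiIcc hiU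
      rw [hkey, ← hnk] at this
      exact this hnX
    rw [mem_biUnion]
    refine ⟨i, hiU, mem_filter.2 ⟨hnX, ?_, ?_, ?_⟩⟩
    · rw [hkey, hnk]; linarith [ha'.1]
    · rw [hkey, hnk]; linarith [ha'.2]
    · rw [hkey, hnk]
      have := hAAmod a ha
      rwa [show a + k * (q : ℤ) - (α + k * q) = a - α by ring]
  have hcard : ∑ a ∈ AA, (Y a).card ≤ U.card * A := by
    rw [← card_biUnion hdisj]
    calc (AA.biUnion Y).card ≤ (U.biUnion W).card := card_le_card hsub
      _ ≤ ∑ i ∈ U, (W i).card := card_biUnion_le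
      _ ≤ ∑ _i ∈ U, A := sum_le_sum fun i _ => hW i
      _ = U.card * A := by rw [sum_const, smul_eq_mul]
  by_contra hcon
  push Not at hcon
  have hne : AA.Nonempty ∨ q / M = 0 := by
    by_cases h : q / M = 0
    · exact Or.inr h
    · left
      rw [← card_pos, hAAcard]
      exact Nat.pos_of_ne_zero h
  rcases hne with hne | h0
  · have h1 : ∑ a ∈ AA, U.card * A < ∑ a ∈ AA, (Y a).card * (q / M) :=
      sum_lt_sum_of_nonempty hne fun a _ => hcon a
    rw [sum_const, hAAcard, smul_eq_mul, ← sum_mul] at h1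
    have h2 : (∑ a ∈ AA, (Y a).card) * (q / M) ≤ (U.card * A) * (q / M) :=
      Nat.mul_le_mul_right _ hcard
    have h3 : q / M * (U.card * A) = (U.card * A) * (q / M) := Nat.mul_comm _ _
    omega
  · have := hcon 0
    rw [h0] at this
    simp at this

end Pool.Agent.H381R2.HR
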