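import Mathlib
import Pool.Agent.H381R2.HR.Defs

/-! Covering (tasks G1, G2, G, G4; helper727). -/

set_option autoImplicit false

open Finset

namespace Pool.Agent.H381R2.HR

/-- one greedy step: some class mod `p` contains at least `|R|/p` elements -/
theorem greedy_step (p : ℕ) (hp : 1 ≤ p) (R : Finset ℕ) : ∃ d : ℕ,
    (((R.filter (fun i => ¬ i ≡ d [MOD p])).card : ℝ)) ≤ R.card * (1 - (p : ℝ)⁻¹) := by
  have hp0 : (0 : ℝ) < p := by exact_mod_cast hp
  have hmaps : ∀ i ∈ R, i % p ∈ range p := fun i _ => mem_range.2 (Nat.mod_lt _ (by omega))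
  have hsum := Finset.card_eq_sum_card_fiberwise (f := fun i => i % p) (s := R) (t := range p)
    (by intro i hi; exact hmaps i hi)
  have hex : ∃ d ∈ range p, (R.card : ℝ) / p ≤ ((R.filter (fun i => i % p = d)).card : ℝ) := by
    apply Finset.exists_le_of_sum_le (s := range p)
    · exact ⟨0, mem_range.2 (by omega)⟩
    · rw [Finset.sum_const, Finset.card_range, nsmul_eq_mul]
      rw [show (p : ℝ) * ((R.card : ℝ) / p) = R.card by field_simp]
      rw [hsum]; push_cast; exact le_refl _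
  obtain ⟨d, hd, hle⟩ := hex
  refine ⟨d, ?_⟩
  have hd' : d % p = d := Nat.mod_eq_of_lt (mem_range.1 hd)
  have hsplit : (R.filter (fun i => i % p = d)).card + (R.filter (fun i => ¬ i ≡ d [MOD p])).card
      = R.card := by
    have h1 := Finset.card_filter_add_card_filter_not (s := R) (fun i => i % p = d)
    have h2 : R.filter (fun i => ¬ i ≡ d [MOD p]) = R.filter (fun i => ¬ i % p = d) := by
      apply Finset.filter_congr
      intro i _
      unfold Nat.ModEq
      rw [hd']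
    rw [h2]; exact h1
  have hsplit' : ((R.filter (fun i => i % p = d)).card : ℝ) +
      ((R.filter (fun i => ¬ i ≡ d [MOD p])).card : ℝ) = R.card := by exact_mod_cast hsplit
  have : (R.card : ℝ) * (1 - (p : ℝ)⁻¹) = R.card - R.card / p := by
    field_simp
  rw [this]; linarith

/-- G1: greedy choice of classes. -/
theorem G1 (P : Finset ℕ) (hP : ∀ p ∈ P, 1 ≤ p) (U0 : Finset ℕ) : ∃ c : ℕ → ℕ,
    ((U0.filter (fun i => ∀ p ∈ P, ¬ i ≡ c p [MOD p])).card : ℝ) ≤
      U0.card * ∏ p ∈ P, (1 - (p : ℝ)⁻¹) := by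
  classical
  induction P using Finset.induction_on with
  | empty => exact ⟨fun _ => 0, by simp⟩
  | insert p P hpP ih =>
    obtain ⟨c, hc⟩ := ih (fun q hq => hP q (mem_insert_of_mem hq))
    obtain ⟨d, hd⟩ := greedy_step p (hP p (mem_insert_self _ _))
      (U0.filter (fun i => ∀ q ∈ P, ¬ i ≡ c q [MOD q]))
    refine ⟨Function.update c p d, ?_⟩
    have hp1 : (1 : ℝ) ≤ p := by exact_mod_cast hP p (mem_insert_self _ _)
    have hnn : (0 : ℝ) ≤ 1 - (p : ℝ)⁻¹ := by
      have : (p : ℝ)⁻¹ ≤ 1 := inv_le_one_of_one_le₀ hp1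
      linarith
    have hset : U0.filter (fun i => ∀ q ∈ insert p P, ¬ i ≡ Function.update c p d q [MOD q]) =
        (U0.filter (fun i => ∀ q ∈ P, ¬ i ≡ c q [MOD q])).filter (fun i => ¬ i ≡ d [MOD p]) := by
      ext i
      simp only [mem_filter, mem_insert, forall_eq_or_imp, Function.update_self]
      constructor
      · rintro ⟨h1, h2, h3⟩
        refine ⟨⟨h1, fun q hq => ?_⟩, h2⟩
        have := h3 q hq
        rwa [Function.update_of_ne (by rintro rfl; exact hpP hq)] at this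
      · rintro ⟨⟨h1, h2⟩, h3⟩
        refine ⟨h1, h3, fun q hq => ?_⟩
        rw [Function.update_of_ne (by rintro rfl; exact hpP hq)]
        exact h2 q hq
    rw [hset, Finset.prod_insert hpP]
    calc _ ≤ _ := hd
      _ ≤ (U0.card * ∏ p ∈ P, (1 - (p : ℝ)⁻¹)) * (1 - (p : ℝ)⁻¹) :=
          mul_le_mul_of_nonneg_right hc hnn
      _ = _ := by ring

/-- Chebyshev's upper bound -/
theorem cheb : ∃ C : ℝ, 0 < C ∧ ∀ n : ℕ, 2 ≤ n →
    (Nat.primeCounting n : ℝ) ≤ C * (n / Real.log n) := by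
  refine ⟨2 * Real.log 4 + 4, by positivity, fun n hn => ?_⟩
  have hn1 : (1 : ℝ) < n := by exact_mod_cast (by omega : 1 < n)
  have hn0 : (0 : ℝ) < n := by linarith
  have hlog : 0 < Real.log n := Real.log_pos hn1
  have h := Chebyshev.pi_le_log4_mul_div hn1
  rw [Nat.floor_natCast] at h
  refine h.trans ?_
  have hs : Real.log (√(n : ℝ)) = Real.log n / 2 := Real.log_sqrt hn0.le
  rw [hs]
  have h1 : Real.log 4 * (n : ℝ) / (Real.log n / 2) = 2 * Real.log 4 * (n / Real.log n) := by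
    field_simp
  rw [h1]
  have h2 : √(n : ℝ) ≤ 4 * (n / Real.log n) := by
    rw [mul_div_assoc', le_div_iff₀ hlog]
    have hsq : √(n : ℝ) * √(n : ℝ) = n := Real.mul_self_sqrt hn0.le
    have hsp : 0 < √(n : ℝ) := Real.sqrt_pos.2 hn0
    have h3 : Real.log n ≤ 2 * √(n : ℝ) := by
      have : Real.log (√(n : ℝ)) ≤ √(n : ℝ) - 1 := Real.log_le_sub_one_of_pos hsp
      rw [hs] at this; linarith
    nlinarith
  have h4 : (2 * Real.log 4 + 4) * (n / Real.log n) =
      2 * Real.log 4 * (n / Real.log n) + 4 * (n / Real.log n) := by ring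
  rw [h4]; linarith

open Classical in
/-- G2: integers without prime factors in `(u, v]`. -/
theorem G2 : ∃ C : ℝ, 0 < C ∧ ∀ J u v : ℕ, 2 ≤ v → u ≤ v →
    (((Icc 1 J).filter (fun i => ∀ p : ℕ, p.Prime → u < p → p ≤ v → ¬ p ∣ i)).card : ℝ) ≤
      ((SS u J).card : ℝ) + C * (J * (1 + Real.log (1 + J / v)) / Real.log v) := by
  obtain ⟨C, hC, hcheb⟩ := cheb
  refine ⟨C, hC, fun J u v hv huv => ?_⟩
  have hv0 : (0 : ℝ) < v := by exact_mod_cast (by omega : 0 < v)
  have hlogv : 0 < Real.log v := Real.log_pos (by exact_mod_cast (by omega : 1 < v))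
  set B : Finset ℕ := (Icc 1 (J / v)).biUnion (fun m =>
    ((Icc 1 (J / m)).filter (fun l => l.Prime ∧ v < l)).image (fun l => m * l)) with hB
  have hsub : (Icc 1 J).filter (fun i => ∀ p : ℕ, p.Prime → u < p → p ≤ v → ¬ p ∣ i) ⊆
      SS u J ∪ B := by
    intro i hi
    simp only [mem_filter, mem_Icc] at hi
    obtain ⟨⟨hi1, hiJ⟩, hi2⟩ := hi
    rw [mem_union]
    by_cases hsm : Sm u i
    · left
      unfold SS
      simp only [mem_filter, mem_Icc]
      exact ⟨⟨hi1, hiJ⟩, hsm⟩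
    · right
      unfold Sm at hsm
      push Not at hsm
      obtain ⟨l, hl, hli, hul⟩ := hsm (by omega)
      have hvl : v < l := by
        by_contra hcon
        exact hi2 l hl hul (by omega) hli
      obtain ⟨m, rfl⟩ := hli
      have hm : 1 ≤ m := by
        rcases Nat.eq_zero_or_pos m with rfl | h
        · simp at hi1
        · exact h
      rw [hB, mem_biUnion]
      refine ⟨m, ?_, ?_⟩
      · rw [mem_Icc]
        refine ⟨hm, ?_⟩
        rw [Nat.le_div_iff_mul_le (by omega)]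
        calc m * v ≤ m * l := Nat.mul_le_mul_left _ hvl.le
          _ = l * m := mul_comm _ _
          _ ≤ J := hiJ
      · rw [mem_image]
        refine ⟨l, ?_, mul_comm _ _⟩
        simp only [mem_filter, mem_Icc]
        refine ⟨⟨hl.one_le, ?_⟩, hl, hvl⟩
        rw [Nat.le_div_iff_mul_le (by omega)]
        exact hiJ
  have hcard := (Finset.card_le_card hsub).trans (Finset.card_union_le _ _)
  have hBcard : (B.card : ℝ) ≤ C * (J * (1 + Real.log (1 + J / v)) / Real.log v) := by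
    have h1 : (B.card : ℝ) ≤ ∑ m ∈ Icc 1 (J / v), C * (J / Real.log v) * (1 / m) := by
      have h2 : B.card ≤ ∑ m ∈ Icc 1 (J / v),
          (((Icc 1 (J / m)).filter (fun l => l.Prime ∧ v < l)).image (fun l => m * l)).card :=
        Finset.card_biUnion_le
      have h3 : (B.card : ℝ) ≤ ∑ m ∈ Icc 1 (J / v),
          ((((Icc 1 (J / m)).filter (fun l => l.Prime ∧ v < l)).image (fun l => m * l)).card : ℝ) := by
        exact_mod_cast h2
      refine h3.trans (Finset.sum_le_sum fun m hm => ?_)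
      rw [mem_Icc] at hm
      have hm0 : (0 : ℝ) < m := by exact_mod_cast hm.1
      by_cases hlt : J / m ≤ v
      · have : (Icc 1 (J / m)).filter (fun l => l.Prime ∧ v < l) = ∅ := by
          apply Finset.filter_eq_empty_iff.2
          intro l hl h
          rw [mem_Icc] at hl
          omega
        rw [this]
        simp only [image_empty, card_empty, Nat.cast_zero]
        positivity
      · push Not at hlt
        have h5 : (((Icc 1 (J / m)).filter (fun l => l.Prime ∧ v < l)).image (fun l => m * l)).card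
            ≤ Nat.primeCounting (J / m) := by
          refine Finset.card_image_le.trans ?_
          rw [Nat.primeCounting, Nat.primeCounting', Nat.count_eq_card_filter_range]
          apply Finset.card_le_card
          intro l hl
          simp only [mem_filter, mem_Icc, mem_range] at hl ⊢
          exact ⟨by omega, hl.2.1⟩
        have h6 : ((((Icc 1 (J / m)).filter (fun l => l.Prime ∧ v < l)).image (fun l => m * l)).card : ℝ)
            ≤ (Nat.primeCounting (J / m) : ℝ) := by exact_mod_cast h5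
        refine h6.trans ?_
        have h7 := hcheb (J / m) (by omega)
        refine h7.trans ?_
        have h8 : ((J / m : ℕ) : ℝ) ≤ (J : ℝ) / m := Nat.cast_div_le
        have h9 : Real.log v ≤ Real.log ((J / m : ℕ) : ℝ) :=
          Real.log_le_log hv0 (by exact_mod_cast hlt.le)
        have h10 : ((J / m : ℕ) : ℝ) / Real.log ((J / m : ℕ) : ℝ) ≤ ((J : ℝ) / m) / Real.log v := by
          apply div_le_div₀ (by positivity) h8 hlogv h9
        calc C * (((J / m : ℕ) : ℝ) / Real.log ((J / m : ℕ) : ℝ))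
            ≤ C * (((J : ℝ) / m) / Real.log v) := mul_le_mul_of_nonneg_left h10 hC.le
          _ = C * (J / Real.log v) * (1 / m) := by ring
    refine h1.trans ?_
    rw [← Finset.mul_sum]
    by_cases hJv : J / v = 0
    · rw [hJv]
      simp only [show Icc 1 0 = (∅ : Finset ℕ) from rfl, Finset.sum_empty, mul_zero]
      have : 0 ≤ Real.log (1 + (J : ℝ) / v) := Real.log_nonneg (by
        have : (0 : ℝ) ≤ (J : ℝ) / v := by positivity
        linarith)
      positivity
    · have hharm : ∑ m ∈ Icc 1 (J / v), (1 : ℝ) / m ≤ 1 + Real.log (1 + (J : ℝ) / v) := by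
        have h1 : ((harmonic (J / v) : ℚ) : ℝ) = ∑ m ∈ Icc 1 (J / v), (1 : ℝ) / m := by
          rw [harmonic_eq_sum_Icc]; push_cast; simp [one_div]
        rw [← h1]
        refine (harmonic_le_one_add_log _).trans ?_
        have h2 : ((J / v : ℕ) : ℝ) ≤ 1 + (J : ℝ) / v := by
          have : ((J / v : ℕ) : ℝ) ≤ (J : ℝ) / v := Nat.cast_div_le
          linarith
        have h3 : (0 : ℝ) < ((J / v : ℕ) : ℝ) := by exact_mod_cast Nat.pos_of_ne_zero hJv
        have := Real.log_le_log h3 h2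
        linarith
      calc C * (J / Real.log v) * ∑ m ∈ Icc 1 (J / v), (1 : ℝ) / m
          ≤ C * (J / Real.log v) * (1 + Real.log (1 + (J : ℝ) / v)) :=
            mul_le_mul_of_nonneg_left hharm (by positivity)
        _ = _ := by ring
  have hcard' : (((Icc 1 J).filter (fun i => ∀ p : ℕ, p.Prime → u < p → p ≤ v → ¬ p ∣ i)).card : ℝ)
      ≤ ((SS u J).card : ℝ) + (B.card : ℝ) := by exact_mod_cast hcard
  linarith

/-- the primes in `(w, u]` and the Euler products -/
theorem prod_range_BB (w u : ℕ) (hwu : w ≤ u) :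
    ∏ p ∈ (PP u).filter (fun p => w < p), (1 - (p : ℝ)⁻¹) = BB w / BB u := by
  have hpos : ∀ n : ℕ, ∀ p ∈ PP n, (0 : ℝ) < 1 - (p : ℝ)⁻¹ := by
    intro n p hp
    simp only [PP, mem_filter, mem_Icc] at hp
    have h2 : (2 : ℝ) ≤ p := by exact_mod_cast hp.2.two_le
    have : (p : ℝ)⁻¹ ≤ 2⁻¹ := inv_anti₀ (by norm_num) h2
    norm_num at this ⊢; linarith
  have hBpos : ∀ n : ℕ, 0 < BB n := by
    intro n
    exact Finset.prod_pos fun p hp => inv_pos.2 (hpos n p hp)
  have hsplit : PP u = PP w ∪ (PP u).filter (fun p => w < p) := by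
    ext p
    simp only [PP, mem_union, mem_filter, mem_Icc]
    constructor
    · rintro ⟨⟨h1, h2⟩, h3⟩
      by_cases h : w < p
      · right; exact ⟨⟨⟨h1, h2⟩, h3⟩, h⟩
      · left; exact ⟨⟨h1, by omega⟩, h3⟩
    · rintro (⟨⟨h1, h2⟩, h3⟩ | ⟨⟨⟨h1, h2⟩, h3⟩, h⟩)
      · exact ⟨⟨h1, by omega⟩, h3⟩
      · exact ⟨⟨h1, h2⟩, h3⟩
  have hdisj : Disjoint (PP w) ((PP u).filter (fun p => w < p)) := by
    rw [Finset.disjoint_left]
    intro p hp hp'
    simp only [PP, mem_filter, mem_Icc] at hp hp'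
    omega
  have hBu : BB u = BB w * ∏ p ∈ (PP u).filter (fun p => w < p), (1 - (p : ℝ)⁻¹)⁻¹ := by
    unfold BB
    conv_lhs => rw [hsplit]
    rw [Finset.prod_union hdisj]
  have hinv : ∏ p ∈ (PP u).filter (fun p => w < p), (1 - (p : ℝ)⁻¹)⁻¹ =
      (∏ p ∈ (PP u).filter (fun p => w < p), (1 - (p : ℝ)⁻¹))⁻¹ := Finset.prod_inv_distrib _
  have hQ : 0 < ∏ p ∈ (PP u).filter (fun p => w < p), (1 - (p : ℝ)⁻¹) :=
    Finset.prod_pos fun p hp => hpos u p (mem_filter.1 hp).1
  rw [hBu, hinv]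
  have h1 := (hBpos w).ne'
  have h2 := hQ.ne'
  field_simp

/-- G (from G1, G2): the covering. -/
theorem G : ∃ C : ℝ, 0 < C ∧ ∀ J w u v : ℕ, 2 ≤ u → w ≤ u → u ≤ v → ∃ c : ℕ → ℕ,
    ((UU J w v c).card : ℝ) ≤
      (((SS u J).card : ℝ) + C * (J * (1 + Real.log (1 + J / v)) / Real.log v)) *
        (BB w / BB u) := by
  classical
  obtain ⟨C, hC, hG2⟩ := G2
  refine ⟨C, hC, fun J w u v hu hwu huv => ?_⟩
  set P : Finset ℕ := (PP u).filter (fun p => w < p) with hPdef
  set U0 : Finset ℕ := (Icc 1 J).filter (fun i => ∀ p : ℕ, p.Prime → u < p → p ≤ v → ¬ p ∣ i)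
    with hU0
  obtain ⟨c1, hc1⟩ := G1 P (by
    intro p hp
    simp only [hPdef, PP, mem_filter, mem_Icc] at hp
    exact hp.1.1.1) U0
  refine ⟨fun p => if u < p then 0 else c1 p, ?_⟩
  have hsub : UU J w v (fun p => if u < p then 0 else c1 p) ⊆
      U0.filter (fun i => ∀ p ∈ P, ¬ i ≡ c1 p [MOD p]) := by
    intro i hi
    simp only [UU, mem_filter] at hi
    obtain ⟨hi1, hi2⟩ := hi
    rw [mem_filter, hU0, mem_filter]
    refine ⟨⟨hi1, fun p hp hup hpv hdvd => ?_⟩, fun p hp hmod => ?_⟩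
    · have := hi2 p hp (by omega) hpv
      rw [if_pos hup] at this
      exact this ((Nat.modEq_zero_iff_dvd).2 hdvd)
    · simp only [hPdef, PP, mem_filter, mem_Icc] at hp
      have := hi2 p hp.1.2 hp.2 (by omega)
      rw [if_neg (by omega)] at this
      exact this hmod
  have h1 : ((UU J w v (fun p => if u < p then 0 else c1 p)).card : ℝ) ≤
      ((U0.filter (fun i => ∀ p ∈ P, ¬ i ≡ c1 p [MOD p])).card : ℝ) := by
    exact_mod_cast Finset.card_le_card hsub
  have hprod := prod_range_BB w u hwu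
  have hnn : 0 ≤ BB w / BB u := by
    rw [← hprod]
    apply Finset.prod_nonneg
    intro p hp
    simp only [PP, mem_filter, mem_Icc] at hp
    have h2 : (1 : ℝ) ≤ p := by exact_mod_cast hp.1.1.1
    have : (p : ℝ)⁻¹ ≤ 1 := inv_le_one_of_one_le₀ h2
    linarith
  refine h1.trans (hc1.trans ?_)
  rw [hPdef, hprod]
  exact mul_le_mul_of_nonneg_right (hG2 J u v (by omega) huv) hnn

/-- Chinese remainder theorem for a finite set of primes, integer residues -/
theorem crt (P : Finset ℕ) (hP : ∀ p ∈ P, p.Prime) (r : ℕ → ℤ) : ∃ α : ℤ, ∀ p ∈ P,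
    (p : ℤ) ∣ α - r p := by
  classical
  induction P using Finset.induction_on with
  | empty => exact ⟨0, by simp⟩
  | insert p P hpP ih =>
    obtain ⟨α, hα⟩ := ih (fun q hq => hP q (mem_insert_of_mem hq))
    have hpp := hP p (mem_insert_self _ _)
    have hcop : Nat.Coprime (∏ q ∈ P, q) p := by
      apply Nat.Coprime.prod_left
      intro q hq
      rw [Nat.coprime_primes (hP q (mem_insert_of_mem hq)) hpp]
      rintro rfl; exact hpP hq
    have hcopZ : IsCoprime ((∏ q ∈ P, q : ℕ) : ℤ) (p : ℤ) := Nat.isCoprime_iff_coprime.2 hcop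
    obtain ⟨a, b, hab⟩ := hcopZ
    -- a * M + b * p = 1
    refine ⟨α + (r p - α) * a * ((∏ q ∈ P, q : ℕ) : ℤ), ?_⟩
    intro q hq
    rcases mem_insert.1 hq with rfl | hq
    · have : α + (r q - α) * a * ((∏ q ∈ P, q : ℕ) : ℤ) - r q = (q : ℤ) * (-(r q - α) * b) := by
        have h1 : a * ((∏ q ∈ P, q : ℕ) : ℤ) = 1 - b * q := by linarith
        calc α + (r q - α) * a * ((∏ q ∈ P, q : ℕ) : ℤ) - r q
            = (α - r q) + (r q - α) * (a * ((∏ q ∈ P, q : ℕ) : ℤ)) := by ring
          _ = _ := by rw [h1]; ring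
      rw [this]; exact dvd_mul_right _ _
    · have h1 : (q : ℤ) ∣ ((∏ q ∈ P, q : ℕ) : ℤ) :=
        Int.natCast_dvd_natCast.2 (Finset.dvd_prod_of_mem _ hq)
      have : α + (r p - α) * a * ((∏ q ∈ P, q : ℕ) : ℤ) - r q =
          (α - r q) + (r p - α) * a * ((∏ q ∈ P, q : ℕ) : ℤ) := by ring
      rw [this]
      exact dvd_add (hα q hq) (Dvd.dvd.mul_left h1 _)

/-- G4: Chinese remainder theorem. -/
theorem G4 (w v H q : ℕ) (c : ℕ → ℕ) : ∃ α : ℤ, ∀ a : ℤ, ((MM w v : ℕ) : ℤ) ∣ a - α →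
    ∀ i : ℕ, ∀ p : ℕ, p.Prime → w < p → p ≤ v → i ≡ c p [MOD p] →
      (p : ℤ) ∣ a + ((i : ℤ) - 1 - H) * q := by
  obtain ⟨α, hα⟩ := crt ((PP v).filter (fun p => w < p)) (by
    intro p hp
    simp only [PP, mem_filter] at hp
    exact hp.1.2) (fun p => (1 + H - c p) * q)
  refine ⟨α, fun a ha i p hp hwp hpv hmod => ?_⟩
  have hmem : p ∈ (PP v).filter (fun p => w < p) := by
    simp only [PP, mem_filter, mem_Icc]
    exact ⟨⟨⟨hp.one_le, hpv⟩, hp⟩, hwp⟩
  have h1 : (p : ℤ) ∣ a - α :=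
    (Int.natCast_dvd_natCast.2 (Finset.dvd_prod_of_mem _ hmem)).trans ha
  have h2 := hα p hmem
  have h3 : (p : ℤ) ∣ (i : ℤ) - c p := by
    have := (Nat.modEq_iff_dvd.1 hmod.symm)
    exact this
  have : a + ((i : ℤ) - 1 - H) * q = (a - α) + (α - (1 + H - c p) * q) + ((i : ℤ) - c p) * q := by
    ring
  rw [this]
  exact dvd_add (dvd_add h1 h2) (Dvd.dvd.mul_right h3 _)

end Pool.Agent.H381R2.HR
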