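import Mathlib
import Pool.Agent.H381R2.HR.Defs
import Pool.Agent.Helper256.KM.Mertens

/-! G3: Rankin's bound for smooth numbers. -/

set_option autoImplicit false

open Finset

namespace Pool.Agent.H381R2.HR

namespace G3aux

/-- the completely multiplicative function `n ↦ n^(-σ)` -/
noncomputable def fs (σ : ℝ) : ℕ →* ℝ where
  toFun n := (n : ℝ) ^ (-σ)
  map_one' := by simp
  map_mul' m n := by
    rw [Nat.cast_mul]
    exact Real.mul_rpow (Nat.cast_nonneg m) (Nat.cast_nonneg n)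

lemma mem_SS {u J s : ℕ} : s ∈ SS u J ↔ (1 ≤ s ∧ s ≤ J) ∧ Sm u s := by
  simp only [SS, mem_filter, mem_Icc]

lemma sum_smooth_le (u J : ℕ) (σ : ℝ) (hσ : 0 < σ) :
    ∑ s ∈ SS u J, (s : ℝ) ^ (-σ) ≤ ∏ p ∈ PP u, (1 - (p : ℝ) ^ (-σ))⁻¹ := by
  have h : ∀ {p : ℕ}, p.Prime → ‖fs σ p‖ < 1 := by
    intro p hp
    have h1 : (1:ℝ) < p := by exact_mod_cast hp.one_lt
    have h2 : ‖fs σ p‖ = (p:ℝ) ^ (-σ) := by
      rw [Real.norm_of_nonneg]
      · rfl
      · exact Real.rpow_nonneg (by positivity) _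
    rw [h2]
    exact Real.rpow_lt_one_of_one_lt_of_neg h1 (by linarith)
  obtain ⟨-, h2⟩ :=
    EulerProduct.summable_and_hasSum_factoredNumbers_prod_filter_prime_geometric h (Icc 1 u)
  have h3 := (hasSum_subtype_iff_indicator (f := fun m : ℕ => fs σ m)
    (s := Nat.factoredNumbers (Icc 1 u))).1 h2
  have h4 := sum_le_hasSum (SS u J) (fun i _ => Set.indicator_nonneg
    (fun x _ => (Real.rpow_nonneg (Nat.cast_nonneg x) _ : (0:ℝ) ≤ fs σ x)) i) h3
  refine le_trans (le_of_eq ?_) h4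
  refine Finset.sum_congr rfl fun s hs => ?_
  have hs := mem_SS.1 hs
  have hmem : s ∈ Nat.factoredNumbers (Icc 1 u) := by
    rw [Nat.mem_factoredNumbers']
    intro p hp hps
    rw [mem_Icc]
    exact ⟨hp.one_lt.le, hs.2.2 p hp hps⟩
  rw [Set.indicator_of_mem hmem]

lemma log_eight : (2:ℝ) < Real.log 8 := by
  have h : Real.log 8 = 3 * Real.log 2 := by
    rw [show (8:ℝ) = 2 ^ 3 by norm_num, Real.log_pow]
    norm_num
  have := Real.log_two_gt_d9
  linarith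

/-- each factor of the Euler product -/
lemma factor_le (u p : ℕ) (hu : 8 ≤ u) (hp : p.Prime) (hpu : p ≤ u) :
    (1 - (p : ℝ) ^ (-(1 - 1 / Real.log u)))⁻¹ ≤ Real.exp (10 * (1 / (p:ℝ))) := by
  have hu8 : (8:ℝ) ≤ u := by exact_mod_cast hu
  have hlu : 2 < Real.log u := lt_of_lt_of_le log_eight (Real.log_le_log (by norm_num) hu8)
  have hp2 : (2:ℝ) ≤ p := by exact_mod_cast hp.two_le
  have hp0 : (0:ℝ) < p := by linarith
  have hpu' : (p:ℝ) ≤ u := by exact_mod_cast hpu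
  set σ : ℝ := 1 - 1 / Real.log u with hσ
  have hinv : 1 / Real.log u < 1 / 2 := by
    apply one_div_lt_one_div_of_lt (by norm_num) hlu
  have hσ2 : 1 / 2 < σ := by rw [hσ]; linarith
  set x : ℝ := (p:ℝ) ^ (-σ) with hx
  have hx0 : 0 < x := Real.rpow_pos_of_pos hp0 _
  -- x ≤ e / p
  have hxe : x ≤ Real.exp 1 * (1 / p) := by
    have h1 : x = (p:ℝ) ^ (-1 : ℝ) * (p:ℝ) ^ (1 / Real.log u) := by
      rw [← Real.rpow_add hp0, hx, hσ]
      congr 1
      ring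
    have h2 : (p:ℝ) ^ (1 / Real.log u) ≤ Real.exp 1 := by
      rw [Real.rpow_def_of_pos hp0]
      apply Real.exp_le_exp.2
      rw [mul_one_div, div_le_one (by linarith)]
      exact Real.log_le_log hp0 hpu'
    rw [h1, Real.rpow_neg_one, mul_comm, ← one_div (p:ℝ)]
    exact mul_le_mul_of_nonneg_right h2 (by positivity)
  -- x ≤ 0.7072
  have hx7 : x ≤ 0.7072 := by
    have h1 : x ≤ (2:ℝ) ^ (-(1/2) : ℝ) := by
      calc x ≤ (2:ℝ) ^ (-σ) := by
            rw [hx]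
            exact Real.rpow_le_rpow_of_nonpos (by norm_num) hp2 (by linarith)
        _ ≤ (2:ℝ) ^ (-(1/2) : ℝ) := Real.rpow_le_rpow_of_exponent_le (by norm_num) (by linarith)
    have h2 : ((2:ℝ) ^ (-(1/2) : ℝ)) ^ 2 = 1 / 2 := by
      rw [← Real.rpow_natCast, ← Real.rpow_mul (by norm_num)]
      norm_num
    have h3 : 0 ≤ (2:ℝ) ^ (-(1/2) : ℝ) := by positivity
    nlinarith
  have h1x : 0 < 1 - x := by linarith
  -- (1-x)⁻¹ ≤ exp (x/(1-x))
  have hA : (1 - x)⁻¹ ≤ Real.exp (x / (1 - x)) := by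
    have h1 := Real.add_one_le_exp (x / (1 - x))
    have h2 : x / (1 - x) + 1 = (1 - x)⁻¹ := by
      field_simp
      ring
    linarith
  refine hA.trans (Real.exp_le_exp.2 ?_)
  have hB : x / (1 - x) ≤ 3.42 * x := by
    rw [div_le_iff₀ h1x]
    nlinarith
  have he := Real.exp_one_lt_d9
  have hip : 0 < 1 / (p:ℝ) := by positivity
  calc x / (1 - x) ≤ 3.42 * x := hB
    _ ≤ 3.42 * (Real.exp 1 * (1 / p)) := by linarith
    _ ≤ 10 * (1 / (p:ℝ)) := by nlinarith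

end G3aux

open G3aux

/-- G3: Rankin's bound for smooth numbers. -/
theorem G3 : ∃ C : ℝ, 0 < C ∧ ∀ J u : ℕ, 8 ≤ u → 1 ≤ J →
    ((SS u J).card : ℝ) ≤
      C * J * Real.exp (-(Real.log J / Real.log u)) * (Real.log u) ^ (10 : ℕ) := by
  obtain ⟨C0, hC0⟩ := Pool.Agent.Helper256.KM.mertens_inv
  refine ⟨Real.exp (10 * C0), Real.exp_pos _, fun J u hu hJ => ?_⟩
  have hu8 : (8:ℝ) ≤ u := by exact_mod_cast hu
  have hlu : 2 < Real.log u := lt_of_lt_of_le log_eight (Real.log_le_log (by norm_num) hu8)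
  have hJ1 : (1:ℝ) ≤ J := by exact_mod_cast hJ
  have hJ0 : (0:ℝ) < J := by linarith
  set σ : ℝ := 1 - 1 / Real.log u with hσ
  have hinv : 1 / Real.log u < 1 / 2 := by
    apply one_div_lt_one_div_of_lt (by norm_num) hlu
  have hσ0 : 0 < σ := by rw [hσ]; linarith
  -- cardinality
  have h1 : ((SS u J).card : ℝ) ≤ (J:ℝ) ^ σ * ∑ s ∈ SS u J, (s : ℝ) ^ (-σ) := by
    rw [Finset.mul_sum, ← nsmul_one, ← Finset.sum_const]
    refine Finset.sum_le_sum fun s hs => ?_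
    have hs := mem_SS.1 hs
    have hs1 : (1:ℝ) ≤ s := by exact_mod_cast hs.1.1
    have hsJ : (s:ℝ) ≤ J := by exact_mod_cast hs.1.2
    have hs0 : (0:ℝ) < s := by linarith
    have h2 : (1:ℝ) = (s:ℝ) ^ σ * (s:ℝ) ^ (-σ) := by
      rw [← Real.rpow_add hs0]; simp
    rw [h2]
    exact mul_le_mul_of_nonneg_right (Real.rpow_le_rpow hs0.le hsJ hσ0.le)
      (Real.rpow_nonneg hs0.le _)
  have h2 : (J:ℝ) ^ σ = J * Real.exp (-(Real.log J / Real.log u)) := by
    rw [hσ, sub_eq_add_neg, Real.rpow_add hJ0, Real.rpow_one, Real.rpow_def_of_pos hJ0]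
    congr 2
    ring
  have h3 : ∏ p ∈ PP u, (1 - (p : ℝ) ^ (-σ))⁻¹ ≤ Real.exp (10 * ∑ p ∈ PP u, 1 / (p:ℝ)) := by
    rw [Finset.mul_sum, Real.exp_sum]
    refine Finset.prod_le_prod (fun p hp => ?_) fun p hp => ?_
    · rw [PP, mem_filter] at hp
      have hp2 : (1:ℝ) < p := by exact_mod_cast hp.2.one_lt
      have := Real.rpow_lt_one_of_one_lt_of_neg hp2 (show -σ < 0 by linarith)
      exact inv_nonneg.2 (by linarith)
    · rw [PP, mem_filter, mem_Icc] at hp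
      exact factor_le u p hu hp.2 hp.1.2
  have h4 : ∑ p ∈ PP u, 1 / (p:ℝ) ≤ Real.log (Real.log u) + C0 := by
    have := (abs_le.1 (hC0 u (by omega))).2
    have h5 : ∑ p ∈ PP u, 1 / (p:ℝ) = ∑ p ∈ (Finset.Icc 1 u).filter Nat.Prime, (1 : ℝ) / p := rfl
    rw [h5]
    linarith
  have h5 : Real.exp (10 * ∑ p ∈ PP u, 1 / (p:ℝ)) ≤ Real.exp (10 * C0) * (Real.log u) ^ (10:ℕ) := by
    calc Real.exp (10 * ∑ p ∈ PP u, 1 / (p:ℝ))
        ≤ Real.exp (10 * C0 + 10 * Real.log (Real.log u)) :=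
          Real.exp_le_exp.2 (by linarith)
      _ = Real.exp (10 * C0) * (Real.log u) ^ (10:ℕ) := by
          rw [Real.exp_add]
          congr 1
          rw [show (10:ℝ) * Real.log (Real.log u) = ((10:ℕ):ℝ) * Real.log (Real.log u) by norm_num,
            Real.exp_nat_mul, Real.exp_log (by linarith)]
  calc ((SS u J).card : ℝ) ≤ (J:ℝ) ^ σ * ∑ s ∈ SS u J, (s : ℝ) ^ (-σ) := h1
    _ ≤ (J:ℝ) ^ σ * (Real.exp (10 * C0) * (Real.log u) ^ (10:ℕ)) := by
        apply mul_le_mul_of_nonneg_left _ (Real.rpow_nonneg hJ0.le _)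
        exact (sum_smooth_le u J σ hσ0).trans (h3.trans h5)
    _ = Real.exp (10 * C0) * J * Real.exp (-(Real.log J / Real.log u)) *
          (Real.log u) ^ (10 : ℕ) := by
        rw [h2]; ring

end Pool.Agent.H381R2.HR
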