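import Mathlib
import Pool.Agent.H381R2.HR.Defs
import Pool.Agent.H381R2.HR.A1
import Pool.Agent.H381R2.HR.A2
import Pool.Agent.H381R2.HR.B
import Pool.Agent.H381R2.HR.C
import Pool.Agent.H381R2.HR.D
import Pool.Agent.H381R2.HR.E
import Pool.Agent.H381R2.HR.F
import Pool.Agent.H381R2.HR.G
import Pool.Agent.H381R2.HR.G3
import Pool.Agent.H381R2.HR.M

set_option autoImplicit false

open Finset

namespace Pool.Agent.H381R2.HR.Asm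

open Pool.Agent.H381R2.HR

theorem pnt2 : PNT2 := Pool.Agent.H381R2.HR.A2 Pool.Agent.H381R2.HR.A1

theorem D2 : ∃ C : ℝ, 0 < C ∧ ∀ N w z t : ℕ, 2 ≤ N → N ≤ z * t → t ^ 2 ≤ N →
    ((XX N w z).card : ℝ) ≤ C * (BB w * N / Real.log N) :=
  Pool.Agent.H381R2.HR.D2 Pool.Agent.H381R2.HR.C5

theorem E : ∃ C : ℝ, 0 < C ∧ ∀ N w z t M q : ℕ, ∀ y β : ℤ, 4 ≤ N → N ≤ z * t → z ≤ q →
    1 ≤ t → 1 ≤ M → (∀ p : ℕ, p.Prime → p ≤ w → ¬ p ∣ M) → (t ^ 2 * M) ^ 2 ≤ N →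
    (((XX N w z).filter (fun n => y ≤ n ∧ n < y + q ∧ (M : ℤ) ∣ n - β)).card : ℝ) ≤
      C * (((M : ℝ) / (Nat.totient M : ℝ)) * BB w * q / (M * Real.log N)) :=
  Pool.Agent.H381R2.HR.E Pool.Agent.H381R2.HR.C5

end Pool.Agent.H381R2.HR.Asm
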