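import Mathlib
import Pool.Agent.H381R2.HR.Defs
import Pool.Agent.H381R2.HR.Glue

set_option autoImplicit false

open Finset

namespace Pool.Agent.H381R2.HR.Asm

open Pool.Agent.H381R2.HR

lemma BB_pos (w : ℕ) : 0 < BB w := by
  unfold BB
  apply Finset.prod_pos
  intro p hp
  have hp2 : p.Prime := (mem_filter.mp hp).2
  have : (1 : ℝ) < p := by exact_mod_cast hp2.one_lt
  have h1 : (p : ℝ)⁻¹ < 1 := inv_lt_one_of_one_lt₀ this
  exact inv_pos.mpr (by linarith)

lemma MM_pos (w v : ℕ) : 0 < MM w v := by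
  unfold MM
  apply Finset.prod_pos
  intro p hp
  exact ((mem_filter.mp (mem_filter.mp hp).1).2).pos

lemma mem_XX {N w z : ℕ} {n : ℤ} : n ∈ XX N w z ↔ (-(N : ℤ) ≤ n ∧ n ≤ N) ∧
    ∃ s l : ℕ, Sm w s ∧ l.Prime ∧ z < l ∧ n.natAbs = s * l := by
  classical
  unfold XX
  rw [mem_filter, mem_Icc]

lemma mem_UU {J w v : ℕ} {c : ℕ → ℕ} {i : ℕ} : i ∈ UU J w v c ↔ i ∈ Icc 1 J ∧
    ∀ p : ℕ, p.Prime → w < p → p ≤ v → ¬ i ≡ c p [MOD p] := by
  classical
  unfold UU
  rw [mem_filter]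

lemma alg1 (A CE g b q M L : ℝ) (hq : q ≠ 0) (hM : M ≠ 0) (hL : L ≠ 0) :
    A * (CE * (g * b * q / (M * L))) * (2 * M / q) = A * (2 * CE * (g * b / L)) := by
  field_simp

lemma alg2 (A CE v w L : ℝ) (hw : w ≠ 0) (hL : L ≠ 0) :
    A * (2 * CE * ((v / w) * w / L)) = A * (2 * CE * (v / L)) := by
  field_simp

lemma alg3 (G S w u CE v L : ℝ) (hu : u ≠ 0) (hL : L ≠ 0) :
    G * S * (w / u) * (2 * CE * (v / L)) = 2 * CE * G * (v * w / (u * L)) * S := by
  field_simp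

/-- selection of a class modulo the prime `q` -/
theorem H_cls : ∃ C : ℝ, 0 < C ∧ ∀ N w u v t z q : ℕ, 4 ≤ N → N ≤ z * t → 1 ≤ t → w ≤ u → u ≤ v →
    2 ≤ u → v ≤ z → z < q → q ≤ N → (t ^ 2 * MM w v) ^ 2 ≤ N → MM w v ≤ q →
    ∃ r : ℤ, ((((XX N w z).filter (fun n => (q : ℤ) ∣ n - r)).card : ℕ) : ℝ) ≤
      C * (BB v * BB w / (BB u * Real.log N)) *
        (((SS u (2 * (N / q + 1))).card : ℝ) +
          ((2 * (N / q + 1) : ℕ) : ℝ) * (1 + Real.log (1 + ((2 * (N / q + 1) : ℕ) : ℝ) / v)) /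
            Real.log v) := by
  obtain ⟨CE, hCE, hE⟩ := E
  obtain ⟨CG, hCG, hG⟩ := G
  refine ⟨2 * CE * (CG + 1), by positivity, ?_⟩
  intro N w u v t z q hN4 hNzt ht hwu huv hu hvz hzq hqN hMN hMq
  set H := N / q + 1 with hH
  set J := 2 * H with hJ
  set M := MM w v with hM
  have hq0 : 0 < q := by omega
  have hM0 : 0 < M := MM_pos w v
  obtain ⟨hMphi, hM4, hMp⟩ := M3 w v (hwu.trans huv)
  obtain ⟨c, hc⟩ := hG J w u v hu hwu huv
  obtain ⟨α, hα⟩ := G4 w v H q c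
  set Ar : ℝ := CE * (((M : ℝ) / (Nat.totient M : ℝ)) * BB w * q / (M * Real.log N)) with hAr
  have hN1 : (1 : ℝ) < N := by
    have : (4 : ℝ) ≤ N := by exact_mod_cast hN4
    linarith
  have hL : 0 < Real.log N := Real.log_pos hN1
  have hMr : (0 : ℝ) < M := by exact_mod_cast hM0
  have hqr : (0 : ℝ) < q := by exact_mod_cast hq0
  have hphi : (0 : ℝ) < Nat.totient M := by exact_mod_cast Nat.totient_pos.mpr hM0
  have hAr0 : 0 ≤ Ar := by
    have := BB_pos w
    positivity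
  have hN' : N < H * q := by
    rw [hH]
    have := Nat.lt_succ_self (N / q)
    exact Nat.lt_mul_of_div_lt (by omega) hq0
  obtain ⟨r, hr⟩ := F (XX N w z) N q H M ⌊Ar⌋₊ α (UU J w v c) hq0 hM0 hMq hN'
    (by
      intro n hn
      exact (mem_XX.mp hn).1)
    (by
      intro a ha i hi hiU hmem
      have hcov : ∃ p : ℕ, p.Prime ∧ w < p ∧ p ≤ v ∧ i ≡ c p [MOD p] := by
        by_contra hcon
        push Not at hcon
        apply hiU
        rw [mem_UU]
        exact ⟨hi, fun p hp h1 h2 => hcon p hp h1 h2⟩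
      obtain ⟨p, hp, h1, h2, h3⟩ := hcov
      have hdvd := hα a ha i p hp h1 h2 h3
      obtain ⟨_, s, l, hs, hl, hzl, hsl⟩ := mem_XX.mp hmem
      have hd2 : p ∣ s * l := by
        rw [← hsl]
        exact Int.natCast_dvd.mp hdvd
      rcases (Nat.Prime.dvd_mul hp).mp hd2 with h4 | h4
      · have := hs.2 p hp h4
        omega
      · have := (Nat.prime_dvd_prime_iff_eq hp hl).mp h4
        omega)
    (by
      intro y β
      have := hE N w z t M q y β hN4 hNzt hzq.le ht hM0 hMp hMN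
      exact Nat.le_floor this)
  refine ⟨r, ?_⟩
  set X := (((XX N w z).filter (fun n => (q : ℤ) ∣ n - r)).card : ℝ) with hX
  have h1 : X * ((q / M : ℕ) : ℝ) ≤ (UU J w v c).card * Ar := by
    have h2 : X * ((q / M : ℕ) : ℝ) ≤ ((UU J w v c).card : ℝ) * (⌊Ar⌋₊ : ℝ) := by
      rw [hX]
      exact_mod_cast hr
    refine h2.trans ?_
    exact mul_le_mul_of_nonneg_left (Nat.floor_le hAr0) (Nat.cast_nonneg _)
  have h2 : (q : ℝ) / (2 * M) ≤ ((q / M : ℕ) : ℝ) := by
    have h3 : 1 ≤ q / M := (Nat.one_le_div_iff hM0).mpr hMq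
    have h4 : q < M * (q / M + 1) := Nat.lt_mul_div_succ q hM0
    have h5 : (q : ℝ) < M * (((q / M : ℕ) : ℝ) + 1) := by exact_mod_cast h4
    have h6 : (1 : ℝ) ≤ ((q / M : ℕ) : ℝ) := by exact_mod_cast h3
    rw [div_le_iff₀ (by positivity)]
    nlinarith
  have hX0 : 0 ≤ X := Nat.cast_nonneg _
  have h3 : X * ((q : ℝ) / (2 * M)) ≤ (UU J w v c).card * Ar :=
    (mul_le_mul_of_nonneg_left h2 hX0).trans h1
  have h4 : X ≤ (UU J w v c).card * (2 * CE * (BB v / Real.log N)) := by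
    have h5 : X = X * ((q : ℝ) / (2 * M)) * (2 * M / q) := by
      have hX' : ∀ y : ℝ, y = y * ((q : ℝ) / (2 * M)) * (2 * M / q) := by
        intro y
        field_simp
      exact hX' X
    rw [h5]
    calc X * ((q : ℝ) / (2 * M)) * (2 * M / q) ≤ (UU J w v c).card * Ar * (2 * M / q) :=
          mul_le_mul_of_nonneg_right h3 (by positivity)
      _ = (UU J w v c).card * (2 * CE * (((M : ℝ) / (Nat.totient M : ℝ)) * BB w / Real.log N)) := by
          rw [hAr]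
          exact alg1 _ _ _ _ _ _ _ hqr.ne' hMr.ne' hL.ne'
      _ = (UU J w v c).card * (2 * CE * (BB v / Real.log N)) := by
          rw [hMphi]
          exact alg2 _ _ _ _ _ (BB_pos w).ne' hL.ne'
  have hBv := BB_pos v
  have hBw := BB_pos w
  have hBu := BB_pos u
  have hv2 : (2 : ℝ) ≤ v := by exact_mod_cast hu.trans huv
  have hlv : 0 < Real.log v := Real.log_pos (by linarith)
  have hlog1 : 0 ≤ Real.log (1 + (J : ℝ) / v) := Real.log_nonneg (by
    have : (0 : ℝ) ≤ (J : ℝ) / v := by positivity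
    linarith)
  have hJ0 : (0 : ℝ) ≤ J := Nat.cast_nonneg _
  have h5 : ((UU J w v c).card : ℝ) ≤ (CG + 1) * (((SS u J).card : ℝ) +
      J * (1 + Real.log (1 + (J : ℝ) / v)) / Real.log v) * (BB w / BB u) := by
    refine hc.trans ?_
    refine mul_le_mul_of_nonneg_right ?_ (by positivity)
    have ha : (0 : ℝ) ≤ ((SS u J).card : ℝ) := Nat.cast_nonneg _
    have hb : 0 ≤ J * (1 + Real.log (1 + (J : ℝ) / v)) / Real.log v := by positivity
    nlinarith
  calc X ≤ (UU J w v c).card * (2 * CE * (BB v / Real.log N)) := h4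
    _ ≤ ((CG + 1) * (((SS u J).card : ℝ) +
      J * (1 + Real.log (1 + (J : ℝ) / v)) / Real.log v) * (BB w / BB u)) *
        (2 * CE * (BB v / Real.log N)) := mul_le_mul_of_nonneg_right h5 (by positivity)
    _ = _ := alg3 _ _ _ _ _ _ _ hBu.ne' hL.ne'

end Pool.Agent.H381R2.HR.Asm
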