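import Mathlib
import Pool.Agent.H381R2.HR.Defs
import Pool.Agent.H381R2.HR.Glue
import Pool.Agent.H381R2.HR.Asy

set_option autoImplicit false

open Filter Topology Finset

namespace Pool.Agent.H381R2.HR.Asm

open Pool.Agent.H381R2.HR

/-- the parameters -/
theorem params {a a' b : ℝ} (ha : 0 < a) (haa : a < a') (hab : a' < b) (hb : b < 1) :
    ∀ᶠ N : ℕ in atTop, ∃ w t u v : ℕ,
      (2 ≤ w ∧ 8 ≤ u ∧ w ≤ u ∧ u ≤ v ∧ v ≤ N / t + 1 ∧ 3 ≤ t) ∧
      (t ^ 2 ≤ N ∧ (t ^ 2 * MM w v) ^ 2 ≤ N) ∧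
      (3 * (2 * Real.log t) ^ w * Real.log N ≤ t ∧ w * Real.log w ≤ Real.log N) ∧
      (a * Real.log (Real.log (Real.log N)) - 1 ≤ Real.log w ∧
        Real.log w ≤ Real.log (Real.log (Real.log N))) ∧
      ((t : ℝ) ≤ 2 * Real.exp ((Real.log (Real.log N)) ^ a') * Real.log N) ∧
      (Real.log N / 12 ≤ v ∧ Real.log v ≤ Real.log (Real.log N)) ∧
      ((Real.log (Real.log N)) ^ b / 2 ≤ Real.log u ∧
        Real.log u ≤ (Real.log (Real.log N)) ^ b) := by
  have hx : Tendsto (fun N : ℕ => Real.log (Real.log (N : ℝ))) atTop atTop :=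
    (Real.tendsto_log_atTop.comp Real.tendsto_log_atTop).comp tendsto_natCast_atTop_atTop
  have hL : Tendsto (fun N : ℕ => Real.log (N : ℝ)) atTop atTop :=
    Real.tendsto_log_atTop.comp tendsto_natCast_atTop_atTop
  have hev1 := hx.eventually (asy1 ha haa (Real.log 3))
  have hev2 := hx.eventually (asy4 hb 2)
  have hev3 := hx.eventually (asy5 11)
  have hev4 := hx.eventually ((tendsto_rpow_atTop ha).eventually_ge_atTop (2 : ℝ))
  have hev5 := hx.eventually ((tendsto_rpow_atTop (show 0 < b by linarith)).eventually_ge_atTop (3 : ℝ))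
  filter_upwards [hev1, hev2, hev3, hev4, hev5, hx.eventually_ge_atTop 1, hL.eventually_ge_atTop 12,
    eventually_ge_atTop 3] with N e1 e2 e3 e4 e5 hx1 hL12 hN3
  set L := Real.log (N : ℝ) with hLdef
  set x := Real.log L with hxdef
  have hL0 : 0 < L := by linarith
  have hx0 : 0 < x := by linarith
  have hNr : (0 : ℝ) < N := by
    have : (3 : ℝ) ≤ N := by exact_mod_cast hN3
    linarith
  have hLx : Real.exp x = L := Real.exp_log hL0
  have hNL : Real.exp L = N := Real.exp_log hNr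
  have ha1 : a ≤ 1 := by linarith
  have hxa : x ^ a ≤ x := by
    calc x ^ a ≤ x ^ (1 : ℝ) := Real.rpow_le_rpow_of_exponent_le hx1 ha1
      _ = x := Real.rpow_one x
  have hxa' : x ^ a' ≤ x := by
    calc x ^ a' ≤ x ^ (1 : ℝ) := Real.rpow_le_rpow_of_exponent_le hx1 (by linarith)
      _ = x := Real.rpow_one x
  have hxab : x ^ a ≤ x ^ b := Real.rpow_le_rpow_of_exponent_le hx1 (by linarith)
  have hxa0 : 0 < x ^ a := by positivity
  have hxa'0 : 0 < x ^ a' := by positivity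
  have hK1 : 1 ≤ Real.exp (x ^ a') := Real.one_le_exp hxa'0.le
  -- w
  have hw_le : ((⌊x ^ a⌋₊ : ℕ) : ℝ) ≤ x ^ a := Nat.floor_le hxa0.le
  have hw_ge : x ^ a / 2 ≤ ((⌊x ^ a⌋₊ : ℕ) : ℝ) := by
    have := Nat.lt_floor_add_one (x ^ a)
    linarith
  have hw2 : 2 ≤ ⌊x ^ a⌋₊ := Nat.le_floor (by exact_mod_cast e4)
  have hw2r : (2 : ℝ) ≤ ((⌊x ^ a⌋₊ : ℕ) : ℝ) := by exact_mod_cast hw2
  -- t
  have hKL : 0 < Real.exp (x ^ a') * L := by positivity
  have ht_ge : Real.exp (x ^ a') * L ≤ ((⌈Real.exp (x ^ a') * L⌉₊ : ℕ) : ℝ) := Nat.le_ceil _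
  have hKL12 : 12 ≤ Real.exp (x ^ a') * L := by nlinarith
  have ht_le : ((⌈Real.exp (x ^ a') * L⌉₊ : ℕ) : ℝ) ≤ 2 * Real.exp (x ^ a') * L := by
    have := Nat.ceil_lt_add_one hKL.le
    linarith
  have ht3 : 3 ≤ ⌈Real.exp (x ^ a') * L⌉₊ := by
    have : (3 : ℝ) ≤ ((⌈Real.exp (x ^ a') * L⌉₊ : ℕ) : ℝ) := by linarith
    exact_mod_cast this
  -- u
  have hexb : 20 ≤ Real.exp (x ^ b) := by
    have h1 : Real.exp 3 ≤ Real.exp (x ^ b) := Real.exp_le_exp.mpr e5
    have h2 : Real.exp 3 = Real.exp 1 ^ 3 := by rw [← Real.exp_nat_mul]; norm_num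
    have h3 : (2.7182818283 : ℝ) < Real.exp 1 := Real.exp_one_gt_d9
    have h4 : (2.7182818283 : ℝ) ^ 3 ≤ Real.exp 1 ^ 3 := pow_le_pow_left₀ (by norm_num) h3.le 3
    have h5 : (20 : ℝ) ≤ (2.7182818283 : ℝ) ^ 3 := by norm_num
    linarith
  have hu_le : ((⌊Real.exp (x ^ b)⌋₊ : ℕ) : ℝ) ≤ Real.exp (x ^ b) := Nat.floor_le (by positivity)
  have hu_ge : Real.exp (x ^ b) / 2 ≤ ((⌊Real.exp (x ^ b)⌋₊ : ℕ) : ℝ) := by
    have := Nat.lt_floor_add_one (Real.exp (x ^ b))
    linarith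
  have hu8 : 8 ≤ ⌊Real.exp (x ^ b)⌋₊ := Nat.le_floor (by push_cast; linarith)
  -- v
  have hv_le : ((⌊L / 6⌋₊ : ℕ) : ℝ) ≤ L / 6 := Nat.floor_le (by positivity)
  have hv_ge : L / 12 ≤ ((⌊L / 6⌋₊ : ℕ) : ℝ) := by
    have := Nat.lt_floor_add_one (L / 6)
    linarith
  set w := ⌊x ^ a⌋₊ with hw
  set t := ⌈Real.exp (x ^ a') * L⌉₊ with ht
  set u := ⌊Real.exp (x ^ b)⌋₊ with hu
  set v := ⌊L / 6⌋₊ with hv
  have htr : (0 : ℝ) < t := by linarith
  have hwu : w ≤ u := Nat.floor_mono (by linarith [Real.add_one_le_exp (x ^ b)])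
  have huv : u ≤ v := by
    apply Nat.floor_mono
    have h1 : x ^ b + 2 ≤ x := by linarith
    have h2 : Real.exp (x ^ b) * Real.exp 2 ≤ Real.exp x := by
      rw [← Real.exp_add]; exact Real.exp_le_exp.mpr h1
    have h3 : (6 : ℝ) ≤ Real.exp 2 := by
      have h2 : Real.exp 2 = Real.exp 1 ^ 2 := by rw [← Real.exp_nat_mul]; norm_num
      have h3 : (2.7182818283 : ℝ) < Real.exp 1 := Real.exp_one_gt_d9
      have h4 : (2.7182818283 : ℝ) ^ 2 ≤ Real.exp 1 ^ 2 := pow_le_pow_left₀ (by norm_num) h3.le 2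
      have h5 : (6 : ℝ) ≤ (2.7182818283 : ℝ) ^ 2 := by norm_num
      linarith
    rw [hLx] at h2
    have h4 : 0 < Real.exp (x ^ b) := Real.exp_pos _
    rw [le_div_iff₀ (by norm_num)]
    nlinarith
  -- the big inequality
  have hMM4 : MM w v ≤ 4 ^ v := (M3 w v (hwu.trans huv)).2.1
  have hlog2 : Real.log 2 ≤ 0.7 := by linarith [Real.log_two_lt_d9]
  have hbig : (((t : ℕ) : ℝ) ^ 2 * (MM w v : ℕ)) ^ 2 ≤ N := by
    have h1 : ((MM w v : ℕ) : ℝ) ≤ Real.exp (L / 6 * Real.log 4) := by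
      have h2 : ((MM w v : ℕ) : ℝ) ≤ (4 : ℝ) ^ v := by exact_mod_cast hMM4
      refine h2.trans ?_
      rw [← Real.rpow_natCast, Real.rpow_def_of_pos (by norm_num), mul_comm]
      apply Real.exp_le_exp.mpr
      exact mul_le_mul_of_nonneg_right hv_le (Real.log_nonneg (by norm_num))
    have h3 : (t : ℝ) ≤ Real.exp (1 + x ^ a' + x) := by
      have h4 : Real.exp (1 + x ^ a' + x) = Real.exp 1 * Real.exp (x ^ a') * L := by
        rw [Real.exp_add, Real.exp_add, hLx]
      rw [h4]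
      refine ht_le.trans ?_
      have h5 : (2 : ℝ) ≤ Real.exp 1 := by linarith [Real.exp_one_gt_d9]
      have h6 : 0 < Real.exp (x ^ a') * L := hKL
      nlinarith
    have h4 : ((t : ℕ) : ℝ) ^ 2 * (MM w v : ℕ) ≤
        Real.exp (1 + x ^ a' + x) ^ 2 * Real.exp (L / 6 * Real.log 4) := by
      apply mul_le_mul (pow_le_pow_left₀ htr.le h3 2) h1 (Nat.cast_nonneg _) (by positivity)
    have h5 : (((t : ℕ) : ℝ) ^ 2 * (MM w v : ℕ)) ^ 2 ≤
        (Real.exp (1 + x ^ a' + x) ^ 2 * Real.exp (L / 6 * Real.log 4)) ^ 2 :=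
      pow_le_pow_left₀ (by positivity) h4 2
    refine h5.trans ?_
    rw [← Real.exp_nat_mul, ← Real.exp_add, ← Real.exp_nat_mul, ← hNL]
    apply Real.exp_le_exp.mpr
    have h6 : Real.log 4 = 2 * Real.log 2 := by
      rw [show (4 : ℝ) = 2 ^ 2 by norm_num, Real.log_pow]; norm_num
    rw [h6]
    push_cast
    have h7 : 11 * x ≤ Real.exp (x / 4) := e3
    have h8 : Real.exp (x / 4) * 2 ≤ L := by
      have h9 : Real.exp (x / 4) ≤ Real.exp x / 2 := by
        have h10 : Real.exp x = Real.exp (x / 4) * Real.exp (3 * x / 4) := by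
          rw [← Real.exp_add]; congr 1; ring
        have h11 : (2 : ℝ) ≤ Real.exp (3 * x / 4) := by
          have h12 : (3 * x / 4) + 1 ≤ Real.exp (3 * x / 4) := Real.add_one_le_exp _
          have h13 : (4 : ℝ) ≤ x := by
            by_contra hcon
            push Not at hcon
            have h14 : x ≤ 4 := hcon.le
            have h15 : (2 : ℝ) + x ^ b ≤ x / 4 := e2
            linarith [show (0 : ℝ) < x ^ b by positivity]
          linarith
        rw [h10]
        have h12 : 0 < Real.exp (x / 4) := Real.exp_pos _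
        nlinarith
      rw [hLx] at h9
      linarith
    have h9 : 2 * (2 * (1 + x ^ a' + x) + L / 6 * (2 * Real.log 2)) ≤ 4 + 8 * x + L * (1.4 / 3) := by
      nlinarith
    refine h9.trans ?_
    nlinarith
  have hbigN : (t ^ 2 * MM w v) ^ 2 ≤ N := by exact_mod_cast hbig
  have hMM1 : 1 ≤ MM w v := by
    have : 0 < MM w v := by
      unfold MM
      apply Finset.prod_pos
      intro p hp
      exact ((mem_filter.mp (mem_filter.mp hp).1).2).pos
    omega
  have htN : t ^ 2 ≤ N := by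
    calc t ^ 2 ≤ t ^ 2 * MM w v := Nat.le_mul_of_pos_right _ hMM1
      _ ≤ (t ^ 2 * MM w v) ^ 2 := Nat.le_self_pow (by norm_num) _
      _ ≤ N := hbigN
  have hvt : v ≤ N / t + 1 := by
    have h1 : v ≤ t := by
      have h2 : (v : ℝ) ≤ t := by
        have : L ≤ Real.exp (x ^ a') * L := le_mul_of_one_le_left hL0.le hK1
        linarith
      exact_mod_cast h2
    have h2 : v ≤ N / t := by
      rw [Nat.le_div_iff_mul_le (by omega)]
      calc v * t ≤ t * t := Nat.mul_le_mul_right _ h1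
        _ = t ^ 2 := by ring
        _ ≤ N := htN
    omega
  have hlogt : 2 * Real.log t ≤ 6 * x := by
    have h1 : Real.log t ≤ Real.log (2 * Real.exp (x ^ a') * L) := Real.log_le_log htr ht_le
    rw [Real.log_mul (by positivity) hL0.ne', Real.log_mul (by norm_num) (by positivity),
      Real.log_exp] at h1
    linarith
  have hlogt0 : 0 ≤ Real.log t := Real.log_nonneg (by
    have : (3 : ℝ) ≤ t := by exact_mod_cast ht3
    linarith)
  refine ⟨w, t, u, v, ⟨hw2, hu8, hwu, huv, hvt, ht3⟩, ⟨htN, hbigN⟩, ⟨?_, ?_⟩, ⟨?_, ?_⟩, ht_le,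
    ⟨hv_ge, ?_⟩, ⟨?_, ?_⟩⟩
  · have h1 : (2 * Real.log t) ^ w ≤ Real.exp (x ^ a * Real.log (6 * x)) := by
      calc (2 * Real.log t) ^ w ≤ (6 * x) ^ w := pow_le_pow_left₀ (by positivity) hlogt w
        _ = (6 * x) ^ (w : ℝ) := (Real.rpow_natCast _ _).symm
        _ ≤ (6 * x) ^ (x ^ a) := Real.rpow_le_rpow_of_exponent_le (by linarith) hw_le
        _ = Real.exp (x ^ a * Real.log (6 * x)) := by
            rw [Real.rpow_def_of_pos (by positivity), mul_comm]
    have h2 : 3 * (2 * Real.log t) ^ w ≤ Real.exp (x ^ a') := by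
      calc 3 * (2 * Real.log t) ^ w ≤ 3 * Real.exp (x ^ a * Real.log (6 * x)) := by linarith
        _ = Real.exp (Real.log 3 + x ^ a * Real.log (6 * x)) := by
            rw [Real.exp_add, Real.exp_log (by norm_num)]
        _ ≤ Real.exp (x ^ a') := Real.exp_le_exp.mpr e1
    calc 3 * (2 * Real.log t) ^ w * L ≤ Real.exp (x ^ a') * L :=
          mul_le_mul_of_nonneg_right h2 hL0.le
      _ ≤ t := ht_ge
  · have h1 : Real.log w ≤ x := by
      have h2 : Real.log w ≤ (w : ℝ) - 1 := Real.log_le_sub_one_of_pos (by linarith)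
      linarith
    have h2 : (0 : ℝ) ≤ Real.log w := Real.log_nonneg (by linarith)
    have h3 : x ≤ Real.exp (x / 4) := by linarith
    calc (w : ℝ) * Real.log w ≤ x * x := mul_le_mul (by linarith) h1 h2 hx0.le
      _ ≤ Real.exp (x / 4) * Real.exp (x / 4) := mul_le_mul h3 h3 hx0.le (by positivity)
      _ = Real.exp (x / 4 + x / 4) := (Real.exp_add _ _).symm
      _ ≤ Real.exp x := Real.exp_le_exp.mpr (by linarith)
      _ = L := hLx
  · have h1 : Real.log (x ^ a / 2) ≤ Real.log w := Real.log_le_log (by positivity) hw_ge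
    rw [Real.log_div (by positivity) (by norm_num), Real.log_rpow hx0] at h1
    linarith
  · exact Real.log_le_log (by linarith) (by linarith)
  · exact Real.log_le_log (by linarith) (by linarith)
  · have h1 : Real.log (Real.exp (x ^ b) / 2) ≤ Real.log u := Real.log_le_log (by positivity) hu_ge
    rw [Real.log_div (by positivity) (by norm_num), Real.log_exp] at h1
    linarith
  · have h1 : Real.log u ≤ Real.log (Real.exp (x ^ b)) := Real.log_le_log (by linarith) hu_le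
    rwa [Real.log_exp] at h1

end Pool.Agent.H381R2.HR.Asm
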