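import Mathlib
import Pool.Agent.H381R2.HR.Defs
import Pool.Agent.H381R2.HR.Glue

set_option autoImplicit false

open Finset

namespace Pool.Agent.H381R2.HR.Asm

open Pool.Agent.H381R2.HR

lemma cc_nonneg {P : Finset ℕ} (hP : ∀ p ∈ P, p.Prime) (s : ℕ) : 0 ≤ cc P s := by
  unfold cc
  apply Finset.prod_nonneg
  intro p hp
  have h2 : (2 : ℝ) ≤ p := by exact_mod_cast (hP p hp).two_le
  split_ifs
  · norm_num
  · exact div_nonneg (by linarith) (by linarith)

lemma cc_le_one {P : Finset ℕ} (hP : ∀ p ∈ P, p.Prime) (s : ℕ) : cc P s ≤ 1 := by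
  unfold cc
  apply Finset.prod_le_one
  · intro p hp
    have h2 : (2 : ℝ) ≤ p := by exact_mod_cast (hP p hp).two_le
    split_ifs
    · norm_num
    · exact div_nonneg (by linarith) (by linarith)
  · intro p hp
    have h2 : (2 : ℝ) ≤ p := by exact_mod_cast (hP p hp).two_le
    split_ifs
    · norm_num
    · rw [div_le_one (by linarith)]; linarith

lemma PP_prime (w : ℕ) : ∀ p ∈ PP w, p.Prime := fun p hp => (mem_filter.mp hp).2

lemma mem_SS {w t s : ℕ} : s ∈ SS w t ↔ s ∈ Icc 1 t ∧ Sm w s := by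
  classical
  unfold SS
  rw [mem_filter]

/-- lower bound for `π(N/s)` -/
lemma pi_lower (C0 : ℝ) (hC0 : 0 < C0) (h0 : ∀ x : ℝ, 2 ≤ x →
    |(Nat.primeCounting ⌊x⌋₊ : ℝ) - x / Real.log x| ≤ C0 * (x / (Real.log x) ^ 2))
    (N s t : ℕ) (hs : 1 ≤ s) (hst : s ≤ t) (ht : 3 ≤ t) (htN : t ^ 2 ≤ N) :
    (N : ℝ) / s * (1 / Real.log N) + (N : ℝ) / s * (Real.log s / (Real.log N) ^ 2) -
      4 * C0 * ((N : ℝ) / s * (1 / (Real.log N) ^ 2)) ≤ (Nat.primeCounting (N / s) : ℝ) := by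
  have hs0 : (0 : ℝ) < s := by exact_mod_cast hs
  have hsr1 : (1 : ℝ) ≤ s := by exact_mod_cast hs
  have ht0 : (3 : ℝ) ≤ t := by exact_mod_cast ht
  have hstr : (s : ℝ) ≤ t := by exact_mod_cast hst
  have htNr : (t : ℝ) ^ 2 ≤ N := by exact_mod_cast htN
  have hN9 : (9 : ℝ) ≤ N := by nlinarith
  have hN0 : (0 : ℝ) < N := by linarith
  set L := Real.log N with hL
  have hL0 : 0 < L := Real.log_pos (by linarith)
  have hls : Real.log s ≤ L / 2 := by
    have h1 : Real.log s ≤ Real.log t := Real.log_le_log hs0 hstr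
    have h2 : 2 * Real.log t ≤ L := by
      have : Real.log ((t : ℝ) ^ 2) ≤ L := Real.log_le_log (by positivity) htNr
      rwa [Real.log_pow, Nat.cast_ofNat] at this
    linarith
  have hls0 : 0 ≤ Real.log s := Real.log_nonneg hsr1
  set x : ℝ := (N : ℝ) / s with hx
  have hx3 : 3 ≤ x := by
    rw [hx, le_div_iff₀ hs0]
    nlinarith
  have hx0 : 0 < x := by linarith
  have hlx : Real.log x = L - Real.log s := by
    rw [hx, Real.log_div hN0.ne' hs0.ne']
  have hfl : ⌊x⌋₊ = N / s := by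
    rw [hx]
    exact Nat.floor_div_eq_div N s
  have h1 := h0 x (by linarith)
  rw [hfl] at h1
  have h2 := (abs_le.mp h1).1
  have hlx2 : L / 2 ≤ Real.log x := by rw [hlx]; linarith
  have hlx0 : 0 < Real.log x := by linarith
  have h3 : C0 * (x / (Real.log x) ^ 2) ≤ 4 * C0 * (x * (1 / L ^ 2)) := by
    have h4 : x / (Real.log x) ^ 2 ≤ x / (L / 2) ^ 2 := by
      apply div_le_div_of_nonneg_left hx0.le (by positivity)
      exact pow_le_pow_left₀ (by positivity) hlx2 2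
    calc C0 * (x / (Real.log x) ^ 2) ≤ C0 * (x / (L / 2) ^ 2) := mul_le_mul_of_nonneg_left h4 hC0.le
      _ = 4 * C0 * (x * (1 / L ^ 2)) := by field_simp; ring
  have h5 : x * (1 / L) + x * (Real.log s / L ^ 2) ≤ x / Real.log x := by
    have h6 : 1 / L + Real.log s / L ^ 2 ≤ 1 / Real.log x := by
      rw [hlx, div_add_div _ _ hL0.ne' (by positivity), div_le_div_iff₀ (by positivity) (by linarith)]
      nlinarith [mul_nonneg hls0 hls0, mul_pos hL0 hL0]
    calc x * (1 / L) + x * (Real.log s / L ^ 2) = x * (1 / L + Real.log s / L ^ 2) := by ring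
      _ ≤ x * (1 / Real.log x) := mul_le_mul_of_nonneg_left h6 hx0.le
      _ = x / Real.log x := by ring
  linarith

/-- upper bound for `π(z)` -/
lemma pi_upper (C0 : ℝ) (hC0 : 0 < C0) (h0 : ∀ x : ℝ, 2 ≤ x →
    |(Nat.primeCounting ⌊x⌋₊ : ℝ) - x / Real.log x| ≤ C0 * (x / (Real.log x) ^ 2))
    (N t : ℕ) (ht : 3 ≤ t) (htN : t ^ 2 ≤ N) :
    (Nat.primeCounting (N / t + 1) : ℝ) ≤ (4 + 8 * C0) * ((N : ℝ) / (t * Real.log N)) := by
  have ht0 : (3 : ℝ) ≤ t := by exact_mod_cast ht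
  have htNr : (t : ℝ) ^ 2 ≤ N := by exact_mod_cast htN
  have hN9 : (9 : ℝ) ≤ N := by nlinarith
  have hN0 : (0 : ℝ) < N := by linarith
  set L := Real.log N with hL
  have hL0 : 0 < L := Real.log_pos (by linarith)
  have hL2 : 2 ≤ L := by
    have h1 : Real.log 9 ≤ L := Real.log_le_log (by norm_num) hN9
    have h2 : Real.log 9 = 2 * Real.log 3 := by
      rw [show (9 : ℝ) = 3 ^ 2 by norm_num, Real.log_pow]; norm_num
    have h3 : 1 < Real.log 3 := by
      rw [Real.lt_log_iff_exp_lt (by norm_num)]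
      exact Real.exp_one_lt_three
    linarith
  set z := N / t + 1 with hz
  have hzlow : (N : ℝ) / t ≤ z := by
    have h1 : N < t * (N / t + 1) := Nat.lt_mul_div_succ N (by omega)
    have h2 : (N : ℝ) < t * (z : ℝ) := by exact_mod_cast h1
    rw [div_le_iff₀ (by linarith)]
    linarith [mul_comm (t : ℝ) z]
  have hzup : (z : ℝ) ≤ 2 * ((N : ℝ) / t) := by
    have h1 : ((N / t : ℕ) : ℝ) ≤ (N : ℝ) / t := Nat.cast_div_le
    have h2 : (1 : ℝ) ≤ (N : ℝ) / t := by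
      rw [le_div_iff₀ (by linarith)]
      nlinarith
    rw [hz]
    push_cast
    linarith
  have hlz : L / 2 ≤ Real.log z := by
    have h1 : (t : ℝ) ≤ (N : ℝ) / t := by
      rw [le_div_iff₀ (by linarith)]
      nlinarith
    have h2 : Real.log ((N : ℝ) / t) ≤ Real.log z := Real.log_le_log (by positivity) hzlow
    rw [Real.log_div hN0.ne' (by linarith)] at h2
    have h3 : 2 * Real.log t ≤ L := by
      have : Real.log ((t : ℝ) ^ 2) ≤ L := Real.log_le_log (by positivity) htNr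
      rwa [Real.log_pow, Nat.cast_ofNat] at this
    linarith
  have hz3 : (3 : ℝ) ≤ z := by
    have h1 : (t : ℝ) ≤ (N : ℝ) / t := by
      rw [le_div_iff₀ (by linarith)]
      nlinarith
    linarith
  have h1 := h0 (z : ℝ) (by linarith)
  rw [Nat.floor_natCast] at h1
  have h2 := (abs_le.mp h1).2
  have hlz0 : 0 < Real.log z := by linarith
  have hNt : 0 < (N : ℝ) / t := by positivity
  have h3 : (z : ℝ) / Real.log z ≤ 4 * ((N : ℝ) / t / L) := by
    calc (z : ℝ) / Real.log z ≤ 2 * ((N : ℝ) / t) / (L / 2) :=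
          div_le_div₀ (by positivity) hzup (by linarith) hlz
      _ = 4 * ((N : ℝ) / t / L) := by field_simp; ring
  have h4 : (z : ℝ) / (Real.log z) ^ 2 ≤ 8 * ((N : ℝ) / t / L) := by
    calc (z : ℝ) / (Real.log z) ^ 2 ≤ 2 * ((N : ℝ) / t) / (L / 2) ^ 2 :=
          div_le_div₀ (by positivity) hzup (by positivity) (pow_le_pow_left₀ (by linarith) hlz 2)
      _ = 8 * ((N : ℝ) / t / L) / L := by field_simp; ring
      _ ≤ 8 * ((N : ℝ) / t / L) := div_le_self (by positivity) (by linarith)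
  have h5 : (N : ℝ) / (t * L) = (N : ℝ) / t / L := by rw [div_div]
  rw [h5]
  have h6 : C0 * ((z : ℝ) / (Real.log z) ^ 2) ≤ C0 * (8 * ((N : ℝ) / t / L)) :=
    mul_le_mul_of_nonneg_left h4 hC0.le
  linarith

/-- the main term -/
theorem part1 (hP : PNT2) : ∃ C : ℝ, 0 < C ∧ ∀ N w t : ℕ, 2 ≤ w → 3 ≤ t → t ^ 2 ≤ N →
    w ≤ N / t + 1 → 3 * (2 * Real.log t) ^ w * Real.log N ≤ t →
    w * Real.log w ≤ Real.log N →
    2 * (N : ℝ) / Real.log N + 2 * (N : ℝ) / (Real.log N) ^ 2 * (Real.log w - C) ≤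
      ∑ n ∈ XX N w (N / t + 1), cc (PP w) n.natAbs := by
  obtain ⟨C0, hC0, h0⟩ := hP
  obtain ⟨C7', hC7, h7⟩ := C7
  refine ⟨C7' + 2 + 4 * C0 + (4 + 8 * C0), by positivity, ?_⟩
  intro N w t hw ht htN hwz hsm hwl
  refine le_trans ?_ (D1 N w (N / t + 1) t hwz)
  obtain ⟨h6a, h6b⟩ := C6 w t ht
  have h7' := h7 w t hw ht
  have ht0 : (3 : ℝ) ≤ t := by exact_mod_cast ht
  have htNr : (t : ℝ) ^ 2 ≤ N := by exact_mod_cast htN
  have hN9 : (9 : ℝ) ≤ N := by nlinarith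
  have hN0 : (0 : ℝ) < N := by linarith
  set L := Real.log N with hL
  have hL0 : 0 < L := Real.log_pos (by linarith)
  set τ : ℝ := 3 * (2 * Real.log t) ^ w / t with hτ
  have hτL : τ ≤ 1 / L := by
    rw [hτ, div_le_div_iff₀ (by linarith) hL0]
    linarith
  have hlt : 0 ≤ Real.log t := Real.log_nonneg (by linarith)
  have hτ0 : 0 ≤ τ := by positivity
  have hcard := C4 w t ht
  have hcc := fun s => cc_nonneg (PP_prime w) s
  have hpz := pi_upper C0 hC0 h0 N t ht htN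
  set S1 := ∑ s ∈ SS w t, cc (PP w) s / s with hS1
  set S2 := ∑ s ∈ SS w t, cc (PP w) s * Real.log s / s with hS2
  set S0 := ∑ s ∈ SS w t, cc (PP w) s with hS0
  have hS0le : S0 ≤ 3 * (2 * Real.log t) ^ w := by
    refine le_trans ?_ hcard
    rw [hS0, Finset.card_eq_sum_ones]
    push_cast
    exact Finset.sum_le_sum fun s _ => cc_le_one (PP_prime w) s
  have hS00 : 0 ≤ S0 := Finset.sum_nonneg fun s _ => hcc s
  -- termwise
  have hterm : (N : ℝ) / L * S1 + (N : ℝ) / L ^ 2 * S2 - 4 * C0 * ((N : ℝ) / L ^ 2) * S1 -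
      (Nat.primeCounting (N / t + 1) : ℝ) * S0 ≤
      ∑ s ∈ SS w t, cc (PP w) s *
        ((Nat.primeCounting (N / s) : ℝ) - Nat.primeCounting (N / t + 1)) := by
    rw [hS1, hS2, hS0, Finset.mul_sum, Finset.mul_sum, Finset.mul_sum, Finset.mul_sum,
      ← Finset.sum_add_distrib, ← Finset.sum_sub_distrib, ← Finset.sum_sub_distrib]
    apply Finset.sum_le_sum
    intro s hs
    obtain ⟨hs1, hs2⟩ := mem_SS.mp hs
    rw [mem_Icc] at hs1
    have hp := pi_lower C0 hC0 h0 N s t hs1.1 hs1.2 ht htN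
    have hs0 : (0 : ℝ) < s := by exact_mod_cast hs1.1
    have h8 := mul_le_mul_of_nonneg_left hp (hcc s)
    have h9 : cc (PP w) s * ((N : ℝ) / s * (1 / L) + (N : ℝ) / s * (Real.log s / L ^ 2) -
        4 * C0 * ((N : ℝ) / s * (1 / L ^ 2))) =
        (N : ℝ) / L * (cc (PP w) s / s) + (N : ℝ) / L ^ 2 * (cc (PP w) s * Real.log s / s) -
        4 * C0 * ((N : ℝ) / L ^ 2) * (cc (PP w) s / s) := by
      field_simp
    rw [h9] at h8
    linarith
  have hA : (N : ℝ) / L - (N : ℝ) / L ^ 2 ≤ (N : ℝ) / L * S1 := by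
    have h8 : (N : ℝ) / L * (1 - 1 / L) ≤ (N : ℝ) / L * S1 :=
      mul_le_mul_of_nonneg_left (by linarith) (by positivity)
    have h9 : (N : ℝ) / L * (1 - 1 / L) = (N : ℝ) / L - (N : ℝ) / L ^ 2 := by
      field_simp
    linarith
  have hB : (N : ℝ) / L ^ 2 * (Real.log w - C7' - 1) ≤ (N : ℝ) / L ^ 2 * S2 := by
    apply mul_le_mul_of_nonneg_left _ (by positivity)
    have h8 : w * Real.log w * τ ≤ 1 := by
      have hw1 : (1 : ℝ) ≤ w := by exact_mod_cast (by omega : 1 ≤ w)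
      have hlw : 0 ≤ Real.log w := Real.log_nonneg hw1
      calc w * Real.log w * τ ≤ L * (1 / L) :=
            mul_le_mul hwl hτL hτ0 hL0.le
        _ = 1 := by field_simp
    linarith
  have hCC : 4 * C0 * ((N : ℝ) / L ^ 2) * S1 ≤ 4 * C0 * ((N : ℝ) / L ^ 2) := by
    have : 4 * C0 * ((N : ℝ) / L ^ 2) * S1 ≤ 4 * C0 * ((N : ℝ) / L ^ 2) * 1 :=
      mul_le_mul_of_nonneg_left h6b (by positivity)
    linarith
  have hD : (Nat.primeCounting (N / t + 1) : ℝ) * S0 ≤ (4 + 8 * C0) * ((N : ℝ) / L ^ 2) := by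
    calc (Nat.primeCounting (N / t + 1) : ℝ) * S0
        ≤ ((4 + 8 * C0) * ((N : ℝ) / (t * L))) * (3 * (2 * Real.log t) ^ w) :=
          mul_le_mul hpz hS0le hS00 (by positivity)
      _ = (4 + 8 * C0) * ((N : ℝ) / L * τ) := by
          rw [hτ]; field_simp
      _ ≤ (4 + 8 * C0) * ((N : ℝ) / L * (1 / L)) := by
          apply mul_le_mul_of_nonneg_left _ (by positivity)
          exact mul_le_mul_of_nonneg_left hτL (by positivity)
      _ = (4 + 8 * C0) * ((N : ℝ) / L ^ 2) := by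
          field_simp
  have hfin : 2 * (N : ℝ) / L + 2 * (N : ℝ) / L ^ 2 *
      (Real.log w - (C7' + 2 + 4 * C0 + (4 + 8 * C0))) =
      2 * (((N : ℝ) / L - (N : ℝ) / L ^ 2) + (N : ℝ) / L ^ 2 * (Real.log w - C7' - 1) -
        4 * C0 * ((N : ℝ) / L ^ 2) - (4 + 8 * C0) * ((N : ℝ) / L ^ 2)) := by
    ring
  rw [hfin]
  apply mul_le_mul_of_nonneg_left _ (by norm_num)
  linarith

end Pool.Agent.H381R2.HR.Asm
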