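import Mathlib
import Pool.Agent.H381R2.HR.Defs
import Pool.Agent.H381R2.HR.Glue
import Pool.Agent.H381R2.HR.Cls
import Pool.Agent.H381R2.HR.Asy

set_option autoImplicit false

open Filter Topology Finset

namespace Pool.Agent.H381R2.HR.Asm

open Pool.Agent.H381R2.HR

/-- cost of one prime `q`, in terms of `x = log log N` -/
theorem part2 {a' b : ℝ} (ha' : 0 < a') (hab : a' < b) (hb : b < 1) (D : ℝ) (hD : 0 < D) :
    ∃ C : ℝ, 0 < C ∧ ∀ᶠ N : ℕ in atTop, ∀ w t u v : ℕ,
      (2 ≤ w ∧ 8 ≤ u ∧ w ≤ u ∧ u ≤ v ∧ v ≤ N / t + 1 ∧ 3 ≤ t) →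
      (t ^ 2 ≤ N ∧ (t ^ 2 * MM w v) ^ 2 ≤ N) →
      (Real.log w ≤ Real.log (Real.log (Real.log N))) →
      ((t : ℝ) ≤ 2 * Real.exp ((Real.log (Real.log N)) ^ a') * Real.log N) →
      (Real.log N / 12 ≤ v ∧ Real.log v ≤ Real.log (Real.log N)) →
      ((Real.log (Real.log N)) ^ b / 2 ≤ Real.log u ∧
        Real.log u ≤ (Real.log (Real.log N)) ^ b) →
      ∀ q : ℕ, N / t + 1 < q → (q : ℝ) ≤ D * Real.log (Real.log (Real.log N)) * N / Real.log N →
      ∃ r : ℤ, ((((XX N w (N / t + 1)).filter (fun n => (q : ℤ) ∣ n - r)).card : ℕ) : ℝ) ≤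
        C * (Real.log (Real.log (Real.log N)) * (Real.log (Real.log N)) ^ (a' - b)) *
          ((N : ℝ) / Real.log N) * (1 / q) := by
  obtain ⟨Cc, hCc, hcls⟩ := H_cls
  obtain ⟨C1, hC1, hM1⟩ := M1
  obtain ⟨C3, hC3, hG3⟩ := G3
  refine ⟨64 * Cc * C1 ^ 2, by positivity, ?_⟩
  have hx : Tendsto (fun N : ℕ => Real.log (Real.log (N : ℝ))) atTop atTop :=
    (Real.tendsto_log_atTop.comp Real.tendsto_log_atTop).comp tendsto_natCast_atTop_atTop
  have hL : Tendsto (fun N : ℕ => Real.log (N : ℝ)) atTop atTop :=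
    Real.tendsto_log_atTop.comp tendsto_natCast_atTop_atTop
  have hev1 := hx.eventually (asy5 (2 * D + 2))
  have hev2 := hx.eventually (asy3 (show 0 < 1 - b by linarith) C3 11)
  filter_upwards [hev1, hev2, hx.eventually_ge_atTop 3, hL.eventually_ge_atTop 12,
    eventually_ge_atTop 4] with N e1 e2 hx3 hL12 hN4
  intro w t u v ⟨hw2, hu8, hwu, huv, hvz, ht3⟩ ⟨htN, hMN⟩ hlw htle ⟨hvge, hlv⟩ ⟨hlu1, hlu2⟩ q hzq hqD
  set L := Real.log (N : ℝ) with hLdef
  set x := Real.log L with hxdef
  have hL0 : 0 < L := by linarith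
  have hx0 : 0 < x := by linarith
  have hN4r : (4 : ℝ) ≤ N := by exact_mod_cast hN4
  have hNr : (0 : ℝ) < N := by linarith
  have hLx : Real.exp x = L := Real.exp_log hL0
  have hlx : 1 ≤ Real.log x := by
    rw [Real.le_log_iff_exp_le hx0]
    linarith [Real.exp_one_lt_three]
  have hlxx : Real.log x ≤ x := by
    have := Real.log_le_sub_one_of_pos hx0
    linarith
  have hMMpos : 0 < MM w v := MM_pos w v
  have ht0 : 0 < t := by omega
  have htr : (0 : ℝ) < t := by exact_mod_cast ht0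
  have hMt : MM w v * t ≤ N := by
    calc MM w v * t ≤ MM w v * t ^ 2 :=
          Nat.mul_le_mul_left _ (Nat.le_self_pow (by norm_num) t)
      _ = t ^ 2 * MM w v := mul_comm _ _
      _ ≤ (t ^ 2 * MM w v) ^ 2 := Nat.le_self_pow (by norm_num) _
      _ ≤ N := hMN
  have hMq : MM w v ≤ q := by
    have : MM w v ≤ N / t := by rwa [Nat.le_div_iff_mul_le ht0]
    omega
  have hq0 : 0 < q := by omega
  have hqr : (0 : ℝ) < q := by exact_mod_cast hq0
  -- q small compared with N
  have hDx : D * Real.log x ≤ Real.exp (x / 4) := by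
    have h1 : D * Real.log x ≤ D * x := mul_le_mul_of_nonneg_left hlxx hD.le
    nlinarith
  have hDx2 : 1 ≤ Real.exp (x / 4) := Real.one_le_exp (by positivity)
  have hDxL : D * Real.log x ≤ L := by
    rw [← hLx]
    exact hDx.trans (Real.exp_le_exp.mpr (by linarith))
  have hqN : q ≤ N := by
    have h1 : (q : ℝ) ≤ N := by
      refine hqD.trans ?_
      rw [div_le_iff₀ hL0, mul_comm (N : ℝ) L]
      exact mul_le_mul_of_nonneg_right hDxL hNr.le
    exact_mod_cast h1
  have hNzt : N ≤ (N / t + 1) * t := by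
    have h1 := Nat.lt_mul_div_succ N ht0
    calc N ≤ t * (N / t + 1) := h1.le
      _ = (N / t + 1) * t := mul_comm _ _
  obtain ⟨r, hr⟩ := hcls N w u v t (N / t + 1) q hN4 hNzt (by omega) hwu huv (by omega) hvz hzq hqN
    hMN hMq
  refine ⟨r, hr.trans ?_⟩
  set J := 2 * (N / q + 1) with hJ
  have hNq1 : (1 : ℝ) ≤ (N : ℝ) / q := by
    rw [le_div_iff₀ hqr, one_mul]
    exact_mod_cast hqN
  have hJle : (J : ℝ) ≤ 4 * ((N : ℝ) / q) := by
    have h1 : ((N / q : ℕ) : ℝ) ≤ (N : ℝ) / q := Nat.cast_div_le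
    rw [hJ]
    push_cast
    linarith
  have hJge : 2 * ((N : ℝ) / q) ≤ J := by
    have h1 : N < q * (N / q + 1) := Nat.lt_mul_div_succ N hq0
    have h2 : (N : ℝ) < q * (((N / q + 1 : ℕ)) : ℝ) := by exact_mod_cast h1
    have h3 : (N : ℝ) / q ≤ (((N / q + 1 : ℕ)) : ℝ) := by
      rw [div_le_iff₀ hqr]
      linarith [mul_comm (q : ℝ) (((N / q + 1 : ℕ)) : ℝ)]
    rw [hJ]
    push_cast at h3 ⊢
    linarith
  have hJ0 : (0 : ℝ) < J := by linarith
  have hJ1 : 1 ≤ J := Nat.one_le_iff_ne_zero.mpr (by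
    intro h0
    rw [h0] at hJ0
    simp at hJ0)
  -- log J ≥ x / 2
  have hlogJ : x / 2 ≤ Real.log J := by
    have h1 : Real.exp (x / 2) ≤ J := by
      refine le_trans ?_ hJge
      have h2 : Real.exp (x / 2) * q ≤ N := by
        have h3 : (q : ℝ) * L ≤ D * Real.log x * N := by
          rw [le_div_iff₀ hL0] at hqD
          exact hqD
        have h4 : Real.exp (x / 2) * Real.exp (x / 4) ≤ L := by
          rw [← hLx, ← Real.exp_add]
          exact Real.exp_le_exp.mpr (by linarith)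
        have h5 : Real.exp (x / 2) * (D * Real.log x) ≤ L := by
          refine le_trans ?_ h4
          exact mul_le_mul_of_nonneg_left hDx (by positivity)
        have h6 : Real.exp (x / 2) * q * L ≤ N * L := by
          calc Real.exp (x / 2) * q * L = Real.exp (x / 2) * (q * L) := by ring
            _ ≤ Real.exp (x / 2) * (D * Real.log x * N) := mul_le_mul_of_nonneg_left h3 (by positivity)
            _ = Real.exp (x / 2) * (D * Real.log x) * N := by ring
            _ ≤ L * N := mul_le_mul_of_nonneg_right h5 hNr.le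
            _ = N * L := by ring
        exact le_of_mul_le_mul_right h6 hL0
      have h3 : Real.exp (x / 2) ≤ (N : ℝ) / q := by
        rw [le_div_iff₀ hqr]
        exact h2
      linarith
    have h2 := Real.log_le_log (Real.exp_pos _) h1
    rwa [Real.log_exp] at h2
  -- log u, log v positive
  have hxb0 : 0 < x ^ b := by positivity
  have hlu0 : 0 < Real.log u := by linarith
  have hv2 : (2 : ℝ) ≤ v := by
    have : 2 ≤ v := by omega
    exact_mod_cast this
  have hlv0 : 0 < Real.log v := Real.log_pos (by linarith)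
  have hv0 : (0 : ℝ) < v := by linarith
  have hxb1 : x ^ b ≤ x := by
    calc x ^ b ≤ x ^ (1 : ℝ) := Real.rpow_le_rpow_of_exponent_le (by linarith) hb.le
      _ = x := Real.rpow_one x
  -- smooth numbers
  have hSS : ((SS u J).card : ℝ) ≤ J / Real.log v := by
    have h1 := hG3 J u hu8 hJ1
    have h2 : x ^ (1 - b) / 2 ≤ Real.log J / Real.log u := by
      rw [le_div_iff₀ hlu0]
      calc x ^ (1 - b) / 2 * Real.log u ≤ x ^ (1 - b) / 2 * x ^ b :=
            mul_le_mul_of_nonneg_left hlu2 (by positivity)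
        _ = (x ^ (1 - b) * x ^ b) / 2 := by ring
        _ = x / 2 := by rw [← Real.rpow_add hx0]; simp
        _ ≤ Real.log J := hlogJ
    have h3 : Real.exp (-(Real.log J / Real.log u)) ≤ Real.exp (-(x ^ (1 - b) / 2)) :=
      Real.exp_le_exp.mpr (by linarith)
    have h4 : Real.log u ^ 10 ≤ x ^ 10 := pow_le_pow_left₀ hlu0.le (hlu2.trans hxb1) 10
    have h5 : C3 * Real.exp (-(Real.log J / Real.log u)) * Real.log u ^ 10 * Real.log v ≤ 1 := by
      calc C3 * Real.exp (-(Real.log J / Real.log u)) * Real.log u ^ 10 * Real.log v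
          ≤ C3 * Real.exp (-(x ^ (1 - b) / 2)) * x ^ 10 * x := by
            apply mul_le_mul _ hlv hlv0.le (by positivity)
            apply mul_le_mul _ h4 (by positivity) (by positivity)
            exact mul_le_mul_of_nonneg_left h3 hC3.le
        _ = C3 * (Real.exp (-(x ^ (1 - b) / 2)) * x ^ 11) := by ring
        _ ≤ 1 := e2
    rw [le_div_iff₀ hlv0]
    calc ((SS u J).card : ℝ) * Real.log v
        ≤ (C3 * J * Real.exp (-(Real.log J / Real.log u)) * Real.log u ^ 10) * Real.log v :=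
          mul_le_mul_of_nonneg_right h1 hlv0.le
      _ = J * (C3 * Real.exp (-(Real.log J / Real.log u)) * Real.log u ^ 10 * Real.log v) := by ring
      _ ≤ J * 1 := mul_le_mul_of_nonneg_left h5 hJ0.le
      _ = J := mul_one _
  -- log (1 + J / v)
  have hxa1 : 1 ≤ x ^ a' := Real.one_le_rpow (by linarith) ha'.le
  have hlogJv : Real.log (1 + (J : ℝ) / v) ≤ 5 + x ^ a' := by
    have h1 : (N : ℝ) / q ≤ t := by
      rw [div_le_iff₀ hqr]
      have h2 : (N : ℝ) < t * (((N / t + 1 : ℕ)) : ℝ) := by exact_mod_cast Nat.lt_mul_div_succ N ht0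
      have h3 : (((N / t + 1 : ℕ)) : ℝ) ≤ q := by exact_mod_cast hzq.le
      nlinarith
    have h2 : (J : ℝ) / v ≤ 96 * Real.exp (x ^ a') := by
      rw [div_le_iff₀ hv0]
      calc (J : ℝ) ≤ 4 * t := by linarith
        _ ≤ 4 * (2 * Real.exp (x ^ a') * L) := by linarith
        _ = 96 * Real.exp (x ^ a') * (L / 12) := by ring
        _ ≤ 96 * Real.exp (x ^ a') * v := mul_le_mul_of_nonneg_left hvge (by positivity)
    have h3 : 1 + (J : ℝ) / v ≤ Real.exp (5 + x ^ a') := by
      have h4 : 1 ≤ Real.exp (x ^ a') := Real.one_le_exp (by positivity)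
      have h5 : (97 : ℝ) ≤ Real.exp 5 := by
        have h2 : Real.exp 5 = Real.exp 1 ^ 5 := by rw [← Real.exp_nat_mul]; norm_num
        have h3 : (2.7182818283 : ℝ) < Real.exp 1 := Real.exp_one_gt_d9
        have h4 : (2.7182818283 : ℝ) ^ 5 ≤ Real.exp 1 ^ 5 := pow_le_pow_left₀ (by norm_num) h3.le 5
        have h5 : (97 : ℝ) ≤ (2.7182818283 : ℝ) ^ 5 := by norm_num
        linarith
      rw [Real.exp_add]
      nlinarith
    have h4 : (0 : ℝ) < 1 + (J : ℝ) / v := by positivity
    have h5 := Real.log_le_log h4 h3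
    rwa [Real.log_exp] at h5
  have hbr : ((SS u J).card : ℝ) + (J : ℝ) * (1 + Real.log (1 + (J : ℝ) / v)) / Real.log v ≤
      8 * x ^ a' * J / Real.log v := by
    calc ((SS u J).card : ℝ) + (J : ℝ) * (1 + Real.log (1 + (J : ℝ) / v)) / Real.log v
        ≤ J / Real.log v + (J : ℝ) * (1 + (5 + x ^ a')) / Real.log v := by
          apply add_le_add hSS
          apply div_le_div_of_nonneg_right _ hlv0.le
          exact mul_le_mul_of_nonneg_left (by linarith) hJ0.le
      _ = (J * (7 + x ^ a')) / Real.log v := by ring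
      _ ≤ (J * (8 * x ^ a')) / Real.log v := by
          apply div_le_div_of_nonneg_right _ hlv0.le
          exact mul_le_mul_of_nonneg_left (by linarith) hJ0.le
      _ = 8 * x ^ a' * J / Real.log v := by ring
  -- BB's
  have hBw := (hM1 w hw2).2
  have hBv := (hM1 v (by omega)).2
  have hBu := (hM1 u (by omega)).1
  have hC10 : 0 < C1 := by linarith
  have hBBw : BB w ≤ C1 * Real.log x := hBw.trans (mul_le_mul_of_nonneg_left hlw hC10.le)
  have hfac : BB v * BB w / (BB u * L) ≤
      (C1 * Real.log v) * (C1 * Real.log x) / (x ^ b / 2 * L) := by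
    apply div_le_div₀
    · positivity
    · exact mul_le_mul hBv hBBw (BB_pos w).le (by positivity)
    · positivity
    · exact mul_le_mul_of_nonneg_right (hlu1.trans hBu) hL0.le
  have hfac0 : 0 ≤ BB v * BB w / (BB u * L) := by
    have := BB_pos v
    have := BB_pos w
    have := BB_pos u
    positivity
  calc Cc * (BB v * BB w / (BB u * L)) *
        (((SS u J).card : ℝ) + (J : ℝ) * (1 + Real.log (1 + (J : ℝ) / v)) / Real.log v)
      ≤ Cc * ((C1 * Real.log v) * (C1 * Real.log x) / (x ^ b / 2 * L)) *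
        (8 * x ^ a' * J / Real.log v) := by
        apply mul_le_mul _ hbr _ (by positivity)
        · exact mul_le_mul_of_nonneg_left hfac hCc.le
        · have : 0 ≤ Real.log (1 + (J : ℝ) / v) := Real.log_nonneg (by
            have : (0 : ℝ) ≤ (J : ℝ) / v := by positivity
            linarith)
          positivity
    _ = 16 * Cc * C1 ^ 2 * (Real.log x * (x ^ a' / x ^ b)) * (J / L) := by
        field_simp
        ring
    _ = 16 * Cc * C1 ^ 2 * (Real.log x * x ^ (a' - b)) * (J / L) := by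
        rw [← Real.rpow_sub hx0]
    _ ≤ 16 * Cc * C1 ^ 2 * (Real.log x * x ^ (a' - b)) * (4 * ((N : ℝ) / q) / L) := by
        apply mul_le_mul_of_nonneg_left _ (by positivity)
        exact div_le_div_of_nonneg_right hJle hL0.le
    _ = 64 * Cc * C1 ^ 2 * (Real.log x * x ^ (a' - b)) * ((N : ℝ) / L) * (1 / q) := by
        field_simp
        ring

end Pool.Agent.H381R2.HR.Asm
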