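import Mathlib
import Pool.Agent.H381R2.HR.Defs
import Pool.Agent.H381R2.HR.Glue
import Pool.Agent.H381R2.HR.Cls
import Pool.Agent.H381R2.HR.Asy
import Pool.Agent.H381R2.HR.Part1
import Pool.Agent.H381R2.HR.Part2
import Pool.Agent.H381R2.HR.Params

set_option autoImplicit false

open Filter Topology Finset

namespace Pool.Agent.H381R2.HR.Asm

open Pool.Agent.H381R2.HR

/-- the primes in `(z, Q]` -/
def QS (z Q : ℕ) : Finset ℕ := (Icc 1 Q).filter (fun q => q.Prime ∧ z < q)

/-- combinatorial assembly -/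
theorem assemble (N w z : ℕ) (m : ℕ → ℝ)
    (hm : ∀ q ∈ QS z (XX N w z).card,
      ∃ r : ℤ, ((((XX N w z).filter (fun n => (q : ℤ) ∣ n - r)).card : ℕ) : ℝ) ≤ m q) :
    ∃ T : Finset ℤ, (∀ n ∈ T, -(N : ℤ) ≤ n ∧ n ≤ N) ∧
      (∀ p : ℕ, p.Prime → ∃ r : ℤ, ∀ n ∈ T, ¬ (p : ℤ) ∣ n - r) ∧
      ∑ n ∈ XX N w z, cc (PP w) n.natAbs - ∑ q ∈ QS z (XX N w z).card, m q ≤ (T.card : ℝ) := by
  classical
  obtain ⟨b, hb⟩ := B (PP w) (PP_prime w) (XX N w z)
  choose! r hr using hm
  set X := XX N w z with hX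
  set Q := X.card with hQ
  set X1 := X.filter (fun x => ∀ p ∈ PP w, ¬ (p : ℤ) ∣ x - b p) with hX1
  set T := X1.filter (fun n => ∀ q ∈ QS z Q, ¬ (q : ℤ) ∣ n - r q) with hT
  have hTX1 : T ⊆ X1 := filter_subset _ _
  have hX1X : X1 ⊆ X := filter_subset _ _
  refine ⟨T, ?_, ?_, ?_⟩
  · intro n hn
    exact (mem_XX.mp (hX1X (hTX1 hn))).1
  · intro p hp
    by_cases h1 : p ≤ w
    · refine ⟨b p, fun n hn => ?_⟩
      have hn1 := (mem_filter.mp (hTX1 hn)).2
      exact hn1 p (mem_filter.mpr ⟨mem_Icc.mpr ⟨hp.pos, h1⟩, hp⟩)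
    push Not at h1
    by_cases h2 : p ≤ z
    · refine ⟨0, fun n hn hd => ?_⟩
      obtain ⟨_, s, l, hs, hl, hzl, hsl⟩ := mem_XX.mp (hX1X (hTX1 hn))
      rw [sub_zero] at hd
      have hd2 : p ∣ s * l := by
        rw [← hsl]
        exact Int.natCast_dvd.mp hd
      rcases (Nat.Prime.dvd_mul hp).mp hd2 with h4 | h4
      · have := hs.2 p hp h4
        omega
      · have := (Nat.prime_dvd_prime_iff_eq hp hl).mp h4
        omega
    push Not at h2
    by_cases h3 : p ≤ Q
    · refine ⟨r p, fun n hn => ?_⟩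
      have hn1 := (mem_filter.mp hn).2
      exact hn1 p (mem_filter.mpr ⟨mem_Icc.mpr ⟨hp.pos, h3⟩, hp, h2⟩)
    push Not at h3
    -- pigeonhole
    have hcard : T.card < p := by
      calc T.card ≤ X.card := card_le_card (hTX1.trans hX1X)
        _ < p := h3
    by_contra hcon
    push Not at hcon
    have hsurj : (Finset.range p) ⊆ T.image (fun n => (n % (p : ℤ)).toNat) := by
      intro i hi
      rw [mem_range] at hi
      obtain ⟨n, hn, hd⟩ := hcon (i : ℤ)
      rw [mem_image]
      refine ⟨n, hn, ?_⟩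
      have h5 : n % (p : ℤ) = (i : ℤ) % (p : ℤ) := Int.ModEq.symm ((Int.modEq_iff_dvd).mpr hd)
      rw [h5, Int.emod_eq_of_lt (by omega) (by exact_mod_cast hi)]
      simp
    have h6 := card_le_card hsurj
    rw [card_range] at h6
    have h7 : (T.image (fun n => (n % (p : ℤ)).toNat)).card ≤ T.card := card_image_le
    omega
  · have h1 : X1 ⊆ T ∪ (QS z Q).biUnion (fun q => X.filter (fun n => (q : ℤ) ∣ n - r q)) := by
      intro n hn
      rw [mem_union]
      by_cases h2 : ∀ q ∈ QS z Q, ¬ (q : ℤ) ∣ n - r q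
      · left
        exact mem_filter.mpr ⟨hn, h2⟩
      · right
        push Not at h2
        obtain ⟨q, hq, hd⟩ := h2
        rw [mem_biUnion]
        exact ⟨q, hq, mem_filter.mpr ⟨hX1X hn, hd⟩⟩
    have h2 : (X1.card : ℝ) ≤ T.card + ∑ q ∈ QS z Q, m q := by
      have h3 : X1.card ≤ T.card + ∑ q ∈ QS z Q, (X.filter (fun n => (q : ℤ) ∣ n - r q)).card :=
        (card_le_card h1).trans ((card_union_le _ _).trans
          (Nat.add_le_add_left card_biUnion_le _))
      have h4 : (X1.card : ℝ) ≤ T.card +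
          ∑ q ∈ QS z Q, (((X.filter (fun n => (q : ℤ) ∣ n - r q)).card : ℕ) : ℝ) := by
        exact_mod_cast h3
      refine h4.trans ?_
      have h5 : ∑ q ∈ QS z Q, (((X.filter (fun n => (q : ℤ) ∣ n - r q)).card : ℕ) : ℝ) ≤
          ∑ q ∈ QS z Q, m q := Finset.sum_le_sum fun q hq => hr q hq
      linarith
    linarith

theorem core_pos {α : ℝ} (hα : 0 < α) (hα2 : α < 1 / 2) (hP : PNT2) : Core α := by
  set a := (α + 1 / 2) / 2 with ha
  set a' := (a + 1 / 2) / 2 with ha'
  set b := (2 * a' + 1) / 2 with hb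
  have hαa : α < a := by rw [ha]; linarith
  have ha12 : a < 1 / 2 := by rw [ha]; linarith
  have haa : a < a' := by rw [ha']; linarith
  have ha'12 : a' < 1 / 2 := by rw [ha']; linarith
  have hb1 : b < 1 := by rw [hb]; linarith
  have h2a'b : 2 * a' < b := by rw [hb]; linarith
  have ha0 : 0 < a := by linarith
  have ha'0 : 0 < a' := by linarith
  have hab : a' < b := by linarith
  obtain ⟨Cp, hCp, hp1⟩ := part1 hP
  obtain ⟨CD, hCD, hD2⟩ := D2
  obtain ⟨C1, hC1, hM1⟩ := M1
  obtain ⟨CM, hCM, hM2⟩ := M2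
  have hC10 : 0 < C1 := by linarith
  obtain ⟨C2, hC2, hp2⟩ := part2 ha'0 hab hb1 (CD * C1) (by positivity)
  have hx : Tendsto (fun N : ℕ => Real.log (Real.log (N : ℝ))) atTop atTop :=
    (Real.tendsto_log_atTop.comp Real.tendsto_log_atTop).comp tendsto_natCast_atTop_atTop
  have hL : Tendsto (fun N : ℕ => Real.log (N : ℝ)) atTop atTop :=
    Real.tendsto_log_atTop.comp tendsto_natCast_atTop_atTop
  have hlx : Tendsto (fun N : ℕ => Real.log (Real.log (Real.log (N : ℝ)))) atTop atTop :=
    Real.tendsto_log_atTop.comp hx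
  have hev1 := hx.eventually (asy2 (show 0 < b - 2 * a' by linarith) (6 * C2))
  have hev2 := hx.eventually (asy1 ha0 haa (Real.log (2 * CD * C1)))
  have hev3 := hx.eventually ((tendsto_rpow_atTop ha'0).eventually_ge_atTop CM)
  have hev4 := hlx.eventually_ge_atTop ((Cp + 2) / (a - α))
  have hev5 := params ha0 haa hab hb1
  have hev : ∀ᶠ N : ℕ in atTop, ∃ T : Finset ℤ,
      (∀ n ∈ T, -(N : ℤ) ≤ n ∧ n ≤ N) ∧
      (∀ p : ℕ, p.Prime → ∃ r : ℤ, ∀ n ∈ T, ¬ (p : ℤ) ∣ n - r) ∧
      2 * (N : ℝ) / Real.log N + α * (2 * (N : ℝ) / (Real.log N) ^ 2) *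
        Real.log (Real.log (Real.log N)) ≤ (T.card : ℝ) := by
    filter_upwards [hev1, hev2, hev3, hev4, hev5, hp2, hx.eventually_ge_atTop 3,
      hL.eventually_ge_atTop 12, eventually_ge_atTop 4] with N e1 e2 e3 e4 e5 e6 hx3 hL12 hN4
    obtain ⟨w, t, u, v, q1, q2, q3, q4, q5, q6, q7⟩ := e5
    have q1' := q1
    have q2' := q2
    obtain ⟨hw2, hu8, hwu, huv, hvz, ht3⟩ := q1'
    obtain ⟨htN, hMN⟩ := q2'
    have hmain := hp1 N w t hw2 ht3 htN (by omega) q3.1 q3.2
    set L := Real.log (N : ℝ) with hLdef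
    set x := Real.log L with hxdef
    set z := N / t + 1 with hz
    have hL0 : 0 < L := by linarith
    have hx0 : 0 < x := by linarith
    have hN4r : (4 : ℝ) ≤ N := by exact_mod_cast hN4
    have hNr : (0 : ℝ) < N := by linarith
    have hlx1 : 1 ≤ Real.log x := by
      rw [Real.le_log_iff_exp_le hx0]
      linarith [Real.exp_one_lt_three]
    have ht0 : 0 < t := by omega
    have htr : (0 : ℝ) < t := by exact_mod_cast ht0
    have hNzt : N ≤ z * t := by
      have h1 := Nat.lt_mul_div_succ N ht0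
      calc N ≤ t * (N / t + 1) := h1.le
        _ = (N / t + 1) * t := mul_comm _ _
    set Q := (XX N w z).card with hQdef
    -- size of Q
    have hBw := (hM1 w hw2).2
    have hBBw : BB w ≤ C1 * Real.log x := hBw.trans (mul_le_mul_of_nonneg_left q4.2 hC10.le)
    have hQ : (Q : ℝ) ≤ CD * C1 * Real.log x * N / L := by
      refine (hD2 N w z t (by omega) hNzt htN).trans ?_
      calc CD * (BB w * N / L) ≤ CD * (C1 * Real.log x * N / L) := by
            apply mul_le_mul_of_nonneg_left _ hCD.le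
            apply div_le_div_of_nonneg_right _ hL0.le
            exact mul_le_mul_of_nonneg_right hBBw hNr.le
        _ = CD * C1 * Real.log x * N / L := by ring
    -- the costs
    set κ : ℝ := C2 * (Real.log x * x ^ (a' - b)) * ((N : ℝ) / L) with hκ
    have hκ0 : 0 ≤ κ := by
      have : 0 ≤ Real.log x := by linarith
      positivity
    obtain ⟨T, hT1, hT2, hT3⟩ := assemble N w z (fun q => κ * (1 / q)) (by
      intro q hq
      obtain ⟨hq1, hq2, hq3⟩ := mem_filter.mp hq
      have hq4 : (q : ℝ) ≤ CD * C1 * Real.log x * N / L := by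
        refine le_trans ?_ hQ
        exact_mod_cast (mem_Icc.mp hq1).2
      exact e6 w t u v q1 q2 q4.2 q5 q6 q7 q hq3 hq4)
    refine ⟨T, hT1, hT2, ?_⟩
    refine le_trans ?_ hT3
    -- total cost
    have hcost : ∑ q ∈ QS z Q, κ * (1 / (q : ℝ)) ≤ (N : ℝ) / L ^ 2 := by
      rw [← Finset.mul_sum]
      by_cases hzQ : z ≤ Q
      swap
      · have h0 : QS z Q = ∅ := by
          unfold QS
          rw [filter_eq_empty_iff]
          intro q hq ⟨_, h2⟩
          have := (mem_Icc.mp hq).2
          omega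
        rw [h0, Finset.sum_empty, mul_zero]
        positivity
      have hzt : (N : ℝ) / t ≤ z := by
        rw [div_le_iff₀ htr]
        exact_mod_cast hNzt
      have htNr : (t : ℝ) ^ 2 ≤ N := by exact_mod_cast htN
      have htle : (t : ℝ) ≤ (N : ℝ) / t := by
        rw [le_div_iff₀ htr]
        nlinarith
      have ht3r : (3 : ℝ) ≤ t := by exact_mod_cast ht3
      have hz2 : 2 ≤ z := by
        have : (2 : ℝ) ≤ z := by linarith
        exact_mod_cast this
      have hz0 : (0 : ℝ) < z := by linarith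
      have hlz : L / 2 ≤ Real.log z := by
        have h2 : Real.log ((N : ℝ) / t) ≤ Real.log z := Real.log_le_log (by positivity) hzt
        rw [Real.log_div hNr.ne' htr.ne'] at h2
        have h3 : 2 * Real.log t ≤ L := by
          have : Real.log ((t : ℝ) ^ 2) ≤ L := Real.log_le_log (by positivity) htNr
          rwa [Real.log_pow, Nat.cast_ofNat] at this
        linarith
      have hxa'0 : 0 < x ^ a' := by positivity
      have hQr : (0 : ℝ) < Q := by
        have : (z : ℝ) ≤ Q := by exact_mod_cast hzQ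
        linarith
      have hQz : Real.log ((Q : ℝ) / z) ≤ 2 * x ^ a' := by
        have h1 : (Q : ℝ) / z ≤ (2 * CD * C1) * x * Real.exp (x ^ a') := by
          rw [div_le_iff₀ hz0]
          have h2 : CD * C1 * Real.log x * N / L ≤ CD * C1 * x * N / L := by
            apply div_le_div_of_nonneg_right _ hL0.le
            apply mul_le_mul_of_nonneg_right _ hNr.le
            apply mul_le_mul_of_nonneg_left _ (by positivity)
            have := Real.log_le_sub_one_of_pos hx0
            linarith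
          have h3 : (N : ℝ) ≤ z * t := by exact_mod_cast hNzt
          calc (Q : ℝ) ≤ CD * C1 * x * N / L := hQ.trans h2
            _ ≤ CD * C1 * x * (z * t) / L := by
                apply div_le_div_of_nonneg_right _ hL0.le
                exact mul_le_mul_of_nonneg_left h3 (by positivity)
            _ ≤ CD * C1 * x * (z * (2 * Real.exp (x ^ a') * L)) / L := by
                apply div_le_div_of_nonneg_right _ hL0.le
                apply mul_le_mul_of_nonneg_left _ (by positivity)
                exact mul_le_mul_of_nonneg_left q5 hz0.le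
            _ = (2 * CD * C1) * x * Real.exp (x ^ a') * z := by
                field_simp
        have h2 := Real.log_le_log (by positivity) h1
        rw [Real.log_mul (by positivity) (by positivity), Real.log_exp,
          Real.log_mul (by positivity) hx0.ne'] at h2
        have h3 : Real.log x ≤ x ^ a * Real.log (6 * x) := by
          have h4 : Real.log x ≤ Real.log (6 * x) := Real.log_le_log hx0 (by linarith)
          have h5 : 1 ≤ x ^ a := Real.one_le_rpow (by linarith) ha0.le
          have h6 : 0 ≤ Real.log (6 * x) := by linarith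
          nlinarith
        linarith
      have hsum := hM2 z Q hz2 hzQ
      have hsum2 : ∑ q ∈ QS z Q, (1 : ℝ) / q ≤ 6 * x ^ a' / L := by
        unfold QS
        refine hsum.trans ?_
        calc (Real.log ((Q : ℝ) / z) + CM) / Real.log z ≤ (3 * x ^ a') / (L / 2) := by
              apply div_le_div₀ (by positivity) (by linarith) (by positivity) hlz
          _ = 6 * x ^ a' / L := by field_simp; ring
      calc κ * ∑ q ∈ QS z Q, (1 : ℝ) / q ≤ κ * (6 * x ^ a' / L) :=
            mul_le_mul_of_nonneg_left hsum2 hκ0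
        _ = (6 * C2 * ((x ^ (a' - b) * x ^ a') * Real.log x)) * ((N : ℝ) / L ^ 2) := by
            rw [hκ]
            field_simp
        _ = (6 * C2 * (x ^ (-(b - 2 * a')) * Real.log x)) * ((N : ℝ) / L ^ 2) := by
            rw [← Real.rpow_add hx0]
            congr 4
            ring
        _ ≤ 1 * ((N : ℝ) / L ^ 2) := mul_le_mul_of_nonneg_right e1 (by positivity)
        _ = (N : ℝ) / L ^ 2 := one_mul _
    have hfin : 2 * (N : ℝ) / L + α * (2 * (N : ℝ) / L ^ 2) * Real.log x ≤
        2 * (N : ℝ) / L + 2 * (N : ℝ) / L ^ 2 * (Real.log w - Cp) - (N : ℝ) / L ^ 2 := by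
      have h1 : α * Real.log x ≤ Real.log w - Cp - 1 / 2 := by
        have h2 : Cp + 2 ≤ Real.log x * (a - α) := by
          rw [div_le_iff₀ (by linarith)] at e4
          exact e4
        linarith [q4.1]
      have h2 : 0 < 2 * (N : ℝ) / L ^ 2 := by positivity
      have h3 := mul_le_mul_of_nonneg_left h1 h2.le
      have h4 : 2 * (N : ℝ) / L ^ 2 * (Real.log w - Cp - 1 / 2) =
        2 * (N : ℝ) / L ^ 2 * (Real.log w - Cp) - (N : ℝ) / L ^ 2 := by ring
      linarith
    linarith
  obtain ⟨N0, hN0⟩ := eventually_atTop.mp hev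
  exact ⟨N0, hN0⟩

theorem core {α : ℝ} (hα2 : α < 1 / 2) (hP : PNT2) : Core α := by
  by_cases hα : 0 < α
  · exact core_pos hα hα2 hP
  · push Not at hα
    obtain ⟨N0, hN0⟩ := core_pos (show (0 : ℝ) < 1 / 4 by norm_num) (by norm_num) hP
    have hx : Tendsto (fun N : ℕ => Real.log (Real.log (N : ℝ))) atTop atTop :=
      (Real.tendsto_log_atTop.comp Real.tendsto_log_atTop).comp tendsto_natCast_atTop_atTop
    have hlx : Tendsto (fun N : ℕ => Real.log (Real.log (Real.log (N : ℝ)))) atTop atTop :=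
      Real.tendsto_log_atTop.comp hx
    obtain ⟨N1, hN1⟩ := eventually_atTop.mp (hlx.eventually_ge_atTop 0)
    refine ⟨max N0 N1, fun N hN => ?_⟩
    obtain ⟨T, h1, h2, h3⟩ := hN0 N (le_trans (le_max_left _ _) hN)
    refine ⟨T, h1, h2, le_trans ?_ h3⟩
    have h4 := hN1 N (le_trans (le_max_right _ _) hN)
    have h5 : 0 ≤ 2 * (N : ℝ) / (Real.log N) ^ 2 := by positivity
    have h6 : α * (2 * (N : ℝ) / (Real.log N) ^ 2) ≤ 1 / 4 * (2 * (N : ℝ) / (Real.log N) ^ 2) :=
      mul_le_mul_of_nonneg_right (by linarith) h5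
    have h7 := mul_le_mul_of_nonneg_right h6 h4
    linarith

end Pool.Agent.H381R2.HR.Asm
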