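import Mathlib
import Pool.Agent.H381R2.HR.Defs

/-! From the window `[-N, N]` to `[0, x)` (task I1; helper727). -/

set_option autoImplicit false

open Finset

namespace Pool.Agent.H381R2.HR

/-- I1: from `Core` and PNT2 to `Final`. -/
theorem I1 (hP : PNT2) (h : ∀ α : ℝ, α < 1 / 2 → Core α) : ∀ α : ℝ, α < 1 / 2 → Final α := by
  classical
  intro α hα
  obtain ⟨C, hC, hPNT⟩ := hP
  obtain ⟨β, hβ1, hβ2⟩ := exists_between (max_lt hα (by norm_num : (0 : ℝ) < 1 / 2))
  have hβα : α < β := lt_of_le_of_lt (le_max_left _ _) hβ1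
  have hβ0 : 0 < β := lt_of_le_of_lt (le_max_right _ _) hβ1
  obtain ⟨N0, hN0⟩ := h β hβ2
  have hT2 : Filter.Tendsto (fun x : ℝ => Real.log (Real.log x)) Filter.atTop Filter.atTop :=
    Real.tendsto_log_atTop.comp Real.tendsto_log_atTop
  have hT3 : Filter.Tendsto (fun x : ℝ => Real.log (Real.log (Real.log x)))
      Filter.atTop Filter.atTop := Real.tendsto_log_atTop.comp hT2
  have hev := ((Filter.eventually_ge_atTop (2 * (N0 : ℝ) + 100)).and
    (hT2.eventually_ge_atTop 2)).and (hT3.eventually_ge_atTop ((C + 6) / (β - α) + 1))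
  obtain ⟨x0, hx0⟩ := Filter.eventually_atTop.1 hev
  refine ⟨x0, fun x hx => ?_⟩
  obtain ⟨⟨hx1, hLL⟩, hL3⟩ := hx0 x hx
  have hN0' : (0 : ℝ) ≤ N0 := Nat.cast_nonneg _
  have hx100 : (100 : ℝ) ≤ x := by linarith
  -- the integer N
  set N : ℕ := ⌊(x - 1) / 2⌋₊ with hN
  have hNle : (N : ℝ) ≤ (x - 1) / 2 := Nat.floor_le (by linarith)
  have hNgt : (x - 1) / 2 < N + 1 := Nat.lt_floor_add_one _
  have hN_lo : (x - 3) / 2 ≤ N := by linarith
  have hN0N : N0 ≤ N := by
    have : (N0 : ℝ) ≤ N := by linarith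
    exact_mod_cast this
  obtain ⟨T, hT1, hTp, hTc⟩ := hN0 N hN0N
  -- logarithms
  set L : ℝ := Real.log x with hL
  set M : ℝ := Real.log N with hM
  have hxpos : 0 < x := by linarith
  have hNpos : (0 : ℝ) < N := by linarith
  have hLpos : 0 < L := Real.log_pos (by linarith)
  have hML : M ≤ L := Real.log_le_log hNpos (by linarith)
  have hsq : √x ≤ N := by
    have h1 : √x * √x = x := Real.mul_self_sqrt hxpos.le
    have h2 : (4 : ℝ) ≤ √x := by
      rw [show (4 : ℝ) = √16 by rw [show (16 : ℝ) = 4 ^ 2 by norm_num]; rw [Real.sqrt_sq (by norm_num)]]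
      exact Real.sqrt_le_sqrt (by linarith)
    nlinarith
  have hM2 : L / 2 ≤ M := by
    have h1 : Real.log (√x) = L / 2 := Real.log_sqrt hxpos.le
    rw [← h1]
    exact Real.log_le_log (Real.sqrt_pos.2 hxpos) hsq
  have hMpos : 0 < M := by linarith
  have hLL2 : Real.log L ≤ Real.log M + Real.log 2 := by
    rw [← Real.log_mul hMpos.ne' (by norm_num)]
    exact Real.log_le_log hLpos (by linarith)
  have hlog2 : Real.log 2 ≤ 1 := by
    have := Real.log_two_lt_d9; linarith
  have hlog2' : 0 < Real.log 2 := Real.log_pos (by norm_num)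
  have hLMpos : 0 < Real.log M := by linarith
  have hLLpos : 0 < Real.log L := by linarith
  have hL3' : Real.log (Real.log L) ≤ Real.log (Real.log M) + Real.log 2 := by
    rw [← Real.log_mul hLMpos.ne' (by norm_num)]
    exact Real.log_le_log hLLpos (by linarith)
  set y : ℝ := Real.log (Real.log L) with hy
  set z : ℝ := Real.log (Real.log M) with hz
  have hβα' : 0 < β - α := by linarith
  have hy1 : C + 6 ≤ (β - α) * y := by
    have h1 : (C + 6) / (β - α) ≤ y := by linarith
    rw [div_le_iff₀ hβα'] at h1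
    linarith
  have hy_ge : 1 ≤ y := by
    have : 0 ≤ (C + 6) / (β - α) := by positivity
    linarith
  have hz0 : y - Real.log 2 ≤ z := by linarith
  have hz_nn : 0 ≤ z := by linarith
  have hy_le_x : y ≤ x := by
    have h1 : Real.log L ≤ L - 1 := Real.log_le_sub_one_of_pos hLpos
    have h2 : y ≤ Real.log L - 1 := Real.log_le_sub_one_of_pos hLLpos
    have h3 : L ≤ x - 1 := Real.log_le_sub_one_of_pos hxpos
    linarith
  have hL_le_x : L ≤ x := by
    have h3 : L ≤ x - 1 := Real.log_le_sub_one_of_pos hxpos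
    linarith
  -- the analytic inequality
  have hpi : (Nat.primeCounting ⌊x⌋₊ : ℝ) ≤ x / L + C * (x / L ^ 2) := by
    have h1 := (abs_le.1 (hPNT x (by linarith))).2
    linarith
  have hmain : (Nat.primeCounting ⌊x⌋₊ : ℝ) + α * (x * y / L ^ 2) ≤
      2 * (N : ℝ) / M + β * (2 * (N : ℝ) / M ^ 2) * z := by
    have h1 : (x - 3) / L ≤ 2 * (N : ℝ) / M := by
      apply div_le_div₀ (by positivity) (by linarith) hMpos hML
    have h2 : (x - 3) / L ^ 2 ≤ 2 * (N : ℝ) / M ^ 2 := by
      apply div_le_div₀ (by positivity) (by linarith) (by positivity)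
      exact pow_le_pow_left₀ hMpos.le hML 2
    have h2' : 0 ≤ (x - 3) / L ^ 2 := div_nonneg (by linarith) (by positivity)
    have h3 : β * ((x - 3) / L ^ 2) * (y - Real.log 2) ≤ β * (2 * (N : ℝ) / M ^ 2) * z := by
      apply mul_le_mul (mul_le_mul_of_nonneg_left h2 hβ0.le) hz0 (by linarith) (by positivity)
    have h4 : x / L + C * (x / L ^ 2) + α * (x * y / L ^ 2) ≤
        (x - 3) / L + β * ((x - 3) / L ^ 2) * (y - Real.log 2) := by
      have h5 : (x - 3) / L + β * ((x - 3) / L ^ 2) * (y - Real.log 2) -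
          (x / L + C * (x / L ^ 2) + α * (x * y / L ^ 2)) =
          ((β - α) * y * x - C * x - 3 * L - 3 * β * (y - Real.log 2) - β * Real.log 2 * x) /
            L ^ 2 := by
        field_simp
        ring
      have h6 : 0 ≤ (β - α) * y * x - C * x - 3 * L - 3 * β * (y - Real.log 2) -
          β * Real.log 2 * x := by
        have e1 : (C + 6) * x ≤ (β - α) * y * x := mul_le_mul_of_nonneg_right hy1 hxpos.le
        have e2 : 3 * L ≤ 3 * x := by linarith
        have e3 : 3 * β * (y - Real.log 2) ≤ 3 * (1 / 2) * x := by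
          apply mul_le_mul (by linarith) (by linarith) (by linarith) (by norm_num)
        have e4 : β * Real.log 2 * x ≤ 1 * x := by
          apply mul_le_mul_of_nonneg_right _ hxpos.le
          calc β * Real.log 2 ≤ 1 * 1 := mul_le_mul (by linarith) hlog2 hlog2'.le (by norm_num)
            _ = 1 := by norm_num
        have e5 : (C + 6) * x = C * x + 6 * x := by ring
        linarith
      have h7 := div_nonneg h6 (by positivity : (0 : ℝ) ≤ L ^ 2)
      rw [← h5] at h7
      linarith
    linarith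
  -- the set S
  have hTpos : (0 : ℝ) < T.card := by
    refine lt_of_lt_of_le ?_ hTc
    have : 0 ≤ β * (2 * (N : ℝ) / M ^ 2) * z := by positivity
    have h2 : 0 < 2 * (N : ℝ) / M := by positivity
    linarith
  have hTne : T.Nonempty := by
    rw [← Finset.card_pos]
    exact_mod_cast hTpos
  refine ⟨T.image (fun n => n - T.min' hTne), ?_, ?_, ?_, ?_⟩
  · rw [mem_image]
    exact ⟨T.min' hTne, T.min'_mem hTne, by ring⟩
  · intro s hs
    rw [mem_image] at hs
    obtain ⟨n, hn, rfl⟩ := hs
    have h1 := T.min'_le n hn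
    have h2 := (hT1 n hn).2
    have h3 := (hT1 _ (T.min'_mem hTne)).1
    refine ⟨by linarith, ?_⟩
    have h4 : n - T.min' hTne ≤ 2 * (N : ℤ) := by linarith
    have h5 : ((n - T.min' hTne : ℤ) : ℝ) ≤ 2 * (N : ℝ) := by exact_mod_cast h4
    linarith
  · intro q hq
    obtain ⟨r, hr⟩ := hTp q hq
    refine ⟨r - T.min' hTne, fun s hs => ?_⟩
    rw [mem_image] at hs
    obtain ⟨n, hn, rfl⟩ := hs
    have : n - T.min' hTne - (r - T.min' hTne) = n - r := by ring
    rw [this]
    exact hr n hn
  · rw [Finset.card_image_of_injective _ (fun a b hab => by simpa using hab)]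
    exact hmain.trans hTc

end Pool.Agent.H381R2.HR
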