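import Mathlib
import Pool.Agent.H381R2.HR.Defs
import Pool.Prelude.Def_F_c8bfdf43

/-! I2: the Hardy–Littlewood constant of an admissible tuple is positive. -/

set_option autoImplicit false

open Finset

namespace Pool.Agent.H381R2.HR

namespace I2Aux

variable {k : ℕ}

lemma prod_ge (T : Finset ℕ) (g : ℕ → ℝ) (h0 : ∀ q ∈ T, 0 ≤ g q) (h1 : ∀ q ∈ T, g q ≤ 1) :
    1 - ∑ q ∈ T, g q ≤ ∏ q ∈ T, (1 - g q) := by
  induction T using Finset.induction_on with
  | empty => simp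
  | insert a s ha ih =>
    rw [Finset.sum_insert ha, Finset.prod_insert ha]
    have ih' := ih (fun q hq => h0 q (mem_insert_of_mem hq)) (fun q hq => h1 q (mem_insert_of_mem hq))
    have ha0 := h0 a (mem_insert_self a s)
    have ha1 := h1 a (mem_insert_self a s)
    have hs0 : 0 ≤ ∑ q ∈ s, g q := Finset.sum_nonneg fun q hq => h0 q (mem_insert_of_mem hq)
    nlinarith [mul_le_mul_of_nonneg_left ih' (sub_nonneg.2 ha1), mul_nonneg ha0 hs0]

lemma nu_le (m : Fin k.succ → ℕ) (q : ℕ) (hq : q.Prime) :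
    N9a2a6718.Nat.numResidues q m ≤ k + 1 := by
  haveI := Fact.mk hq
  unfold N9a2a6718.Nat.numResidues
  rw [← Set.image_univ]
  refine (Set.ncard_image_le (Set.toFinite _)).trans ?_
  rw [Set.ncard_univ]
  simp

lemma nu_lt (m : Fin k.succ → ℕ) (q : ℕ) (hq : q.Prime)
    (h : ∃ r : ℕ, ∀ i, ¬ m i ≡ r [MOD q]) : N9a2a6718.Nat.numResidues q m < q := by
  haveI := Fact.mk hq
  obtain ⟨r, hr⟩ := h
  unfold N9a2a6718.Nat.numResidues
  have h1 : Set.range (fun i => (m i : ZMod q)) ⊂ Set.univ := by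
    rw [Set.ssubset_univ_iff]
    intro h2
    have h3 : (r : ZMod q) ∈ Set.range (fun i => (m i : ZMod q)) := by
      rw [h2]; exact Set.mem_univ _
    obtain ⟨i, hi⟩ := h3
    exact hr i ((ZMod.natCast_eq_natCast_iff _ _ _).1 hi)
  have h2 := Set.ncard_lt_ncard h1 (Set.toFinite _)
  rw [Set.ncard_univ, Nat.card_eq_fintype_card, ZMod.card] at h2
  exact h2

/-- the local factor -/
noncomputable def fac (m : Fin k.succ → ℕ) (q : ℕ) : ℝ :=
  (1 - (N9a2a6718.Nat.numResidues q m : ℝ) / q) / (1 - 1 / q) ^ k.succ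

lemma fac_pos (m : Fin k.succ → ℕ) (q : ℕ) (hq : q.Prime)
    (h : ∃ r : ℕ, ∀ i, ¬ m i ≡ r [MOD q]) : 0 < fac m q := by
  have h1 : (N9a2a6718.Nat.numResidues q m : ℝ) < q := by exact_mod_cast nu_lt m q hq h
  have hq1 : (1 : ℝ) < q := by exact_mod_cast hq.one_lt
  have hq0 : (0 : ℝ) < q := by linarith
  unfold fac
  apply div_pos
  · rw [sub_pos, div_lt_one hq0]; exact h1
  · apply pow_pos
    rw [sub_pos, div_lt_one hq0]; exact hq1

lemma fac_ge (m : Fin k.succ → ℕ) (q : ℕ) (hq : q.Prime) (hk : k + 1 < q) :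
    1 - ((k : ℝ) + 1) ^ 2 * ((q : ℝ) ^ 2)⁻¹ ≤ fac m q := by
  have h1 : (N9a2a6718.Nat.numResidues q m : ℝ) ≤ k + 1 := by exact_mod_cast nu_le m q hq
  have hq1 : (1 : ℝ) < q := by exact_mod_cast hq.one_lt
  have hq0 : (0 : ℝ) < q := by linarith
  have hkq : (k : ℝ) + 1 < q := by exact_mod_cast hk
  have hpos : (0 : ℝ) < 1 - 1 / q := by
    rw [sub_pos, div_lt_one hq0]; exact hq1
  unfold fac
  rw [le_div_iff₀ (pow_pos hpos _)]
  have h2 : (1 - 1 / (q : ℝ)) ^ k.succ ≤ (1 + ((k : ℝ) + 1) / q)⁻¹ := by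
    have h3 : (1 - 1 / (q : ℝ)) ≤ Real.exp (-(1 / q)) := by
      have := Real.add_one_le_exp (-(1 / (q : ℝ)))
      linarith
    have h4 : (1 - 1 / (q : ℝ)) ^ k.succ ≤ Real.exp (-(1 / q)) ^ k.succ :=
      pow_le_pow_left₀ hpos.le h3 _
    rw [← Real.exp_nat_mul] at h4
    refine h4.trans ?_
    have h5 : ((k.succ : ℕ) : ℝ) * -(1 / q) = -(((k : ℝ) + 1) / q) := by
      push_cast; ring
    rw [h5, Real.exp_neg]
    apply inv_anti₀
    · positivity
    · have := Real.add_one_le_exp (((k : ℝ) + 1) / q)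
      linarith
  have h6 : (0 : ℝ) ≤ 1 - ((k : ℝ) + 1) ^ 2 * ((q : ℝ) ^ 2)⁻¹ := by
    have h7 : ((k : ℝ) + 1) ^ 2 * ((q : ℝ) ^ 2)⁻¹ ≤ 1 := by
      rw [← div_eq_mul_inv, div_le_one (by positivity)]
      have : (0 : ℝ) ≤ (k : ℝ) + 1 := by positivity
      nlinarith
    linarith
  refine (mul_le_mul_of_nonneg_left h2 h6).trans ?_
  have h8 : 1 - ((k : ℝ) + 1) ^ 2 * ((q : ℝ) ^ 2)⁻¹ =
      (1 - ((k : ℝ) + 1) / q) * (1 + ((k : ℝ) + 1) / q) := by
    field_simp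
    ring
  have h9 : (1 + ((k : ℝ) + 1) / q) ≠ 0 := by positivity
  rw [h8, mul_assoc, mul_inv_cancel₀ h9, mul_one]
  have h10 : (N9a2a6718.Nat.numResidues q m : ℝ) / q ≤ ((k : ℝ) + 1) / q := by gcongr
  linarith

end I2Aux

open I2Aux in
/-- I2: positivity of the Hardy–Littlewood constant of an admissible tuple. -/
theorem I2 {k : ℕ} (m : Fin k.succ → ℕ)
    (hadm : ∀ q : ℕ, q.Prime → 3 ≤ q → ∃ r : ℕ, ∀ i, ¬ m i ≡ r [MOD q]) (C : ℝ)
    (h : Filter.Tendsto (N9a2a6718.HardyLittlewoodPartialProduct m) Filter.atTop (nhds C)) :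
    0 < C := by
  set S : ℕ → Finset ℕ := fun N => (Nat.primesBelow N).filter (fun q => 3 ≤ q) with hS
  have hmem : ∀ N q, q ∈ S N ↔ q < N ∧ q.Prime ∧ 3 ≤ q := by
    intro N q
    simp only [hS, mem_filter, Nat.mem_primesBelow]
    tauto
  set q0 : ℕ := 4 * (k + 1) ^ 2 with hq0
  have hq0pos : 0 < q0 := by positivity
  have hkq0 : k + 1 < q0 := by rw [hq0]; nlinarith
  have hc0 : 0 < ∏ q ∈ S q0, fac m q := by
    apply Finset.prod_pos
    intro q hq
    rw [hmem] at hq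
    exact fac_pos m q hq.2.1 (hadm q hq.2.1 hq.2.2)
  have key : ∀ N, q0 ≤ N → 2 ^ k * ((∏ q ∈ S q0, fac m q) * (1 / 2)) ≤
      N9a2a6718.HardyLittlewoodPartialProduct m N := by
    intro N hN
    have h1 : N9a2a6718.HardyLittlewoodPartialProduct m N = 2 ^ k * ∏ q ∈ S N, fac m q := rfl
    rw [h1]
    have hsub : S q0 ⊆ S N := by
      intro q hq
      rw [hmem] at hq ⊢
      exact ⟨lt_of_lt_of_le hq.1 hN, hq.2⟩
    rw [← Finset.prod_sdiff hsub, mul_comm (∏ q ∈ S N \ S q0, fac m q)]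
    refine mul_le_mul_of_nonneg_left (mul_le_mul_of_nonneg_left ?_ hc0.le) (by positivity)
    have hT : ∀ q ∈ S N \ S q0, q.Prime ∧ q0 ≤ q ∧ q < N := by
      intro q hq
      rw [mem_sdiff, hmem, hmem] at hq
      refine ⟨hq.1.2.1, ?_, hq.1.1⟩
      by_contra hlt
      exact hq.2 ⟨by omega, hq.1.2⟩
    have h2 : ∏ q ∈ S N \ S q0, (1 - ((k : ℝ) + 1) ^ 2 * ((q : ℝ) ^ 2)⁻¹) ≤
        ∏ q ∈ S N \ S q0, fac m q := by
      apply Finset.prod_le_prod
      · intro q hq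
        obtain ⟨_, hq2, _⟩ := hT q hq
        have h7 : ((k : ℝ) + 1) ^ 2 * ((q : ℝ) ^ 2)⁻¹ ≤ 1 := by
          have hkq : (k : ℝ) + 1 < q := by exact_mod_cast lt_of_lt_of_le hkq0 hq2
          have hpos : (0 : ℝ) ≤ (k : ℝ) + 1 := by positivity
          rw [← div_eq_mul_inv, div_le_one (by nlinarith)]
          nlinarith
        linarith
      · intro q hq
        obtain ⟨hq1, hq2, _⟩ := hT q hq
        exact fac_ge m q hq1 (lt_of_lt_of_le hkq0 hq2)
    refine le_trans ?_ h2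
    refine le_trans ?_ (prod_ge _ (fun q => ((k : ℝ) + 1) ^ 2 * ((q : ℝ) ^ 2)⁻¹) ?_ ?_)
    · have h3 : ∑ q ∈ S N \ S q0, ((q : ℝ) ^ 2)⁻¹ ≤ 2 / (((q0 - 1 : ℕ) : ℝ) + 1) := by
        refine le_trans ?_ (sum_Ioo_inv_sq_le (α := ℝ) (q0 - 1) N)
        apply Finset.sum_le_sum_of_subset_of_nonneg
        · intro q hq
          obtain ⟨_, hq2, hq3⟩ := hT q hq
          rw [mem_Ioo]
          omega
        · intro i _ _
          positivity
      have h4 : (((q0 - 1 : ℕ) : ℝ) + 1) = 4 * ((k : ℝ) + 1) ^ 2 := by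
        have : ((q0 - 1 : ℕ) : ℝ) + 1 = ((q0 - 1 + 1 : ℕ) : ℝ) := by push_cast; ring
        rw [this, Nat.sub_add_cancel hq0pos, hq0]
        push_cast
        ring
      rw [h4] at h3
      rw [← Finset.mul_sum]
      have h5 : ((k : ℝ) + 1) ^ 2 * ∑ q ∈ S N \ S q0, ((q : ℝ) ^ 2)⁻¹ ≤
          ((k : ℝ) + 1) ^ 2 * (2 / (4 * ((k : ℝ) + 1) ^ 2)) :=
        mul_le_mul_of_nonneg_left h3 (by positivity)
      have h6 : ((k : ℝ) + 1) ^ 2 * (2 / (4 * ((k : ℝ) + 1) ^ 2)) = 1 / 2 := by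
        field_simp
        norm_num
      rw [h6] at h5
      linarith
    · intro q _
      positivity
    · intro q hq
      obtain ⟨_, hq2, _⟩ := hT q hq
      have hkq : (k : ℝ) + 1 < q := by exact_mod_cast lt_of_lt_of_le hkq0 hq2
      have hpos : (0 : ℝ) ≤ (k : ℝ) + 1 := by positivity
      change ((k : ℝ) + 1) ^ 2 * ((q : ℝ) ^ 2)⁻¹ ≤ 1
      rw [← div_eq_mul_inv, div_le_one (by nlinarith)]
      nlinarith
  have hpos : 0 < 2 ^ k * ((∏ q ∈ S q0, fac m q) * (1 / 2)) := by positivity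
  refine lt_of_lt_of_le hpos (ge_of_tendsto h ?_)
  filter_upwards [Filter.eventually_ge_atTop q0] with N hN
  exact key N hN

end Pool.Agent.H381R2.HR
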