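import Mathlib
import Pool.Agent.H381R2.HR.Defs
import Pool.Prelude.Def_F_c8bfdf43

/-! I3: the consequence of the Hardy–Littlewood conjecture. -/

set_option autoImplicit false

open Finset

namespace Pool.Agent.H381R2.HR

namespace I3aux

lemma tuple (y : ℕ) (S : Finset ℤ) (h0 : (0 : ℤ) ∈ S) (hS : ∀ s ∈ S, 0 ≤ s ∧ s < (y : ℤ))
    (hadm : ∀ q : ℕ, q.Prime → ∃ r : ℤ, ∀ s ∈ S, ¬ ((q : ℤ) ∣ s - r)) :
    ∃ k : ℕ, ∃ m : Fin k.succ → ℕ, m 0 = 0 ∧ Function.Injective m ∧ S.card = k + 1 ∧
      (∀ i, 2 * m i < y) ∧ k + 1 ≤ y ∧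
      (∀ q : ℕ, q.Prime → 3 ≤ q → ∃ r : ℕ, ∀ i, ¬ m i ≡ r [MOD q]) := by
  -- all elements are even
  have hev : ∀ s ∈ S, s % 2 = 0 := by
    obtain ⟨r, hr⟩ := hadm 2 Nat.prime_two
    intro s hs
    have h1 := hr 0 h0
    have h2 := hr s hs
    push_cast at h1 h2
    omega
  set f : ℤ → ℕ := fun s => (s / 2).toNat with hf
  have hf2 : ∀ s ∈ S, (2 * (f s : ℤ)) = s := by
    intro s hs
    have h1 := hev s hs
    have h2 := (hS s hs).1
    simp only [hf]
    have h3 : 0 ≤ s / 2 := by omega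
    rw [Int.toNat_of_nonneg h3]
    omega
  set S' : Finset ℕ := S.image f with hS'
  have hcard : S'.card = S.card := by
    rw [hS']
    apply Finset.card_image_of_injOn
    intro a ha b hb hab
    have h1 := hf2 a ha
    have h2 := hf2 b hb
    rw [hab] at h1
    omega
  have hpos : 0 < S.card := Finset.card_pos.2 ⟨0, h0⟩
  obtain ⟨k, hk⟩ : ∃ k, S.card = k + 1 := ⟨S.card - 1, by omega⟩
  have hk' : S'.card = k.succ := by rw [hcard, hk]
  set m : Fin k.succ → ℕ := fun i => S'.orderEmbOfFin hk' i with hm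
  have hmem : ∀ i, m i ∈ S' := fun i => Finset.orderEmbOfFin_mem S' hk' i
  have hmS : ∀ i, ((2 * m i : ℕ) : ℤ) ∈ S := by
    intro i
    have := hmem i
    rw [hS', mem_image] at this
    obtain ⟨s, hs, hsi⟩ := this
    have h1 := hf2 s hs
    rw [hsi] at h1
    push_cast
    rw [h1]
    exact hs
  have h0' : (0 : ℕ) ∈ S' := by
    rw [hS', mem_image]
    exact ⟨0, h0, by simp [hf]⟩
  refine ⟨k, m, ?_, ?_, hk, ?_, ?_, ?_⟩
  · have h1 : m 0 = S'.min' ⟨0, h0'⟩ := by
      have := Finset.orderEmbOfFin_zero hk' (Nat.succ_pos k)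
      simp only [hm]
      exact this
    have h2 := Finset.min'_le S' 0 h0'
    omega
  · exact (S'.orderEmbOfFin hk').injective
  · intro i
    have := (hS _ (hmS i)).2
    exact_mod_cast this
  · have hsub : S ⊆ Finset.Ico (0:ℤ) (y:ℤ) := by
      intro s hs
      rw [Finset.mem_Ico]
      exact hS s hs
    have := Finset.card_le_card hsub
    rw [Int.card_Ico] at this
    omega
  · intro q hq hq3
    obtain ⟨r, hr⟩ := hadm q hq
    have hq2 : q % 2 = 1 := by
      rcases hq.eq_two_or_odd with h | h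
      · omega
      · exact h
    have hq0 : (q : ℤ) ≠ 0 := by positivity
    refine ⟨((r * (((q:ℤ) + 1) / 2)) % q).toNat, fun i hi => ?_⟩
    apply hr _ (hmS i)
    have h1 : (((((r * (((q:ℤ) + 1) / 2)) % q).toNat : ℕ)) : ℤ) = (r * (((q:ℤ) + 1) / 2)) % q :=
      Int.toNat_of_nonneg (Int.emod_nonneg _ hq0)
    have h2 : ((m i : ℕ) : ℤ) ≡ (r * (((q:ℤ) + 1) / 2)) % q [ZMOD q] := by
      rw [← h1]
      exact (Int.natCast_modEq_iff).2 hi
    have h3 : ((m i : ℕ) : ℤ) ≡ r * (((q:ℤ) + 1) / 2) [ZMOD q] := h2.trans (Int.mod_modEq _ _)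
    have h4 : (2:ℤ) * (m i : ℕ) ≡ 2 * (r * (((q:ℤ) + 1) / 2)) [ZMOD q] := h3.mul_left 2
    have h5 : (2:ℤ) * (r * (((q:ℤ) + 1) / 2)) = r + q * r := by
      have : 2 * (((q:ℤ) + 1) / 2) = q + 1 := by omega
      calc (2:ℤ) * (r * (((q:ℤ) + 1) / 2)) = r * (2 * (((q:ℤ) + 1) / 2)) := by ring
        _ = r * (q + 1) := by rw [this]
        _ = r + q * r := by ring
    rw [h5] at h4
    have h6 := h4.symm.dvd
    have h7 : ((2 * m i : ℕ) : ℤ) - r = (2 * (m i : ℕ) - (r + q * r)) + q * r := by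
      push_cast; ring
    rw [h7]
    exact dvd_add h6 (dvd_mul_right _ _)

open Classical in
lemma count_le {k : ℕ} (m : Fin k.succ → ℕ) (hm0 : m 0 = 0) (hinj : Function.Injective m)
    (y : ℕ) (hy : ∀ i, 2 * m i < y) (X : ℕ) :
    N9a2a6718.Nat.primeTupleCounting m X ≤
      ((Icc 1 X).filter (fun x => Nat.primeCounting x + (k + 1) ≤
        Nat.primeCounting (x + y))).card := by
  unfold N9a2a6718.Nat.primeTupleCounting
  rw [Nat.count_eq_card_filter_range]
  refine Finset.card_le_card_of_injOn (fun p => p - 1) ?_ ?_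
  · intro p hp
    rw [Finset.mem_coe, mem_filter, mem_range] at hp
    obtain ⟨hpX, hP⟩ := hp
    have hpr : ∀ i, (p + 2 * m i).Prime := hP.1.2.2
    have hp1 : p.Prime := by
      have := hpr 0
      rw [hm0] at this
      simpa using this
    have hp2 := hp1.two_le
    show p - 1 ∈ (((Icc 1 X).filter (fun x => Nat.primeCounting x + (k + 1) ≤
        Nat.primeCounting (x + y)) : Finset ℕ) : Set ℕ)
    rw [Finset.mem_coe, mem_filter, mem_Icc]
    refine ⟨⟨by omega, by omega⟩, ?_⟩
    have e1 : ∀ n, Nat.primeCounting n = ((range (n+1)).filter Nat.Prime).card := by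
      intro n
      rw [Nat.primeCounting, Nat.primeCounting', Nat.count_eq_card_filter_range]
    rw [e1, e1]
    have hc : (univ.image (fun i => p + 2 * m i)).card = k + 1 := by
      rw [Finset.card_image_of_injective]
      · simp
      · intro a b hab
        apply hinj
        simp only at hab
        omega
    rw [← hc, ← Finset.card_union_of_disjoint]
    · apply Finset.card_le_card
      intro z hz
      rw [mem_union, mem_filter, mem_range, mem_image] at hz
      rw [mem_filter, mem_range]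
      rcases hz with ⟨h1, h2⟩ | ⟨i, -, rfl⟩
      · exact ⟨by omega, h2⟩
      · refine ⟨?_, hpr i⟩
        have := hy i
        omega
    · rw [Finset.disjoint_left]
      intro z hz hz2
      rw [mem_filter, mem_range] at hz
      rw [mem_image] at hz2
      obtain ⟨i, -, rfl⟩ := hz2
      omega
  · intro a ha b hb hab
    rw [Finset.mem_coe, mem_filter, mem_range] at ha hb
    have ha1 : 1 ≤ a := by
      have := ha.2.1.2.2 0
      rw [hm0] at this
      have h : a.Prime := by simpa using this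
      exact h.one_lt.le
    have hb1 : 1 ≤ b := by
      have := hb.2.1.2.2 0
      rw [hm0] at this
      have h : b.Prime := by simpa using this
      exact h.one_lt.le
    simp only at hab
    omega

lemma integral_ge (K X : ℕ) (hX : 2 ≤ X) :
    ((X : ℝ) - 2) / (Real.log X) ^ K ≤ ∫ t in (2:ℝ)..X, 1 / (Real.log t) ^ K := by
  have hX2 : (2:ℝ) ≤ X := by exact_mod_cast hX
  have hl2 : 0 < Real.log 2 := Real.log_pos (by norm_num)
  have hcont : ContinuousOn (fun t : ℝ => 1 / (Real.log t) ^ K) (Set.uIcc (2:ℝ) X) := by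
    rw [Set.uIcc_of_le hX2]
    apply ContinuousOn.div continuousOn_const
    · apply ContinuousOn.pow
      apply Real.continuousOn_log.mono
      intro t ht
      have : (2:ℝ) ≤ t := ht.1
      simp only [Set.mem_compl_iff, Set.mem_singleton_iff]
      linarith
    · intro t ht
      have : (2:ℝ) ≤ t := ht.1
      have h2 : 0 < Real.log t := Real.log_pos (by linarith)
      positivity
  have h1 : ∫ t in (2:ℝ)..X, (1 / (Real.log X) ^ K : ℝ) = ((X : ℝ) - 2) / (Real.log X) ^ K := by
    rw [intervalIntegral.integral_const, smul_eq_mul, mul_one_div]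
  rw [← h1]
  apply intervalIntegral.integral_mono_on hX2
  · exact intervalIntegrable_const
  · exact hcont.intervalIntegrable
  · intro t ht
    have h2 : (2:ℝ) ≤ t := ht.1
    have h3 : 0 < Real.log t := Real.log_pos (by linarith)
    apply one_div_le_one_div_of_le (by positivity)
    exact pow_le_pow_left₀ h3.le (Real.log_le_log (by linarith) ht.2) K

end I3aux

open I3aux

/-- I3: the consequence of the Hardy–Littlewood conjecture. -/
theorem I3 (α : ℝ) (hF : Final α)
    (hI2 : ∀ {k : ℕ} (m : Fin k.succ → ℕ),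
      (∀ q : ℕ, q.Prime → 3 ≤ q → ∃ r : ℕ, ∀ i, ¬ m i ≡ r [MOD q]) → ∀ C : ℝ,
      Filter.Tendsto (N9a2a6718.HardyLittlewoodPartialProduct m) Filter.atTop (nhds C) → 0 < C)
    (HL : ∀ {k : ℕ} (m : Fin k.succ → ℕ), N9a2a6718.FirstHardyLittlewoodConjectureFor m) :
    ∃ y0 : ℕ, ∀ y : ℕ, y0 ≤ y → ∃ δ : ℝ, 0 < δ ∧ ∃ X0 : ℕ, ∀ X : ℕ, X0 ≤ X →
      δ * (X / (Real.log X) ^ y) ≤
        (((Icc 1 X).filter (fun x => (Nat.primeCounting x : ℝ) + Nat.primeCounting y +
          α * (y * Real.log (Real.log (Real.log y)) / (Real.log y) ^ 2) ≤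
            Nat.primeCounting (x + y))).card : ℝ) := by
  obtain ⟨x0, hx0⟩ := hF
  refine ⟨⌈x0⌉₊, fun y hy => ?_⟩
  have hyx : x0 ≤ (y:ℝ) := le_trans (Nat.le_ceil x0) (by exact_mod_cast hy)
  obtain ⟨S, h0, hS, hadm, hcard⟩ := hx0 y hyx
  rw [Nat.floor_natCast] at hcard
  obtain ⟨k, m, hm0, hinj, hSk, hmy, hky, hmadm⟩ := tuple y S h0
    (fun s hs => ⟨(hS s hs).1, by exact_mod_cast (hS s hs).2⟩) hadm
  obtain ⟨C, hC0, hCt, hCe⟩ := HL m hm0 hinj
  have hCpos : 0 < C := hI2 m hmadm C hCt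
  have hev := (hCe.isLittleO.def (c := 1 / 2) (by norm_num))
  rw [Filter.eventually_atTop] at hev
  obtain ⟨X1, hX1⟩ := hev
  refine ⟨C / 4, by positivity, max X1 4, fun X hX => ?_⟩
  have hX1' : X1 ≤ X := le_trans (le_max_left _ _) hX
  have hX4 : 4 ≤ X := le_trans (le_max_right _ _) hX
  have hX4' : (4:ℝ) ≤ X := by exact_mod_cast hX4
  have hlX : 1 ≤ Real.log X := by
    have h1 : Real.log 4 ≤ Real.log X := Real.log_le_log (by norm_num) hX4'
    have h2 : Real.log 4 = 2 * Real.log 2 := by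
      rw [show (4:ℝ) = 2 ^ 2 by norm_num, Real.log_pow]
      norm_num
    have := Real.log_two_gt_d9
    linarith
  have hint := integral_ge k.succ X (by omega)
  have hb := hX1 X hX1'
  set I : ℝ := ∫ t in (2:ℝ)..X, 1 / (Real.log t) ^ k.succ with hI
  have hI0 : 0 ≤ I := le_trans (div_nonneg (by linarith) (by positivity)) hint
  simp only [Pi.sub_apply, Real.norm_eq_abs] at hb
  rw [← hI] at hb
  have hCI : |C * I| = C * I := abs_of_nonneg (mul_nonneg hC0 hI0)
  rw [hCI] at hb
  have hlow : C * I / 2 ≤ (N9a2a6718.Nat.primeTupleCounting m X : ℝ) := by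
    have := (abs_le.1 hb).1
    linarith
  have hsub := count_le m hm0 hinj y hmy X
  have hfin : (N9a2a6718.Nat.primeTupleCounting m X : ℝ) ≤
      (((Icc 1 X).filter (fun x => (Nat.primeCounting x : ℝ) + Nat.primeCounting y +
          α * (y * Real.log (Real.log (Real.log y)) / (Real.log y) ^ 2) ≤
            Nat.primeCounting (x + y))).card : ℝ) := by
    refine le_trans (Nat.cast_le.2 hsub) (Nat.cast_le.2 (Finset.card_le_card ?_))
    intro x hx
    rw [mem_filter] at hx ⊢
    refine ⟨hx.1, ?_⟩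
    have h1 : ((Nat.primeCounting x + (k + 1) : ℕ) : ℝ) ≤ (Nat.primeCounting (x + y) : ℝ) :=
      Nat.cast_le.2 hx.2
    rw [hSk] at hcard
    push_cast at h1 hcard
    linarith
  refine le_trans ?_ hfin
  refine le_trans ?_ hlow
  have h5 : (X:ℝ) / 2 / (Real.log X) ^ y ≤ I := by
    refine le_trans ?_ hint
    have hp : (Real.log X) ^ k.succ ≤ (Real.log X) ^ y := pow_le_pow_right₀ hlX hky
    have hp0 : 0 < (Real.log X) ^ k.succ := by positivity
    exact div_le_div₀ (by linarith) (by linarith) hp0 hp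
  calc C / 4 * (X / (Real.log X) ^ y) = C * ((X:ℝ) / 2 / (Real.log X) ^ y) / 2 := by ring
    _ ≤ C * I / 2 := by
        have := mul_le_mul_of_nonneg_left h5 hC0
        linarith

end Pool.Agent.H381R2.HR
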