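import Mathlib
import Pool.Agent.H381R2.HR.CoreThm
import Pool.Agent.H381R2.HR.I1
import Pool.Agent.H381R2.HR.I2
import Pool.Agent.H381R2.HR.I3

set_option autoImplicit false

open Finset

namespace Pool.Agent.H381R2.HR

/-- **Improved Hensley–Richards theorem.** -/
theorem final {α : ℝ} (hα : α < 1 / 2) : Final α :=
  I1 Asm.pnt2 (fun _ h => Asm.core h Asm.pnt2) α hα

end Pool.Agent.H381R2.HR
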